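import Pool.Agent.H543.MQ.Fin
import Pool.Graph.R_seed8.R498.MT.Fin2

/-!
# Clusters of values with at most two prime factors, in narrow progressions: the theorem
-/

set_option autoImplicit false
set_option linter.unusedSectionVars false

namespace Pool.Agent.H543.MQ

open Finset Filter Polynomial
open Pool.Agent.R498.MT
open Pool.Agent.Y677.RSZ (rt Sys rhoT per_mod ev_log V eng_all)
open Pool.Agent.TH423.SH (PS)
open Pool.Agent.W23.DC
open Pool.Agent.Y882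
open Pool.Agent.Y882.PX hiding gd
open Pool.Agent.Y882.KW
open Pool.Agent.Y346.PA (S_KL)
open Pool.Agent.H543.DD
open Pool.Agent.H543.DP (fv NV dt NS cF)

theorem fv_QG (A : ℕ) (B C : ℤ) : (fun n => (QG A B C).eval n) = fv A B C := by
  funext n
  rw [QG_eval]
  rfl

/-- the value at `x` has at most two prime factors, all at least `N ^ (6 / 25)`, and `P x` has no
prime factor below `N ^ δ` -/
def Gx (A : ℕ) (B C : ℤ) (P : ℤ[X]) (N : ℕ) (δ : ℝ) (x : ℕ) : Prop :=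
  (fv A B C (x : ℤ)).natAbs.primeFactorsList.length ≤ 2 ∧
  (∀ p : ℕ, p.Prime → (p : ℤ) ∣ fv A B C (x : ℤ) → (N : ℝ) ^ (6 / 25 : ℝ) ≤ p) ∧
  ∀ p : ℕ, p.Prime → (p : ℤ) ∣ P.eval (x : ℤ) → (N : ℝ) ^ δ ≤ p

open Classical in
/-- **Clusters of values with at most two prime factors in narrow progressions.** -/
theorem clu (A : ℕ) (B C : ℤ) (hA : 1 ≤ A) (hna : ¬ IsSquare (-(dt A B C)))
    (P : ℤ[X]) (hP : P ≠ 0) (g : ℕ) (hg1 : 1 ≤ g) (hF : Sys g (fun n => P.eval n))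
    (hG : Sys g (fv A B C))
    (hGF : ∀ p : ℕ, p.Prime → ∀ n : ℤ, (p : ℤ) ∣ fv A B C n → (p : ℤ) ∣ P.eval n)
    (CG : ℕ) (hGs : ∀ n : ℕ, fv A B C (n : ℤ) ≠ 0 ∧ (fv A B C (n : ℤ)).natAbs ≤ CG * (n + 1) ^ 2) :
    ∃ δ₀ : ℝ, 0 < δ₀ ∧ ∀ m : ℕ,
    ∃ (K₀ D : ℕ) (δ : ℝ), 0 < δ ∧ ∀ HH : Finset ℕ, K₀ ≤ HH.card → ∀ l : ℕ, 2 ≤ l →
      ∃ B' : ℕ, ∀ᶠ N : ℕ in atTop, ∀ X : ℕ, (N : ℝ) ^ (1 - δ₀) ≤ X → 2 * X ≤ N →
      ∃ H ⊆ HH, H.card = m ∧
        X / Real.log N ^ D ≤ (((Ioc N (N + X)).filter (fun n : ℕ => ∀ h ∈ H,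
          Gx A B C P N δ (n + h))).card : ℝ) ∧
        ∃ n d : ℕ, N < n ∧ n + (l - 1) * d ≤ N + X ∧ 1 ≤ d ∧
        (d : ℝ) ≤ Real.log N ^ B' ∧ ∀ j < l, ∀ h ∈ H, Gx A B C P N δ (n + j * d + h) := by
  classical
  have hΔ : ¬ IsSquare (B ^ 2 - 4 * (A : ℤ) * C) := by
    have e : B ^ 2 - 4 * (A : ℤ) * C = -(dt A B C) := by unfold dt; ring
    rw [e]
    exact hna
  have hA0 : (A : ℤ) ≠ 0 := by exact_mod_cast (by omega : A ≠ 0)
  have hGs' : ∀ n : ℕ, fv A B C (n : ℤ) ≠ 0 ∧ (fv A B C (n : ℤ)).natAbs ≤ (n + 2) ^ (CG + 2) := by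
    intro n
    refine ⟨(hGs n).1, (hGs n).2.trans ?_⟩
    rw [pow_add]
    apply Nat.mul_le_mul
    · calc CG ≤ 2 ^ CG := Nat.lt_two_pow_self.le
        _ ≤ (n + 2) ^ CG := Nat.pow_le_pow_left (by omega) _
    · exact Nat.pow_le_pow_left (by omega) _
  have hMer : ∀ ε₁ υ η : ℝ, 0 < ε₁ → υ ≤ 1 → 0 < η → ∃ Y0 : ℕ, ∀ Y : ℕ, Y0 ≤ Y →
      Mer (pr Y ε₁ υ) (tt Y) (fun p => (rt (fv A B C) p : ℝ) / p) ε₁ υ η := by
    intro ε₁ υ η h1 h2 h3
    rw [← fv_QG]
    exact mer_QG A B C hA0 hΔ ε₁ υ η h1 h2 h3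
  obtain ⟨KK, q0, hSq⟩ : ∃ KK q0 : ℕ, ∀ q : ℕ, q.Prime → q0 ≤ q → ∀ N H : ℕ,
      ((((Icc 1 H).filter (fun j : ℕ => ((q ^ 2 : ℕ) : ℤ) ∣ fv A B C ((N + j : ℕ) : ℤ))).card : ℕ)
        : ℝ) ≤ KK * (H * (1 / (q : ℝ) ^ 2) + 1) := by
    refine ⟨2, (A : ℤ).natAbs + (B ^ 2 - 4 * (A : ℤ) * C).natAbs + 3, ?_⟩
    intro q hq hqa N H
    rw [← fv_QG]
    exact sq_QG A B C hA0 hΔ q hq (by omega) (by omega) N H
  obtain ⟨κ, hκ, hκ1, hcore⟩ := core2 Pool.Agent.Y346.PA.kl A B C hA hna (fun n => P.eval n) g hF hG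
    hGF (CG + 2) hGs' hMer
  refine ⟨κ / 2, by positivity, ?_⟩
  intro m
  obtain ⟨k, W, hW0, hWsq, hWp, hgW, ε₁, c, hε, hεζ, hc, hcore⟩ := hcore m
  have hW2 : 2 ≤ W := by
    have h1 : 2 ∣ W := hWp 2 Nat.prime_two (by
      have : 1 ≤ g * 2 ^ k := Nat.mul_pos hg1 (by positivity)
      omega)
    exact Nat.le_of_dvd hW0 h1
  obtain ⟨aL, haL⟩ : ∃ aL : ℕ, aL = 2 * (g * 2 ^ k) + 1 := ⟨_, rfl⟩
  refine ⟨W * 2 ^ k, aL + 1, ε₁, hε, ?_⟩
  intro HH hHH
  obtain ⟨r, t, hrW, ht, hmem⟩ := shifts W (2 ^ k) hW0 HH hHH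
  obtain ⟨b, hbW, hb⟩ := exb' hF W hW0 hWsq
  obtain ⟨N₀, hcore⟩ := hcore t ht b hb
  obtain ⟨g', hS⟩ := PP_sys P hP g hF W b t hWp hb
  obtain ⟨KP, DP, hKD⟩ := Pool.Agent.W123.RU.Poly.eval_bound (PP P W t)
  obtain ⟨n₀, hn₀⟩ := Pool.Agent.Y677.RSZ.ne_zero_ev (PP P W t) (PP_ne P hP W t)
  obtain ⟨κ', hκ'⟩ : ∃ κ' : ℝ, κ' = c / (2 * 2 ^ 2 ^ k) / W := ⟨_, rfl⟩
  have hW0r : (0 : ℝ) < W := by exact_mod_cast hW0
  have hκ'0 : 0 < κ' := by rw [hκ']; positivity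
  intro l hl
  obtain ⟨B', H₀, hB⟩ := eng_all l (g' + 4 * (DP + 1)) (ε₁ / 2) κ' hl (by positivity) hκ'0
  obtain ⟨NT, hNT⟩ : ∃ NT : ℕ, ∀ i, t i ≤ NT :=
    ⟨univ.sup t, fun i => Finset.le_sup (f := t) (mem_univ i)⟩
  refine ⟨B', ?_⟩
  have hnums := nums2 W (n₀ + W) KP H₀ q0 N₀ NT aL b CG κ
    (8 * (2 ^ k * KK * W) / c) (4 * (2 ^ k * KK) / c) hW2 hκ hκ1
  have hev : ∀ᶠ N : ℕ in atTop, 2 ^ aL / (κ' / 4) ≤ Real.log (N : ℝ) :=
    (Real.tendsto_log_atTop.comp tendsto_natCast_atTop_atTop).eventually_ge_atTop _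
  filter_upwards [hnums, hev] with N hN hN' X hX1 hX2
  obtain ⟨⟨n1, n2, n3, n4, n5, n6, n8, n9, n10, n11, n12⟩, hNX⟩ := hN
  obtain ⟨L, l1, l2, l3, l4, l6, l7⟩ := hNX X hX1 hX2
  have hNr : (5 : ℝ) ≤ N := by exact_mod_cast n1
  have hN0 : (0 : ℝ) < N := by linarith
  have hN1 : (1 : ℝ) ≤ N := by linarith
  have hlN : 0 < Real.log N := Real.log_pos (by linarith)
  have hYp : ∀ x : ℝ, ((N ^ 2 : ℕ) : ℝ) ^ x = (N : ℝ) ^ (2 * x) := by
    intro x
    push_cast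
    rw [← Real.rpow_natCast, ← Real.rpow_mul hN0.le]
    norm_num
  have hY0 : (0 : ℝ) < ((N ^ 2 : ℕ) : ℝ) := by positivity
  have hYN : N ≤ N ^ 2 := Nat.le_self_pow (by norm_num) N
  obtain ⟨M, hM⟩ : ∃ M : ℕ, M = (N + r) / W + 1 := ⟨_, rfl⟩
  have hM1 : N + r < W * M := by
    rw [hM]
    exact Nat.lt_mul_div_succ (N + r) hW0
  have hM2 : W * M ≤ N + r + W := by
    rw [hM, mul_add, mul_one]
    have := Nat.mul_div_le (N + r) W
    omega
  obtain ⟨z, hz⟩ : ∃ z : ℕ, z + 1 = ⌈((N ^ 2 : ℕ) : ℝ) ^ ε₁⌉₊ := by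
    have : 1 ≤ ⌈((N ^ 2 : ℕ) : ℝ) ^ ε₁⌉₊ := Nat.ceil_pos.2 (by positivity)
    exact ⟨⌈((N ^ 2 : ℕ) : ℝ) ^ ε₁⌉₊ - 1, by omega⟩
  have hz1 : (z : ℝ) < ((N ^ 2 : ℕ) : ℝ) ^ ε₁ := by
    have h1 := Nat.ceil_lt_add_one (show 0 ≤ ((N ^ 2 : ℕ) : ℝ) ^ ε₁ by positivity)
    rw [← hz] at h1
    push_cast at h1 ⊢
    linarith
  have hz2 : ((N ^ 2 : ℕ) : ℝ) ^ ε₁ ≤ z + 1 := by
    have h1 := Nat.le_ceil (((N ^ 2 : ℕ) : ℝ) ^ ε₁)
    rw [← hz] at h1
    push_cast at h1 ⊢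
    exact h1
  obtain ⟨hgd, hV0, hV1⟩ := hcore N n2 M L z (by omega) (by omega) l2 l4 hz1 hz2
  rw [← haL] at hV1
  have hLθ : ((N ^ 2 : ℕ) : ℝ) ^ (99 / 200 : ℝ) ≤ L := by
    refine le_trans ?_ l2
    rw [hYp]
    exact Real.rpow_le_rpow_of_exponent_le hN1 (by linarith)
  obtain ⟨Hs, A', hHs, hA1, hA2⟩ := many2 (fun n => P.eval n) (fv A B C) KK q0 W b M L (N ^ 2) k m
    aL ε₁ pζ pυ (9 / 20) (99 / 200) pa pb c
    (Vp (fun n => P.eval n) W b z t) hSq hW0 (by omega) n5 t hc hV0 hV1 hgd hLθ n9 n10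
  -- the progression
  have hbds : ∀ K ∈ Ioc M (M + L), N + r < W * K + b ∧ W * K + b ≤ N + r + W + W * L + b ∧
      W * K + b ≤ 3 * N := by
    intro K hK
    rw [mem_Ioc] at hK
    have h2 : W * (M + 1) ≤ W * K := Nat.mul_le_mul_left _ (by omega)
    have h3 : W * K ≤ W * (M + L) := Nat.mul_le_mul_left _ hK.2
    have h5 : W * (M + L) = W * M + W * L := by ring
    have h6 : W * (M + 1) = W * M + W := by ring
    refine ⟨by omega, by omega, by omega⟩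
  have hWL : ((N : ℝ)) ^ (1 / 2 : ℝ) ≤ ((W * L : ℕ) : ℝ) := by
    refine l6.trans ?_
    have : L ≤ W * L := Nat.le_mul_of_pos_left _ hW0
    exact_mod_cast this
  have hWL1 : 1 ≤ W * L := by
    have h1 : (1 : ℝ) ≤ ((W * L : ℕ) : ℝ) := le_trans (Real.one_le_rpow hN1 (by norm_num)) hWL
    exact_mod_cast h1
  have hWLr : (1 : ℝ) ≤ ((W * L : ℕ) : ℝ) := by exact_mod_cast hWL1
  have hWLN : ((W * L : ℕ) : ℝ) ≤ N := by
    have : W * L ≤ N := by omega
    exact_mod_cast this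
  obtain ⟨a, d, hd1, hd2, had⟩ := hB (fun n => (PP P W t).eval n) (W * M + b) (W * L)
    (A'.image (fun K => W * K + b)) (Pool.Agent.Y677.RSZ.Sys.mono hS (by omega)) l3
    (by
      intro n hn
      rw [mem_Ioc] at hn
      have hn1 : n ≤ 3 * N := by omega
      have hn2 : N ≤ n + W := by omega
      refine ⟨?_, ?_⟩
      · exact hn₀ n (by omega)
      · have h8 := size_P (PP P W t) KP DP N (W * L) hKD (by omega) n4 hWL n (by
          refine le_trans ?_ n6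
          have : n + 1 ≤ 3 * N + W * NT + 1 := by omega
          exact_mod_cast this)
        refine h8.trans ?_
        exact pow_le_pow_right₀ (by exact_mod_cast hWL1) (by omega))
    (by
      intro x hx
      rw [mem_image] at hx
      obtain ⟨K, hK, rfl⟩ := hx
      have h1 := (hA2 K hK).1
      rw [mem_Ioc] at h1 ⊢
      have h2 : W * (M + 1) ≤ W * K := Nat.mul_le_mul_left _ (by omega)
      have h3 : W * K ≤ W * (M + L) := Nat.mul_le_mul_left _ h1.2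
      have h5 : W * (M + L) = W * M + W * L := by ring
      have h7 : W * (M + 1) = W * M + W := by ring
      constructor <;> omega)
    (by
      intro x hx p hp hpH hdvd
      rw [mem_image] at hx
      obtain ⟨K, hK, rfl⟩ := hx
      obtain ⟨i, hi⟩ := (PP_dvd P W b t p hp K).1 hdvd
      refine (hA2 K hK).2.1 p hp ?_ i hi
      refine hpH.trans_lt ?_
      rw [hYp]
      calc ((W * L : ℕ) : ℝ) ^ (ε₁ / 2) ≤ (N : ℝ) ^ (ε₁ / 2) :=
            Real.rpow_le_rpow (by positivity) hWLN (by positivity)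
        _ < (N : ℝ) ^ (2 * ε₁) := Real.rpow_lt_rpow_of_exponent_lt (by linarith) (by linarith))
    (by
      rw [card_image_of_injective _ (fun K K' hKK => by
        have h1 : W * K + b = W * K' + b := hKK
        have h2 : W * K = W * K' := by omega
        exact Nat.eq_of_mul_eq_mul_left hW0 h2)]
      refine le_trans ?_ hA1
      have hzWL : z ≤ W * L := by
        have h1 : (z : ℝ) ≤ ((W * L : ℕ) : ℝ) := by
          refine hz1.le.trans (le_trans ?_ hWL)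
          rw [hYp]
          refine Real.rpow_le_rpow_of_exponent_le hN1 ?_
          have : pζ = 12 / 100 := rfl
          linarith
        exact_mod_cast h1
      have h1 := PP_V P g hF W b z (W * L) t hzWL
      calc κ' * ((W * L : ℕ) * V (fun n => (PP P W t).eval n) 1 (W * L)) ≤
          κ' * ((W * L : ℕ) * Vp (fun n => P.eval n) W b z t) := by gcongr
        _ = c / (2 * 2 ^ 2 ^ k) * (L * Vp (fun n => P.eval n) W b z t) := by
            rw [hκ']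
            push_cast
            field_simp)
  have hpt : ∀ j < l, ∃ K ∈ A', W * K + b = a + j * d := by
    intro j hj
    have h1 := had j hj
    rw [mem_image] at h1
    obtain ⟨K, hK, h2⟩ := h1
    exact ⟨K, hK, h2⟩
  obtain ⟨K0, hK0, hK0a⟩ := hpt 0 (by omega)
  rw [zero_mul, add_zero] at hK0a
  obtain ⟨K1, hK1, hK1a⟩ := hpt (l - 1) (by omega)
  have hb0 := hbds K0 (hA2 K0 hK0).1
  have hb1 := hbds K1 (hA2 K1 hK1).1
  rw [hK0a] at hb0
  rw [hK1a] at hb1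
  have hWL2 : W * (L + 2) = W * L + W + W := by ring
  -- the good points
  have hgood : ∀ K ∈ A', ∀ i ∈ Hs, Gx A B C P N ε₁ (W * (K + t i) + b) := by
    intro K hK i hi
    obtain ⟨hK1', hK2', hK3'⟩ := hA2 K hK
    obtain ⟨hw, hsq⟩ := hK3' i hi
    have hbK := hbds K hK1'
    have hx : W * (K + t i) + b + 1 ≤ 4 * N := by
      have h1 : W * t i ≤ W * NT := Nat.mul_le_mul_left _ (hNT i)
      have h2 : W * (K + t i) = W * K + W * t i := by ring
      omega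
    have hsize : (fv A B C ((W * (K + t i) + b : ℕ) : ℤ)).natAbs ≤ (16 * CG + 1) * N ^ 2 := by
      have h1 := (hGs (W * (K + t i) + b)).2
      have h4 : (W * (K + t i) + b + 1) ^ 2 ≤ (4 * N) ^ 2 := Nat.pow_le_pow_left hx 2
      calc (fv A B C ((W * (K + t i) + b : ℕ) : ℤ)).natAbs ≤ CG * (4 * N) ^ 2 :=
            h1.trans (Nat.mul_le_mul_left _ h4)
        _ = (16 * CG) * N ^ 2 := by ring
        _ ≤ _ := Nat.mul_le_mul_right _ (by omega)
    have htwo := two_of (N ^ 2) (fv A B C ((W * (K + t i) + b : ℕ) : ℤ)).natAbs (16 * CG + 1)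
      (by omega) (by omega) hsize (Int.natAbs_ne_zero.2 (hGs _).1) n12
      (by push_cast at n11 ⊢; exact n11) hw (fun q hq hqd => hsq q hq (Int.natCast_dvd.2 hqd))
    refine ⟨htwo.1, fun p hp hpd => ?_, fun p hp hpd => ?_⟩
    · have h1 := htwo.2 p hp (Int.natCast_dvd.1 hpd)
      rw [hYp] at h1
      refine le_trans (le_of_eq ?_) h1
      congr 1
      unfold pζ
      norm_num
    · by_contra hcon
      push Not at hcon
      refine hK2' p hp ?_ i hpd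
      rw [hYp]
      refine hcon.trans_le ?_
      exact Real.rpow_le_rpow_of_exponent_le hN1 (by linarith)
  refine ⟨Hs.image (fun i => W * t i + r), ?_, ?_, ?_, a - r, d, by omega, ?_, hd1, ?_, ?_⟩
  · intro h hh
    rw [mem_image] at hh
    obtain ⟨i, _, rfl⟩ := hh
    exact hmem i
  · rw [card_image_of_injective _ (fun i j hij => by
      have h1 : W * t i + r = W * t j + r := hij
      have h2 : W * t i = W * t j := by omega
      exact ht (Nat.eq_of_mul_eq_mul_left hW0 h2))]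
    exact hHs
  · have h1 : A'.card ≤ ((Ioc N (N + X)).filter (fun n : ℕ =>
        ∀ h ∈ Hs.image (fun i => W * t i + r), Gx A B C P N ε₁ (n + h))).card := by
      apply card_le_card_of_injOn (fun K => W * K + b - r)
      · intro K hK
        have hK' := hbds K (hA2 K hK).1
        rw [mem_coe, mem_filter, mem_Ioc]
        refine ⟨⟨?_, ?_⟩, ?_⟩
        · show N < W * K + b - r
          omega
        · show W * K + b - r ≤ N + X
          omega
        intro h hh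
        rw [mem_image] at hh
        obtain ⟨i, hi, rfl⟩ := hh
        have h1 := hgood K hK i hi
        have e : W * K + b - r + (W * t i + r) = W * (K + t i) + b := by
          have : W * (K + t i) = W * K + W * t i := by ring
          omega
        simp only
        rw [e]
        exact h1
      · intro K hK K' hK' hKK
        have h1 := hbds K (hA2 K hK).1
        have h2 := hbds K' (hA2 K' hK').1
        have h0 : W * K + b - r = W * K' + b - r := hKK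
        have h3 : W * K = W * K' := by
          have h4 := h1.1
          have h5 := h2.1
          clear * - h0 h4 h5
          omega
        exact Nat.eq_of_mul_eq_mul_left hW0 h3
    have h2 : (X : ℝ) / Real.log N ^ (aL + 1) ≤ A'.card := by
      refine le_trans ?_ hA1
      have h3 : (X : ℝ) ≤ 4 * (W * L) := by exact_mod_cast l7
      have h4 : Real.log ((N ^ 2 : ℕ) : ℝ) = 2 * Real.log N := by
        push_cast
        rw [Real.log_pow]
        norm_num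
      rw [h4, mul_pow] at hV1
      have h5 : c / (2 * 2 ^ 2 ^ k) = κ' * W := by
        rw [hκ']
        field_simp
      rw [h5, div_le_iff₀ (by positivity)]
      rw [div_le_iff₀ (by positivity)] at hN'
      have h6 : (0 : ℝ) ≤ L := Nat.cast_nonneg L
      calc (X : ℝ) ≤ 4 * (W * L) * 1 := by rw [mul_one]; exact h3
        _ ≤ 4 * (W * L) * (2 ^ aL * Real.log N ^ aL * Vp (fun n => P.eval n) W b z t) :=
            mul_le_mul_of_nonneg_left hV1 (by positivity)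
        _ = (4 * (W * L) * Real.log N ^ aL * Vp (fun n => P.eval n) W b z t) * 2 ^ aL := by ring
        _ ≤ (4 * (W * L) * Real.log N ^ aL * Vp (fun n => P.eval n) W b z t) *
            (Real.log N * (κ' / 4)) := mul_le_mul_of_nonneg_left hN' (by positivity)
        _ = _ := by ring
    refine h2.trans ?_
    exact_mod_cast h1
  · omega
  · refine hd2.trans ?_
    apply pow_le_pow_left₀ (Real.log_nonneg hWLr)
    exact Real.log_le_log (by linarith) hWLN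
  · intro j hj h hh
    rw [mem_image] at hh
    obtain ⟨i, hi, rfl⟩ := hh
    obtain ⟨K, hK, hKa⟩ := hpt j hj
    have e : a - r + j * d + (W * t i + r) = W * (K + t i) + b := by
      have h1 := pt_eq W b r K (t i) (a + j * d) hKa (by omega)
      omega
    rw [e]
    exact hgood K hK i hi

open Classical in
/-- **Clusters of values with at most two prime factors of quadratic polynomials.** -/
theorem clu_gen (A : ℕ) (B C : ℤ) (hA : 1 ≤ A) (hna : ¬ IsSquare (B ^ 2 - 4 * (A : ℤ) * C))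
    (P : ℤ[X]) (hP : P ≠ 0)
    (hPd : ∀ p : ℕ, p.Prime → ∃ n : ℤ, ¬ (p : ℤ) ∣ P.eval n)
    (hGP : ∀ p : ℕ, p.Prime → ∀ n : ℤ, (p : ℤ) ∣ fv A B C n → (p : ℤ) ∣ P.eval n) :
    ∃ δ₀ : ℝ, 0 < δ₀ ∧ ∀ m : ℕ,
    ∃ (K₀ D : ℕ) (δ : ℝ), 0 < δ ∧ ∀ HH : Finset ℕ, K₀ ≤ HH.card → ∀ l : ℕ, 2 ≤ l →
      ∃ B' : ℕ, ∀ᶠ N : ℕ in atTop, ∀ X : ℕ, (N : ℝ) ^ (1 - δ₀) ≤ X → 2 * X ≤ N →
      ∃ H ⊆ HH, H.card = m ∧
        X / Real.log N ^ D ≤ (((Ioc N (N + X)).filter (fun n : ℕ => ∀ h ∈ H,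
          Gx A B C P N δ (n + h))).card : ℝ) ∧
        ∃ n d : ℕ, N < n ∧ n + (l - 1) * d ≤ N + X ∧ 1 ≤ d ∧
        (d : ℝ) ≤ Real.log N ^ B' ∧ ∀ j < l, ∀ h ∈ H, Gx A B C P N δ (n + j * d + h) := by
  have hΔ : ¬ IsSquare (-(dt A B C)) := by
    have e : B ^ 2 - 4 * (A : ℤ) * C = -(dt A B C) := by unfold dt; ring
    rw [← e]
    exact hna
  have hGne : QG A B C ≠ 0 := by
    intro h
    have := congrArg (fun Q : ℤ[X] => Q.eval 0) h
    simp only [QG_eval, eval_zero] at this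
    exact QG_ne_zero A B C hna 0 this
  have hGd : ∀ p : ℕ, p.Prime → ∃ n : ℤ, ¬ (p : ℤ) ∣ (QG A B C).eval n := by
    intro p hp
    obtain ⟨n, hn⟩ := hPd p hp
    refine ⟨n, fun h => hn (hGP p hp n ?_)⟩
    rwa [QG_eval] at h
  obtain ⟨g₀, hg₀⟩ := Pool.Agent.Y677.RSZ.poly_all P hP hPd
  obtain ⟨g₁, hg₁⟩ := Pool.Agent.Y677.RSZ.poly_all (QG A B C) hGne hGd
  rw [fv_QG] at hg₁
  exact clu A B C hA hΔ P hP (g₀ + g₁ + 1) (by omega) (Pool.Agent.Y677.RSZ.Sys.mono hg₀ (by omega))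
    (Pool.Agent.Y677.RSZ.Sys.mono hg₁ (by omega))
    (fun p hp n hd => hGP p hp n hd)
    (A + B.natAbs + C.natAbs) (fun n => by
      constructor
      · show (A : ℤ) * (n : ℤ) ^ 2 + B * n + C ≠ 0
        exact QG_ne_zero A B C hna _
      · show ((A : ℤ) * (n : ℤ) ^ 2 + B * n + C).natAbs ≤ _
        have h1 : ((A : ℤ) * (n : ℤ) ^ 2 + B * n + C).natAbs ≤
            A * n ^ 2 + B.natAbs * n + C.natAbs := by
          calc ((A : ℤ) * (n : ℤ) ^ 2 + B * n + C).natAbs ≤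
                ((A : ℤ) * (n : ℤ) ^ 2 + B * n).natAbs + C.natAbs := Int.natAbs_add_le _ _
            _ ≤ ((A : ℤ) * (n : ℤ) ^ 2).natAbs + (B * n).natAbs + C.natAbs := by
                have := Int.natAbs_add_le ((A : ℤ) * (n : ℤ) ^ 2) (B * n)
                omega
            _ = _ := by
                rw [Int.natAbs_mul, Int.natAbs_mul, Int.natAbs_pow, Int.natAbs_natCast,
                  Int.natAbs_natCast]
        refine h1.trans ?_
        nlinarith [Nat.zero_le (A * n), Nat.zero_le (B.natAbs * n ^ 2),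
          Nat.zero_le (B.natAbs * n), Nat.zero_le (C.natAbs * n), Nat.zero_le (C.natAbs * n ^ 2),
          Nat.zero_le A, Nat.zero_le B.natAbs, Nat.zero_le C.natAbs])

end Pool.Agent.H543.MQ
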