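import Pool.Agent.H543.MQ.Def

/-!
# The model: independent colours
-/

set_option autoImplicit false
set_option linter.unusedSectionVars false

namespace Pool.Agent.H543.MQ

open Finset
open Pool.Agent.R498.MT

section
variable {S : Type} [Fintype S] [DecidableEq S]

theorem pm_loc {J : Type} [Fintype J] [DecidableEq J] (q : ℝ) (c : Option J) :
    ∑ v : Option J, pm q v * (if c = none ∨ c = v then (1 : ℝ) else 0) =
      rr (fun _ : J => 1 / q) c := by
  rw [Fintype.sum_option]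
  rcases c with _ | j
  · simp only [true_or, if_true, mul_one, pm, rr]
    rw [Finset.sum_const, Finset.card_univ, nsmul_eq_mul]
    ring
  · simp only [reduceCtorEq, false_or, if_false, mul_zero, zero_add, pm, rr,
      Option.some.injEq, mul_ite, mul_one]
    simp

theorem pm_glob {J : Type} [Fintype J] [DecidableEq J] (q : S → ℝ) (T : S → Option J) :
    ∑ x : S → Option J, (∏ t, pm (q t) (x t)) * (if Sub T x then (1 : ℝ) else 0) =
      ∏ t, rr (fun _ : J => 1 / q t) (T t) := by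
  have h1 : ∀ x : S → Option J, (if Sub T x then (1 : ℝ) else 0) =
      ∏ t, (if T t = none ∨ T t = x t then (1 : ℝ) else 0) := by
    intro x
    rw [Finset.prod_ite_zero]
    simp [Pool.Agent.R498.MT.Sub]
  simp_rw [h1, ← prod_mul_distrib]
  rw [sum_prod (fun t v => pm (q t) v * (if T t = none ∨ T t = v then (1 : ℝ) else 0))]
  exact prod_congr rfl fun t _ => pm_loc (q t) (T t)

theorem enum_exists (J : Type) [Fintype J] [DecidableEq J] :
    ∃ (M : ℕ) (ξ : ℕ → S → Option J), ∀ g : (S → Option J) → ℝ,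
      ∑ n ∈ range M, g (ξ n) = ∑ x, g x := by
  refine ⟨Fintype.card (S → Option J), fun n =>
    if h : n < Fintype.card (S → Option J) then (Fintype.equivFin (S → Option J)).symm ⟨n, h⟩
      else fun _ => none, ?_⟩
  intro g
  rw [Finset.sum_range]
  rw [← Equiv.sum_comp (Fintype.equivFin (S → Option J)).symm g]
  refine sum_congr rfl fun i _ => ?_
  simp only [dif_pos i.2]

/-- **MQ2.** The main term, from below.

Proof. `EM k q Φ` is a sum over a finite space, so it is of the form `∑ n ∈ range M, ν n * Φ (ξ n)` with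
`M = Fintype.card (S → Option (Fin (2 ^ k)))`, `ξ n` the `n`-th function (`Fintype.equivFin`, any value for
`n ≥ M`) and `ν n = ∏ t, pm (q t) (ξ n t)`. This space satisfies `Cnt (range M) ν ξ (fun t => rd (some i) (q t) (1 / q t)) 1 0 _`
with error `0` for ALL conditions `T`: `∑ x, (∏ t, pm (q t) (x t)) * (if Sub T x then 1 else 0) =
∏ t, ∑ v, pm (q t) v * (if T t = none ∨ T t = v then 1 else 0) = ∏ t, rr (fun _ => 1 / q t) (T t)` (`sum_prod` in
`Pool/Graph/R_seed8/R498/MT/Prod.lean`), and `rd (some i) (q t) (1 / q t) j = 1 / q t` for every `j`.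
Now apply `S2_fin` (file `Param2.lean`) with `γ t = 1 / q t`, `X = X₀ = 1`, `V = c₀ * ε₁`, `E = 0`. -/
theorem model_low (k : ℕ) (C₁ R c₀ τ : ℝ) (hC : 0 ≤ C₁) (hR : 0 < R) (hc₀ : 0 < c₀) (m : ℕ)
    (hτ : τ ≤ 1) (hk : 3 * ((m : ℝ) + 1) * 1474560 ≤ c₀ * R * k) (ε₁ : ℝ) (hε : 0 < ε₁)
    (hε1 : ε₁ ≤ e0 k C₁ R) (w : ℝ) (q μ l : S → ℝ) (hd : Dat q μ l ε₁ R w (om k C₁ ε₁))
    (i : Fin (2 ^ k)) (cL : Finset S → ℝ) (hcL : ∀ T, |cL T| ≤ C₁)
    (hcT : ∀ T, cL T ≠ 0 → lz l T ≤ τ) (hγμ : ∀ t, 1 / q t ≤ μ t)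
    (hV : c₀ * ε₁ ≤ ∑ T, cL T * ∏ t ∈ T, 1 / q t) :
    2 * ((m : ℝ) + 1) / 2 ^ k * If μ l R k ≤ EM k q (Ph k q μ l R i cL) := by
  obtain ⟨M, ξ, hξ⟩ := enum_exists (S := S) (Fin (2 ^ k))
  have hq0 : ∀ t, 0 ≤ 1 / q t := by
    intro t
    have := hd.q2 t
    positivity
  have hrd : ∀ T : S → Option (Fin (2 ^ k)),
      ∏ t, rr (rd (some i) (q t) (1 / q t)) (T t) =
        ∏ t, rr (fun _ : Fin (2 ^ k) => 1 / q t) (T t) := by
    intro T
    refine prod_congr rfl fun t _ => ?_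
    rcases T t with _ | j
    · rfl
    · simp only [rr, rd]
      split_ifs <;> rfl
  have hcnt : Cnt (range M) (fun n => ∏ t, pm (q t) (ξ n t)) ξ
      (fun t => rd (some i) (q t) (1 / q t)) 1 0 (fun T => lt l T ≤ 2 * R + τ) := by
    intro T _
    have h1 : ∑ n ∈ range M, (∏ t, pm (q t) (ξ n t)) * (if Sub T (ξ n) then (1 : ℝ) else 0) =
        ∏ t, rr (fun _ : Fin (2 ^ k) => 1 / q t) (T t) := by
      rw [hξ (fun x => (∏ t, pm (q t) (x t)) * (if Sub T x then (1 : ℝ) else 0))]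
      exact pm_glob q T
    rw [h1]
    simp only [hrd]
    simp
  have h := S2_fin k C₁ R c₀ τ hC hR hc₀ m hτ hk ε₁ hε hε1 w q μ l hd i (fun t => 1 / q t) hq0 hγμ
    cL hcL hcT (N := range M) (ν := fun n => ∏ t, pm (q t) (ξ n t)) (ξ := ξ) (X := 1) (X₀ := 1)
    (V := c₀ * ε₁) (E := 0) zero_le_one le_rfl hV (by linarith) le_rfl (by positivity) hcnt
  rw [one_mul] at h
  refine h.trans (le_of_eq ?_)
  rw [hξ (fun x => (∏ t, pm (q t) (x t)) * (Lam (some i) q μ (yf l R k) x ^ 2 *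
    ∑ T, cL T * (if ∀ t ∈ T, x t = some i then 1 else 0)))]
  rfl

end

end Pool.Agent.H543.MQ
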