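import Pool.Agent.H543.MQ.Def

/-!
# The second moment of the weight which does not see a slot
-/

set_option autoImplicit false
set_option linter.unusedSectionVars false

namespace Pool.Agent.H543.MQ

open Finset
open Pool.Agent.R498.MT

theorem ex_pm {J : Type} [Fintype J] (q : ℝ) (φ : Option J → ℝ) :
    ∑ a, pm q a * φ a = Ex (fun _ : J => 1 / q) φ := by
  rw [Fintype.sum_option]
  unfold Ex
  simp only [pm]
  rw [← mul_sum, ← sum_mul, sum_sub_distrib, sum_const, card_univ, nsmul_eq_mul]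
  ring

theorem rd_const {J : Type} [Fintype J] [DecidableEq J] (i : Option J) (q : ℝ) :
    rd i q (1 / q) = fun _ : J => 1 / q := by
  funext j
  unfold rd
  split_ifs <;> rfl

theorem HH_le {J : Type} [Fintype J] [DecidableEq J] (i : Option J) (q : ℝ) (hq : 2 ≤ q)
    (a b : Option J) : |HH i q false a b| ≤ NM q false a b := by
  simp only [HH, NM, Bool.false_eq_true, if_false]
  rcases a with _ | j
  · rcases b with _ | k
    · simp [GG, NN]
    · simp only [GG, NN]
      split_ifs <;> norm_num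
  · rcases b with _ | k
    · simp only [GG, NN]
      split_ifs <;> norm_num
    · simp only [GG, NN]
      by_cases hj : i = some j
      · by_cases hk : i = some k
        · have hjk : j = k := Option.some.inj (hj.symm.trans hk)
          rw [if_pos hj, if_pos hk, if_pos hjk, abs_one]
          linarith
        · rw [if_pos hj, if_neg hk, abs_zero]
          split_ifs <;> linarith
      · by_cases hk : i = some k
        · rw [if_neg hj, if_pos hk, abs_zero]
          split_ifs <;> linarith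
        · rw [if_neg hj, if_neg hk]
          by_cases hjk : j = k
          · rw [if_pos hjk, if_pos hjk, abs_of_nonneg (by linarith)]
          · rw [if_neg hjk, if_neg hjk]
            norm_num

section
variable {S : Type} [Fintype S] [DecidableEq S]

/-- the expectation of the square -/
theorem EM_sq (k : ℕ) (q μ : S → ℝ) (hq : ∀ t, 2 ≤ q t) (y : (S → Option (Fin (2 ^ k))) → ℝ)
    (i : Option (Fin (2 ^ k))) :
    EM k q (fun x => Lam i q μ y x ^ 2) =
      ∑ σ, ∑ τ, cw μ y σ * cw μ y τ * ∏ t, HH i (q t) false (σ t) (τ t) := by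
  unfold EM
  have h1 : ∀ x : S → Option (Fin (2 ^ k)), (∏ t, pm (q t) (x t)) * Lam i q μ y x ^ 2 =
      ∑ σ, ∑ τ, cw μ y σ * cw μ y τ *
        ∏ t, (pm (q t) (x t) * lc2 i (q t) false (σ t) (τ t) (x t)) := by
    intro x
    unfold Lam
    rw [sq, sum_mul_sum, mul_sum]
    refine sum_congr rfl fun σ _ => ?_
    rw [mul_sum]
    refine sum_congr rfl fun τ _ => ?_
    unfold lc2
    simp only [Bool.false_eq_true, if_false, mul_one]
    rw [prod_mul_distrib, prod_mul_distrib]
    ring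
  rw [sum_congr rfl fun x _ => h1 x, sum_comm]
  refine sum_congr rfl fun σ _ => ?_
  rw [sum_comm]
  refine sum_congr rfl fun τ _ => ?_
  rw [← mul_sum, sum_prod (fun t a => pm (q t) a * lc2 i (q t) false (σ t) (τ t) a)]
  congr 1
  refine prod_congr rfl fun t _ => ?_
  have h2 := Ex_HH i (q t) (1 / q t) (hq t) false (fun h => absurd h (by simp)) (σ t) (τ t)
  rw [rd_const] at h2
  rw [ex_pm, h2]
  simp

theorem M_bd (k : ℕ) (q μ : S → ℝ) (hq : ∀ t, 2 ≤ q t) (hμ0 : ∀ t, 0 ≤ μ t)
    (hμ1 : ∀ t, μ t ≤ 1) (hmq : ∀ t, μ t * (q t - 1) ≤ 1) (y : (S → Option (Fin (2 ^ k))) → ℝ)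
    (hy : ∀ σ, |y σ| ≤ 1) (i : Option (Fin (2 ^ k))) :
    ∑ σ, ∑ τ, cw μ y σ * cw μ y τ * ∏ t, HH i (q t) false (σ t) (τ t) ≤
      AA (Fin (2 ^ k)) μ := by
  haveI : Nonempty (Fin (2 ^ k)) := ⟨⟨0, by positivity⟩⟩
  have hcw : ∀ σ, |cw μ y σ| ≤ ∏ t, |cf (μ t) (σ t)| := by
    intro σ
    unfold cw
    rw [abs_mul, abs_prod]
    have p1 : 0 ≤ ∏ t, |cf (μ t) (σ t)| := prod_nonneg fun _ _ => abs_nonneg _
    calc (∏ t, |cf (μ t) (σ t)|) * |y σ| ≤ (∏ t, |cf (μ t) (σ t)|) * 1 :=
          mul_le_mul_of_nonneg_left (hy σ) p1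
      _ = _ := mul_one _
  calc ∑ σ, ∑ τ, cw μ y σ * cw μ y τ * ∏ t, HH i (q t) false (σ t) (τ t)
      ≤ ∑ σ : S → Option (Fin (2 ^ k)), ∑ τ : S → Option (Fin (2 ^ k)),
        ∏ t, (|cf (μ t) (σ t)| * |cf (μ t) (τ t)| * NM (q t) false (σ t) (τ t)) := by
        refine sum_le_sum fun σ _ => sum_le_sum fun τ _ => ?_
        refine (le_abs_self _).trans ?_
        rw [abs_mul, abs_mul, abs_prod, prod_mul_distrib, prod_mul_distrib]
        have p1 : 0 ≤ ∏ t, |cf (μ t) (σ t)| := prod_nonneg fun _ _ => abs_nonneg _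
        have p2 : 0 ≤ ∏ t, |cf (μ t) (τ t)| := prod_nonneg fun _ _ => abs_nonneg _
        apply mul_le_mul
        · exact mul_le_mul (hcw σ) (hcw τ) (abs_nonneg _) p1
        · exact prod_le_prod (fun t _ => abs_nonneg _) fun t _ => HH_le i (q t) (hq t) _ _
        · exact prod_nonneg fun _ _ => abs_nonneg _
        · exact mul_nonneg p1 p2
    _ = ∏ t, ∑ a : Option (Fin (2 ^ k)), ∑ b : Option (Fin (2 ^ k)),
        |cf (μ t) a| * |cf (μ t) b| * NM (q t) false a b :=
        sum_prod2 (fun t a b => |cf (μ t) a| * |cf (μ t) b| * NM (q t) false a b)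
    _ ≤ AA (Fin (2 ^ k)) μ := by
        apply prod_le_prod
        · intro t _
          exact sum_nonneg fun a _ => sum_nonneg fun b _ =>
            mul_nonneg (mul_nonneg (abs_nonneg _) (abs_nonneg _))
              ((abs_nonneg _).trans (HH_le i (q t) (hq t) a b))
        · intro t _
          exact norm_bd (q t) (μ t) (hq t) (hμ0 t) (hμ1 t) (hmq t) false

end

section
variable {S : Type} [Fintype S] [DecidableEq S]

/-- **MQ3.** The second moment of `Lam (some i)`: (1) real sums against the expectation over independent colours,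
(2) the expectation is at most `AA`.

Proof. Write `L2 x = Lam (some i) q μ (yf l R k) x ^ 2`. The expectation is a sum over a finite space:
`EM k q Φ = ∑ n ∈ range M, ν' n * Φ (ξ' n)` (enumerate `S → Option (Fin (2 ^ k))` by `Fintype.equivFin`), and this space
satisfies `Cnt (range M) ν' ξ' (fun t => rd (some i) (q t) (1 / q t)) 1 0 (fun _ => True)` (error `0`, all conditions).
Both claims follow from `quad_real` (file `Pool/Graph/R_seed8/R498/MT/Quad.lean`) with `T = ∅`, `γ t = 1 / q t`: it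
says that both sums are `X * M` with the SAME `M = ∑ σ, ∑ τ, cw σ * cw τ * ∏ t, HH (some i) (q t) false (σ t) (τ t)`, with
error `E * X * ∏ t, ∑ a, ∑ b, |cf (μ t) a| * |cf (μ t) b| * NM (q t) false a b` for the real sum and error `0` for the
expectation; the product is at most `AA (Fin (2 ^ k)) μ` (see `norm_bd` in `Err.lean` and how `one_target` uses it). The hypothesis `hG` of
`quad_real` is proved as in `S1_fin`/`one_T` in `Param2.lean` (`good_of` with `T = ∅`, `yf_facts`).
For (2): `|∏ t, HH (some i) (q t) false (σ t) (τ t)| = ∏ |GG| ≤ ∏ NM (q t) false (σ t) (τ t)` (check: `|GG i q a b| ≤ NN q a b`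
for `q ≥ 2`), so `EM = M ≤ ∏ t, ∑ a, ∑ b, |cf (μ t) a| * |cf (μ t) b| * NM (q t) false a b ≤ AA`. -/
theorem model_sq (k : ℕ) (q μ l : S → ℝ) (hq : ∀ t, 2 ≤ q t) (hμ0 : ∀ t, 0 ≤ μ t)
    (hμ1 : ∀ t, μ t ≤ 1) (hmq : ∀ t, μ t * (q t - 1) ≤ 1) (hl : ∀ t, 0 ≤ l t) (R : ℝ) (hR : 0 < R)
    (i : Fin (2 ^ k)) {N : Finset ℕ} {ν : ℕ → ℝ} {ξ : ℕ → S → Option (Fin (2 ^ k))} {X E : ℝ}
    (hX : 0 ≤ X) (hE : 0 ≤ E)
    (hC : Cnt N ν ξ (fun t _ => 1 / q t) X E (fun T => lt l T ≤ 2 * R)) :
    |∑ n ∈ N, ν n * Lam (some i) q μ (yf l R k) (ξ n) ^ 2 -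
      X * EM k q (fun x => Lam (some i) q μ (yf l R k) x ^ 2)| ≤ E * X * AA (Fin (2 ^ k)) μ ∧
    EM k q (fun x => Lam (some i) q μ (yf l R k) x ^ 2) ≤ AA (Fin (2 ^ k)) μ := by
  have hy : ∀ σ, |yf l R k σ| ≤ 1 := fun σ => by
    have := yf_facts l hl R hR k σ
    rw [abs_of_nonneg this.1]
    exact this.2.1
  haveI : Nonempty (Fin (2 ^ k)) := ⟨⟨0, by positivity⟩⟩
  rw [EM_sq k q μ hq (yf l R k) (some i)]
  refine ⟨?_, M_bd k q μ hq hμ0 hμ1 hmq (yf l R k) hy (some i)⟩
  have h1 := quad_real (J := Fin (2 ^ k)) (N := N) (ν := ν) (ξ := ξ) (X := X) (E := E)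
    (Good := fun T => lt l T ≤ 2 * R) (some i) q (fun t => 1 / q t) μ hq
    (fun t => by have := hq t; positivity) (yf l R k) hy hX hE ∅
    (fun t ht => absurd ht (notMem_empty t))
    (by
      have e : (fun t => rd (some i) (q t) (1 / q t)) = fun t (_ : Fin (2 ^ k)) => 1 / q t := by
        funext t
        exact rd_const (some i) (q t)
      rw [e]
      exact hC)
    (by
      intro σ τ hσ hτ U hU
      have h2 := good_of (some i) q l hl ∅ σ τ U hU
      have h3 := (yf_facts l hl R hR k σ).2.2 hσ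
      have h4 := (yf_facts l hl R hR k τ).2.2 hτ
      have h5 : lz l ∅ = 0 := by simp [lz]
      show lt l U ≤ 2 * R
      linarith)
  simp only [notMem_empty, false_imp_iff, implies_true, if_true, mul_one, prod_empty,
    decide_false] at h1
  refine h1.trans (mul_le_mul_of_nonneg_left ?_ (mul_nonneg hE hX))
  apply prod_le_prod
  · intro t _
    exact sum_nonneg fun a _ => sum_nonneg fun b _ =>
      mul_nonneg (mul_nonneg (abs_nonneg _) (abs_nonneg _))
        ((abs_nonneg _).trans (HH_le (some i) (q t) (hq t) a b))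
  · intro t _
    exact norm_bd (q t) (μ t) (hq t) (hμ0 t) (hμ1 t) (hmq t) false

end

end Pool.Agent.H543.MQ
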