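import Pool.Agent.H543.MQ.Fn
import Pool.Agent.H543.MQ.Mod
import Pool.Agent.H543.MQ.Msq

/-!
# Assembly of the two sums
-/

set_option autoImplicit false
set_option linter.unusedSectionVars false

namespace Pool.Agent.H543.MQ

open Finset
open Pool.Agent.R498.MT

section
variable {S : Type} [Fintype S] [DecidableEq S]

lemma Ph_empty (k : ℕ) (q μ l : S → ℝ) (R : ℝ) (i : Fin (2 ^ k)) (x : S → Option (Fin (2 ^ k))) :
    Ph k q μ l R i (fun T => if T = ∅ then 1 else 0) x = Lam (some i) q μ (yf l R k) x ^ 2 := by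
  unfold Ph
  have h : ∑ T : Finset S, (if T = ∅ then (1 : ℝ) else 0) *
      (if ∀ t ∈ T, x t = some i then 1 else 0) = 1 := by
    rw [Finset.sum_eq_single ∅]
    · simp
    · intro T _ hT
      rw [if_neg hT, zero_mul]
    · intro h
      exact absurd (mem_univ _) h
  rw [h, mul_one]

lemma EM_empty (k : ℕ) (q μ l : S → ℝ) (R : ℝ) (i : Fin (2 ^ k)) :
    EM k q (Ph k q μ l R i (fun T => if T = ∅ then 1 else 0)) =
      EM k q (fun x => Lam (some i) q μ (yf l R k) x ^ 2) := by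
  unfold EM
  refine sum_congr rfl fun x _ => ?_
  rw [Ph_empty]

/-- **MQ4.** The weighted count of the arguments with many good slots is large; the sieve `cL` at one
slot has a remainder only on average (`Rem`).

Proof (compare `asm` in `Pool/Graph/R_seed8/R498/MT/Asm.lean`). Use the sorried statements `fun_bd` (file `Fn`),
`model_low` (file `Mod`), `model_sq` (file `Msq`). Write `L_i n = Lam (some i) q μ (yf l R k) (ξ n) ^ 2`,
`s_i n = ∑ T, cL T * (if ∀ t ∈ T, ξ n t = some i then 1 else 0)`, `M2 = EM k q (fun x => Lam (some i) ... x ^ 2)`,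
`A = AA (Fin (2 ^ k)) μ ≤ Ab k ε₁` (`AA_Ab`, as in `S1_fin`), `P = (∏ t, (1 + 2 ^ k * μ t)) ^ 2 * (Bq * B) ≤ X / (8 * 2 ^ k)`,
`I = If μ l R k ≥ 1` (`I2_one`).
(a) `∑ ν n * Lam none ... ^ 2 ≤ 2 * X * I` by `S1_fin`.
(b) For each slot `i` pointwise `Lam none ... ^ 2 * wb n i ≥ L_i n * s_i n`: if `wb n i ≠ 0` then `Lam none = Lam (some i)` by
`Lam_slot` and `hw0` (as in `asm`), and `s_i n ≤ wb n i`; if `wb n i = 0` then `s_i n ≤ 0`.
(c) `ν n * L_i n * s_i n ≥ ν n * L_i n - θ n * L_i n * (1 - s_i n)` because `0 ≤ 1 - s_i n` (`s_i n ≤ wb n i ≤ 1`), `0 ≤ L_i n`,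
`ν n ≤ θ n`.
(d) `∑ ν L_i ≥ X * M2 - E * X * A` (`model_sq`). `∑ θ L_i ≤ X' * M2 + P`: `fun_bd` with `cL = (fun T => if T = ∅ then 1 else 0)`
(`hR0`), for which `Ph k q μ l R i _ x = Lam (some i) ... x ^ 2`. `∑ θ L_i s_i ≥ X' * EM (Ph ... cL) - P` (`fun_bd`, `hR1`) and
`EM (Ph ... cL) ≥ 2 * (m + 1) / 2 ^ k * I` (`model_low`), `X' ≥ X`.
(e) Since `0 ≤ X' - X ≤ E * X` and `M2 ≤ A`, `0 ≤ A`: `(X - X') * M2 ≥ - E * X * A`. So each slot gives at least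
`2 * (m + 1) / 2 ^ k * (X * I) - 2 * E * X * A - 2 * P`, with `2 * E * A ≤ 1 / (2 * 2 ^ k)` (from `Ab_E`: `(1 + C₁) * Ab k ε₁ ^ 2 * E ≤
1 / (4 * 2 ^ k)`, `1 ≤ Ab`) and `2 * P ≤ X / (4 * 2 ^ k)`; together at least `(2 * (m + 1) - 1) / 2 ^ k * (X * I)`. The sum over the `2 ^ k`
slots minus `m * (a)` is at least `(2 * m + 1) * X * I - 2 * m * X * I = X * I`. -/
theorem asm2 (k : ℕ) (C₁ R c₀ τ : ℝ) (hC : 0 ≤ C₁) (hR : 0 < R) (hc₀ : 0 < c₀) (m : ℕ)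
    (hτ : τ ≤ 1) (hk : 3 * ((m : ℝ) + 1) * 1474560 ≤ c₀ * R * k) (ε₁ : ℝ) (hε : 0 < ε₁)
    (hε1 : ε₁ ≤ e0 k C₁ R) (w : ℝ) (q μ l : S → ℝ) (hd : Dat q μ l ε₁ R w (om k C₁ ε₁))
    (hγμ : ∀ t, 1 / q t ≤ μ t) (cL : Finset S → ℝ) (hcL : ∀ T, |cL T| ≤ C₁)
    (hcT : ∀ T, cL T ≠ 0 → lz l T ≤ τ) (hV : c₀ * ε₁ ≤ ∑ T, cL T * ∏ t ∈ T, 1 / q t)
    {N : Finset ℕ} {ν θ : ℕ → ℝ} {ξ : ℕ → S → Option (Fin (2 ^ k))} {X X' E B Bq : ℝ}
    (hX : 0 ≤ X) (hXX : X ≤ X') (hXX' : X' ≤ (1 + E) * X) (hE : 0 ≤ E)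
    (hE1 : E ≤ ε₁ ^ (16 * (2 ^ k) ^ 2 + 1))
    (hC1 : Cnt N ν ξ (fun t _ => 1 / q t) X E (fun T => lt l T ≤ 2 * R))
    (hν : ∀ n ∈ N, 0 ≤ ν n) (hνθ : ∀ n ∈ N, ν n ≤ θ n) (hB : 0 ≤ B)
    (hBq : ∀ U : Finset S, lz l U ≤ 2 * R → ∏ t ∈ U, (1 + 2 ^ k * q t ^ 2) ≤ Bq)
    (hR1 : ∀ i, Rem k q l R i cL N θ ξ X' B)
    (hR0 : ∀ i, Rem k q l R i (fun T => if T = ∅ then 1 else 0) N θ ξ X' B)
    (hBX : (∏ t, (1 + 2 ^ k * μ t)) ^ 2 * (Bq * B) ≤ X / (8 * 2 ^ k))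
    (wb : ℕ → Fin (2 ^ k) → ℝ)
    (hwb : ∀ n ∈ N, ∀ i, ∑ T, cL T * (if ∀ t ∈ T, ξ n t = some i then 1 else 0) ≤ wb n i)
    (hwb1 : ∀ n ∈ N, ∀ i, wb n i ≤ 1)
    (hw0 : ∀ n ∈ N, ∀ i, wb n i ≠ 0 → ∀ t, ξ n t = some i → R < l t) :
    X * If μ l R k ≤ ∑ n ∈ N, ν n * (Lam none q μ (yf l R k) (ξ n) ^ 2 * (∑ i, wb n i - m)) := by
  have hl0 : ∀ t, 0 ≤ l t := fun t => hε.le.trans (hd.l1 t)
  have hε11 : ε₁ ≤ 1 := hε1.trans (e0_le k C₁ R).2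
  have hu0 := u0_pos R hR k
  have hεw : ε₁ ≤ w := by
    have h1 := (e0_le k C₁ R).1
    have h2 := u0_le R hR k
    have h3 : (1 : ℝ) ≤ 2 ^ k := one_le_pow₀ (by norm_num)
    have h4 := hd.Rw
    nlinarith
  have hmq : ∀ t, μ t * (q t - 1) ≤ 1 := by
    intro t
    rcases hd.mq t with h | h
    · rw [h]; norm_num
    · exact h.le
  have hA1 := Ab_one k ε₁ hε hε11
  have hAA := AA_Ab hd hε hεw k
  have hEb := Ab_E k C₁ R ε₁ E hC hε hε1 hE1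
  have hI21 : 1 ≤ ∑ a, ms μ a * Gf l R k a ^ 2 := I2_one hd hε hR k
  have hI1 : 1 ≤ If μ l R k := one_le_pow₀ hI21
  have hA0 : 0 ≤ AA (Fin (2 ^ k)) μ := by
    unfold AA
    exact prod_nonneg fun t _ => by
      have := hd.m0 t
      positivity
  have hp2 : (0 : ℝ) < 2 ^ k := by positivity
  have h1 := S1_fin k C₁ R hC hR ε₁ hε hε1 w q μ l hd hX hE hE1 hC1
  -- numerical bounds
  have hEA : E * X * AA (Fin (2 ^ k)) μ ≤ X / (4 * 2 ^ k) := by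
    have e1 : E * AA (Fin (2 ^ k)) μ ≤ 1 / (4 * 2 ^ k) := by
      refine le_trans ?_ hEb
      have e2 : E * AA (Fin (2 ^ k)) μ ≤ E * Ab k ε₁ := mul_le_mul_of_nonneg_left hAA hE
      have e3 : Ab k ε₁ ≤ Ab k ε₁ ^ 2 := by nlinarith
      have e4 : E * Ab k ε₁ ≤ E * Ab k ε₁ ^ 2 := mul_le_mul_of_nonneg_left e3 hE
      have e5 : 0 ≤ C₁ * (E * Ab k ε₁ ^ 2) := by positivity
      nlinarith
    calc E * X * AA (Fin (2 ^ k)) μ = X * (E * AA (Fin (2 ^ k)) μ) := by ring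
      _ ≤ X * (1 / (4 * 2 ^ k)) := mul_le_mul_of_nonneg_left e1 hX
      _ = X / (4 * 2 ^ k) := by ring
  have h2 : ∀ i : Fin (2 ^ k), (2 * ((m : ℝ) + 1) - 1) / 2 ^ k * (X * If μ l R k) ≤
      ∑ n ∈ N, ν n * (Lam none q μ (yf l R k) (ξ n) ^ 2 * wb n i) := by
    intro i
    obtain ⟨m1, m2⟩ := model_sq k q μ l hd.q2 hd.m0 hd.m1 hmq hl0 R hR i hX hE hC1
    have f0 := fun_bd k q μ l hd.q2 hd.m0 hl0 R hR i (fun T => if T = ∅ then 1 else 0) N θ ξ X' B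
      Bq hB hBq (hR0 i)
    have f1 := fun_bd k q μ l hd.q2 hd.m0 hl0 R hR i cL N θ ξ X' B Bq hB hBq (hR1 i)
    rw [EM_empty] at f0
    have f00 : ∑ n ∈ N, θ n * Ph k q μ l R i (fun T => if T = ∅ then 1 else 0) (ξ n) =
        ∑ n ∈ N, θ n * Lam (some i) q μ (yf l R k) (ξ n) ^ 2 :=
      sum_congr rfl fun n _ => by rw [Ph_empty]
    rw [f00] at f0
    have g := model_low k C₁ R c₀ τ hC hR hc₀ m hτ hk ε₁ hε hε1 w q μ l hd i cL hcL hcT hγμ hV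
    set M2 : ℝ := EM k q (fun x => Lam (some i) q μ (yf l R k) x ^ 2) with hM2
    set G : ℝ := EM k q (Ph k q μ l R i cL) with hG
    set P : ℝ := (∏ t, (1 + 2 ^ k * μ t)) ^ 2 * (Bq * B) with hP
    have k1 := (abs_le.1 m1).1
    have k2 := (abs_le.1 f0).2
    have k3 := (abs_le.1 f1).1
    -- the pointwise inequality
    have pt : ∑ n ∈ N, (ν n * Lam (some i) q μ (yf l R k) (ξ n) ^ 2 -
        θ n * Lam (some i) q μ (yf l R k) (ξ n) ^ 2 + θ n * Ph k q μ l R i cL (ξ n)) ≤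
        ∑ n ∈ N, ν n * (Lam none q μ (yf l R k) (ξ n) ^ 2 * wb n i) := by
      refine sum_le_sum fun n hn => ?_
      have s1 := hwb n hn i
      have s2 := hwb1 n hn i
      have s3 : 0 ≤ Lam (some i) q μ (yf l R k) (ξ n) ^ 2 := sq_nonneg _
      have s4 := hν n hn
      have s5 := hνθ n hn
      unfold Ph
      set s : ℝ := ∑ T, cL T * (if ∀ t ∈ T, ξ n t = some i then 1 else 0) with hs
      set L : ℝ := Lam (some i) q μ (yf l R k) (ξ n) ^ 2 with hL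
      have t1 : ν n * (L * s) ≤ ν n * (Lam none q μ (yf l R k) (ξ n) ^ 2 * wb n i) := by
        apply mul_le_mul_of_nonneg_left _ s4
        by_cases hw : wb n i = 0
        · rw [hw, mul_zero]
          rw [hw] at s1
          exact mul_nonpos_of_nonneg_of_nonpos s3 s1
        · rw [Lam_slot q μ l R (yf l R k) (fun σ hσ => (yf_facts l hl0 R hR k σ).2.2 hσ) hl0 i
            (ξ n) (hw0 n hn i hw)]
          exact mul_le_mul_of_nonneg_left s1 s3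
      have t2 : 0 ≤ (θ n - ν n) * (L * (1 - s)) :=
        mul_nonneg (by linarith) (mul_nonneg s3 (by linarith))
      nlinarith
    rw [sum_add_distrib, sum_sub_distrib] at pt
    have k4 : (X' - X) * M2 ≤ E * X * AA (Fin (2 ^ k)) μ := by
      calc (X' - X) * M2 ≤ (X' - X) * AA (Fin (2 ^ k)) μ :=
            mul_le_mul_of_nonneg_left m2 (by linarith)
        _ ≤ (E * X) * AA (Fin (2 ^ k)) μ := mul_le_mul_of_nonneg_right (by linarith) hA0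
    have hG0 : 0 ≤ G := by
      refine le_trans ?_ g
      have : 0 ≤ If μ l R k := by linarith
      positivity
    have k5 : X * (2 * ((m : ℝ) + 1) / 2 ^ k * If μ l R k) ≤ X' * G := by
      calc X * (2 * ((m : ℝ) + 1) / 2 ^ k * If μ l R k) ≤ X * G := mul_le_mul_of_nonneg_left g hX
        _ ≤ X' * G := mul_le_mul_of_nonneg_right hXX hG0
    have k6 : X / 2 ^ k ≤ X / 2 ^ k * If μ l R k := by
      have : 0 ≤ X / 2 ^ k := by positivity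
      nlinarith
    have e1 : (2 * ((m : ℝ) + 1) - 1) / 2 ^ k * (X * If μ l R k) =
        X * (2 * ((m : ℝ) + 1) / 2 ^ k * If μ l R k) - X / 2 ^ k * If μ l R k := by ring
    have e2 : X / (4 * 2 ^ k) = 1 / 4 * (X / 2 ^ k) := by
      field_simp
    have e3 : X / (8 * 2 ^ k) = 1 / 8 * (X / 2 ^ k) := by
      field_simp
    have e4 : 0 ≤ X / 2 ^ k := by positivity
    rw [e2] at hEA
    rw [e3] at hBX
    rw [e1]
    linarith
  have h3 := sum_le_sum (s := (univ : Finset (Fin (2 ^ k)))) fun i _ => h2 i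
  rw [sum_const, card_univ, Fintype.card_fin, nsmul_eq_mul] at h3
  have h4 : ∑ i : Fin (2 ^ k), ∑ n ∈ N, ν n * (Lam none q μ (yf l R k) (ξ n) ^ 2 * wb n i) =
      ∑ n ∈ N, ν n * (Lam none q μ (yf l R k) (ξ n) ^ 2 * ∑ i, wb n i) := by
    rw [sum_comm]
    refine sum_congr rfl fun n _ => ?_
    rw [mul_sum, mul_sum]
  rw [h4] at h3
  have h5 : ((2 ^ k : ℕ) : ℝ) * ((2 * ((m : ℝ) + 1) - 1) / 2 ^ k * (X * If μ l R k)) =
      (2 * ((m : ℝ) + 1) - 1) * (X * If μ l R k) := by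
    push_cast
    have : (2 : ℝ) ^ k ≠ 0 := by positivity
    field_simp
  rw [h5] at h3
  have h6 : ∑ n ∈ N, ν n * (Lam none q μ (yf l R k) (ξ n) ^ 2 * (∑ i, wb n i - m)) =
      ∑ n ∈ N, ν n * (Lam none q μ (yf l R k) (ξ n) ^ 2 * ∑ i, wb n i) -
        m * ∑ n ∈ N, ν n * Lam none q μ (yf l R k) (ξ n) ^ 2 := by
    rw [mul_sum, ← sum_sub_distrib]
    refine sum_congr rfl fun n _ => ?_
    ring
  rw [h6]
  have h7 := mul_le_mul_of_nonneg_left h1 (Nat.cast_nonneg (α := ℝ) m)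
  linarith

end

end Pool.Agent.H543.MQ
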