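import Pool.Agent.H543.DP.Qd
import Pool.Graph.R_seed8.R498.MT.QGen
import Pool.Agent.H543.DP.Si

/-!
# From the variable `n` to the variable `K`
-/

set_option autoImplicit false

namespace Pool.Agent.H543.MQ

open Finset Filter
open Pool.Agent.W23.DC
open Pool.Agent.Y882
open Pool.Agent.Y882.KW
open Pool.Agent.H543.DG hiding rep_sum
open Pool.Agent.H543.DD
open Pool.Agent.H543.DP
open Pool.Agent.R498.MT hiding gd
open Pool.Agent.Y677.RSZ (rt)

/-- the bijection `K ↦ W * (K + ti) + b` -/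
theorem b1k_card (A : ℕ) (B C : ℤ) (W b M L ti D c : ℕ) (hW : 1 ≤ W) (T : Finset ℕ)
    (hT : ∀ p ∈ T, p.Prime) :
    cF A B C (W * (M + ti) + b) (W * L) (W * D) ((W * (c + ti) + b : ℕ) : ℤ) (∏ p ∈ T, p) =
      (((Ioc M (M + L)).filter (fun K => K % D = c % D ∧
        ∀ p ∈ T, (p : ℤ) ∣ fv A B C ((W * (K + ti) + b : ℕ) : ℤ))).card : ℝ) := by
  unfold cF NS
  rw [filter_filter, Nat.cast_inj]
  symm
  apply card_bij (fun K _ => W * (K + ti) + b)
  · intro K hK
    rw [mem_filter, mem_Ioc] at hK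
    obtain ⟨⟨h1, h2⟩, h3, h4⟩ := hK
    rw [mem_filter, mem_Ioc]
    refine ⟨⟨?_, ?_⟩, ?_, ?_⟩
    · have := Nat.mul_lt_mul_of_pos_left (show M + ti < K + ti by omega) (show 0 < W by omega)
      omega
    · have := Nat.mul_le_mul_left W (show K + ti ≤ M + ti + L by omega)
      rw [mul_add W (M + ti) L] at this
      omega
    · have h5 : (D : ℤ) ∣ (K : ℤ) - c := Nat.modEq_iff_dvd.1 (Nat.ModEq.symm h3)
      have h6 : ((W * (K + ti) + b : ℕ) : ℤ) - ((W * (c + ti) + b : ℕ) : ℤ) = W * ((K : ℤ) - c) := by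
        push_cast
        ring
      rw [h6]
      push_cast
      exact mul_dvd_mul_left _ h5
    · refine prod_primes_dvd _ (fun p hp => (hT p hp).prime) (fun p hp => ?_)
      rw [dvd_NV]
      exact h4 p hp
  · intro K _ K' _ hKK
    have h1 : W * (K + ti) = W * (K' + ti) := by
      have : W * (K + ti) + b = W * (K' + ti) + b := hKK
      omega
    have := Nat.eq_of_mul_eq_mul_left (show 0 < W by omega) h1
    omega
  · intro n hn
    rw [mem_filter, mem_Ioc] at hn
    obtain ⟨⟨h1, h2⟩, ⟨k, hk⟩, h4⟩ := hn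
    push_cast at hk
    have hWz : (0 : ℤ) < W := by exact_mod_cast (show 0 < W by omega)
    have hn : (n : ℤ) = W * (((c : ℤ) + D * k) + ti) + b := by linear_combination hk
    have h1' : (W : ℤ) * (M + ti) + b < n := by exact_mod_cast h1
    have h2' : (n : ℤ) ≤ W * (M + ti) + b + W * L := by exact_mod_cast h2
    have h5 : (M : ℤ) + ti < ((c : ℤ) + D * k) + ti := by
      refine lt_of_mul_lt_mul_left ?_ hWz.le
      linarith
    have h6 : ((c : ℤ) + D * k) + ti ≤ M + ti + L := by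
      refine le_of_mul_le_mul_left ?_ hWz
      linarith
    obtain ⟨K, hK⟩ := Int.eq_ofNat_of_zero_le (show 0 ≤ (c : ℤ) + D * k by
      have : (0 : ℤ) ≤ M := by positivity
      linarith)
    rw [hK] at hn h5 h6
    have hnK : n = W * (K + ti) + b := by exact_mod_cast hn
    refine ⟨K, ?_, hnK.symm⟩
    rw [mem_filter, mem_Ioc]
    refine ⟨⟨by omega, by omega⟩, ?_, ?_⟩
    · have h7 : (D : ℤ) ∣ (K : ℤ) - c := ⟨k, by rw [← hK]; ring⟩
      exact (Nat.modEq_iff_dvd.2 h7).symm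
    · intro p hp
      rw [← hnK, ← dvd_NV]
      exact (dvd_prod_of_mem (fun p => p) hp).trans h4

/-- the density at a prime -/
theorem b1k_gd (A : ℕ) (B C : ℤ) (p : ℕ) (hp : p.Prime) (hpA : ¬ p ∣ 2 * A) :
    gd (dt A B C) p = (rt (fv A B C) p : ℝ) / p := by
  rw [gd_ro, ← rt_ro]
  have h1 : dt A B C = -(B ^ 2 - 4 * (A : ℤ) * C) := by
    unfold dt
    ring
  have h2 := rt_QG (A : ℤ) B C p hp (by
    intro h
    apply hpA
    exact_mod_cast h)
  rw [h1, ← h2]
  have h3 : (fun n => (QG (A : ℤ) B C).eval n) = fv A B C := by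
    funext n
    rw [QG_eval]
    rfl
  rw [h3]

/-- the density of a product -/
theorem b1k_gdprod (a : ℤ) (T : Finset ℕ) (hT : ∀ p ∈ T, p.Prime) :
    gd a (∏ p ∈ T, p) = ∏ p ∈ T, gd a p := by
  have h := gq_prod a 1 T hT
  have h1 : ∀ d, gq a 1 d = gd a d := by
    intro d
    unfold gq
    rw [if_pos (Nat.coprime_one_right d)]
  rw [h1] at h
  rw [h]
  exact prod_congr rfl fun p _ => h1 p

open Classical in
/-- **MQ8.** The remainder sums over sets of sieving primes, `K` in a residue class, from those over `n = W * (K + ti) + b`.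

Proof. The map `K ↦ W * (K + ti) + b` is a bijection from `{K ∈ Ioc M (M + L) | K % D = c % D}` onto `NS (W * (M + ti) + b) (W * L) (W * D) (W * (c + ti) + b)`
(the `n` of the interval with `W * D ∣ n - (W * (c + ti) + b)`), so the count for `T` is `cF A B C (W * (M + ti) + b) (W * L) (W * D) (W * (c + ti) + b) (∏ s ∈ T, s)`
(`d ∣ NV` iff all primes `s ∈ T` divide `fv`, `dvd_NV`, squarefree product; cf. `prod_ind`). Use `h` with `q = W * D`, `r = W * (c + ti) + b`; `(W * L) / (W * D) = L / D`.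
The sum over `T : Finset (Pg ...)` is the part `T ⊆ Pg (fv A B C) (N ^ 2) ε₁ υ` of the sum over `(pr (N ^ 2) ε₁ υ).powerset` (`Finset.map` with
`Function.Embedding.subtype`, cf. `VV_restrict` in `Pool/Graph/R_seed8/R498/MT/Slot.lean`); the other `T` contain a prime `p` with `rt (fv A B C) p = 0`, for which the
count and `gd (dt A B C) (∏ p ∈ T, p)` vanish. For `p ∈ pr`, `p ∤ 2 * A` by `hbig`: `gd (dt A B C) p = rt (fv A B C) p / p` (`gd_ro` in `DP/Si.lean`, `rt_ro`, `rt_QG` in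
`R498/MT/Inst.lean`, `QGen.lean`: `QG A B C`, `QF (-(B ^ 2 - 4 * A * C))`, `dt A B C = 4 * A * C - B ^ 2`), and `gd a (∏ p ∈ T, p) = ∏ p ∈ T, gd a p` (`gd_mul`, `gd_one`;
compare `gq_prod` in `DP/Si.lean` with `Q = 1`); `1 / qs = rt / p` by definition. `Nat.Coprime (∏ p ∈ T, p) (W * D) ↔ ∀ p ∈ T, Nat.Coprime p D` because the primes of `T` do
not divide `W` (`hbig`). -/
theorem b1_k (A : ℕ) (B C : ℤ) (hA : 1 ≤ A) (hna : ¬ IsSquare (-(dt A B C)))
    (N W b M L ti : ℕ) (hW : 1 ≤ W) (ε₁ υ : ℝ) (hN : 2 ≤ N)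
    (hbig : ∀ p ∈ pr (N ^ 2) ε₁ υ, ¬ p ∣ 2 * A * W) (w : Finset ℕ → ℝ) (Bd : ℝ)
    (h : ∀ (q : ℕ) (r : ℤ), 1 ≤ q →
      |∑ T ∈ (pr (N ^ 2) ε₁ υ).powerset, w T * (if Nat.Coprime (∏ p ∈ T, p) q then
        cF A B C (W * (M + ti) + b) (W * L) q r (∏ p ∈ T, p) -
          ((W * L : ℕ) : ℝ) / q * gd (dt A B C) (∏ p ∈ T, p) else 0)| ≤ Bd) (D c : ℕ) (hD : 1 ≤ D) :
    |∑ T : Finset (Pg (fv A B C) (N ^ 2) ε₁ υ), w (T.map (Function.Embedding.subtype _)) *
      (if ∀ s ∈ T, Nat.Coprime (s : ℕ) D then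
      ((((Ioc M (M + L)).filter (fun K => K % D = c % D ∧
        ∀ s ∈ T, ((s : ℕ) : ℤ) ∣ fv A B C ((W * (K + ti) + b : ℕ) : ℤ))).card : ℝ) -
        (L : ℝ) / D * ∏ s ∈ T, 1 / qs (fv A B C) (N ^ 2) ε₁ υ s) else 0)| ≤ Bd := by
  classical
  have hpr : ∀ p ∈ pr (N ^ 2) ε₁ υ, p.Prime := by
    intro p hp
    unfold pr at hp
    rw [mem_filter] at hp
    exact hp.2.1
  have hh := h (W * D) ((W * (c + ti) + b : ℕ) : ℤ) (Nat.mul_pos (by omega) (by omega))
  refine le_trans (le_of_eq ?_) hh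
  congr 1
  have hsub : Pg (fv A B C) (N ^ 2) ε₁ υ ⊆ pr (N ^ 2) ε₁ υ := filter_subset _ _
  -- the densities
  have hgd : ∀ T ⊆ pr (N ^ 2) ε₁ υ, gd (dt A B C) (∏ p ∈ T, p) =
      ∏ p ∈ T, (rt (fv A B C) p : ℝ) / p := by
    intro T hT
    rw [b1k_gdprod _ T fun p hp => hpr p (hT hp)]
    refine prod_congr rfl fun p hp => ?_
    refine b1k_gd A B C p (hpr p (hT hp)) fun h1 => hbig p (hT hp) ?_
    exact h1.mul_right _
  -- the sets with a prime without a root do not contribute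
  have h1 : ∑ T ∈ (pr (N ^ 2) ε₁ υ).powerset, w T * (if Nat.Coprime (∏ p ∈ T, p) (W * D) then
        cF A B C (W * (M + ti) + b) (W * L) (W * D) ((W * (c + ti) + b : ℕ) : ℤ) (∏ p ∈ T, p) -
          ((W * L : ℕ) : ℝ) / ((W * D : ℕ) : ℝ) * gd (dt A B C) (∏ p ∈ T, p) else 0) =
      ∑ T ∈ (Pg (fv A B C) (N ^ 2) ε₁ υ).powerset, w T * (if Nat.Coprime (∏ p ∈ T, p) (W * D) then
        cF A B C (W * (M + ti) + b) (W * L) (W * D) ((W * (c + ti) + b : ℕ) : ℤ) (∏ p ∈ T, p) -
          ((W * L : ℕ) : ℝ) / ((W * D : ℕ) : ℝ) * gd (dt A B C) (∏ p ∈ T, p) else 0) := by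
    symm
    apply sum_subset (powerset_mono.2 hsub)
    intro T hT hT'
    rw [mem_powerset] at hT hT'
    obtain ⟨p, hp, hp'⟩ := not_subset.1 hT'
    have hrt : rt (fv A B C) p = 0 := by
      by_contra hne
      apply hp'
      unfold Pg
      rw [mem_filter]
      exact ⟨hT hp, hne⟩
    have e1 : gd (dt A B C) (∏ p ∈ T, p) = 0 := by
      rw [hgd T hT]
      refine prod_eq_zero hp ?_
      rw [hrt, Nat.cast_zero, zero_div]
    have hpp := hpr p (hT hp)
    have e2 : cF A B C (W * (M + ti) + b) (W * L) (W * D) ((W * (c + ti) + b : ℕ) : ℤ)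
        (∏ p ∈ T, p) = 0 := by
      unfold cF
      rw [Nat.cast_eq_zero, card_eq_zero, filter_eq_empty_iff]
      intro n _ hdv
      have h2 : (p : ℤ) ∣ fv A B C n := by
        rw [← dvd_NV]
        exact (dvd_prod_of_mem (fun p => p) hp).trans hdv
      have h3 : (p : ℤ) ∣ fv A B C ((n % p : ℕ) : ℤ) := by
        have h4 := fv_cls A B C n ((n % p : ℕ) : ℤ) p (by
          have : (n : ℤ) - ((n % p : ℕ) : ℤ) = p * ((n / p : ℕ) : ℤ) := by
            have := Nat.mod_add_div n p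
            have h5 : (((n % p + p * (n / p) : ℕ)) : ℤ) = n := by rw [this]
            push_cast at h5 ⊢
            linarith
          rw [this]
          exact dvd_mul_right _ _)
        exact (dvd_sub_right h2).1 h4
      have h6 : n % p ∈ (range p).filter (fun r : ℕ => (p : ℤ) ∣ fv A B C r) := by
        rw [mem_filter, mem_range]
        exact ⟨Nat.mod_lt _ hpp.pos, h3⟩
      have h7 : ((range p).filter (fun r : ℕ => (p : ℤ) ∣ fv A B C r)).card = 0 := hrt
      rw [card_eq_zero] at h7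
      rw [h7] at h6
      exact absurd h6 (notMem_empty _)
    rw [e1, e2]
    simp
  rw [h1]
  apply sum_nbij' (i := fun T : Finset (Pg (fv A B C) (N ^ 2) ε₁ υ) =>
      T.map (Function.Embedding.subtype _))
    (j := fun T : Finset ℕ => T.subtype (fun p => p ∈ Pg (fv A B C) (N ^ 2) ε₁ υ))
  · intro T _
    rw [mem_powerset]
    intro p hp
    rw [Finset.mem_map] at hp
    obtain ⟨t, _, rfl⟩ := hp
    exact t.2
  · intro T _
    exact mem_univ _
  · intro T _
    ext t
    simp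
  · intro T hT
    rw [mem_powerset] at hT
    rw [Finset.subtype_map]
    exact filter_true_of_mem fun p hp => hT hp
  · intro T _
    set T' : Finset ℕ := T.map (Function.Embedding.subtype _) with hT'
    have hT'P : T' ⊆ pr (N ^ 2) ε₁ υ := by
      intro p hp
      rw [hT', Finset.mem_map] at hp
      obtain ⟨t, _, rfl⟩ := hp
      exact hsub t.2
    have hall : ∀ Q : ℕ → Prop, (∀ p ∈ T', Q p) ↔ ∀ s ∈ T, Q (s : ℕ) := by
      intro Q
      constructor
      · intro hQ s hs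
        exact hQ _ (by rw [hT']; exact mem_map_of_mem _ hs)
      · intro hQ p hp
        rw [hT', Finset.mem_map] at hp
        obtain ⟨t, ht, rfl⟩ := hp
        exact hQ t ht
    have hcop : Nat.Coprime (∏ p ∈ T', p) (W * D) ↔ ∀ s ∈ T, Nat.Coprime (s : ℕ) D := by
      rw [Nat.coprime_prod_left_iff, hall (fun p => Nat.Coprime p (W * D))]
      refine forall₂_congr fun s hs => ?_
      have hs' : (s : ℕ) ∈ pr (N ^ 2) ε₁ υ := hsub s.2
      have hsW : Nat.Coprime (s : ℕ) W := by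
        rw [(hpr _ hs').coprime_iff_not_dvd]
        intro h2
        exact hbig _ hs' (h2.mul_left _)
      constructor
      · intro h2
        exact Nat.Coprime.coprime_mul_left_right h2
      · intro h2
        exact Nat.Coprime.mul_right hsW h2
    congr 1
    by_cases hc : ∀ s ∈ T, Nat.Coprime (s : ℕ) D
    · rw [if_pos hc, if_pos (hcop.2 hc), b1k_card A B C W b M L ti D c hW T'
        (fun p hp => hpr p (hT'P hp)), hgd T' hT'P]
      have h2 : ∏ p ∈ T', (rt (fv A B C) p : ℝ) / p = ∏ s ∈ T, 1 / qs (fv A B C) (N ^ 2) ε₁ υ s := by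
        rw [hT', prod_map]
        refine prod_congr rfl fun s _ => ?_
        unfold qs
        rw [one_div_div]
        rfl
      rw [h2]
      have hW0 : (W : ℝ) ≠ 0 := by
        have : W ≠ 0 := by omega
        exact_mod_cast this
      have hD0 : (D : ℝ) ≠ 0 := by
        have : D ≠ 0 := by omega
        exact_mod_cast this
      have h3 : ((W * L : ℕ) : ℝ) / ((W * D : ℕ) : ℝ) = (L : ℝ) / D := by
        push_cast
        rw [mul_div_mul_left _ _ hW0]
      rw [h3]
      have h4 : (Ioc M (M + L)).filter (fun K => K % D = c % D ∧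
          ∀ p ∈ T', (p : ℤ) ∣ fv A B C ((W * (K + ti) + b : ℕ) : ℤ)) =
          (Ioc M (M + L)).filter (fun K => K % D = c % D ∧
            ∀ s ∈ T, ((s : ℕ) : ℤ) ∣ fv A B C ((W * (K + ti) + b : ℕ) : ℤ)) := by
        refine filter_congr fun K _ => ?_
        rw [hall (fun p => (p : ℤ) ∣ fv A B C ((W * (K + ti) + b : ℕ) : ℤ))]
      rw [h4]
    · rw [if_neg hc, if_neg (fun h2 => hc (hcop.1 h2))]

end Pool.Agent.H543.MQ
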