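import Pool.Agent.H543.DP.Si

/-!
# The remainders of factorable weights for quadratic polynomials in residue classes
-/

set_option autoImplicit false

namespace Pool.Agent.H543.MQ

open Finset Filter
open Pool.Agent.W23.DC
open Pool.Agent.Y882
open Pool.Agent.Y882.KW
open Pool.Agent.Y346.PA (S_KL)
open Pool.Agent.H543.DG hiding rep_sum
open Pool.Agent.H543.DD
open Pool.Agent.H543.DP

theorem cF_eqA {A : ℕ} {B C : ℤ} (hA1 : 1 ≤ A) (Q : ℕ) (r : ℤ) (X H d : ℕ)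
    (hX : 0 ≤ 2 * (A : ℤ) * X + B) (hd : Nat.Coprime d (4 * A)) :
    cF A B C X H Q r d = cIq (dt A B C) (2 * (A : ℤ) * X + B).toNat (2 * A * H) (2 * A * Q)
      (2 * A * r + B) d := by
  classical
  have hA : (0 : ℤ) < A := by exact_mod_cast hA1
  have hc : IsCoprime (d : ℤ) (4 * (A : ℤ)) := by
    have h2 := Nat.isCoprime_iff_coprime.2 hd
    push_cast at h2
    exact h2
  have hX' : (((2 * (A : ℤ) * X + B).toNat : ℕ) : ℤ) = 2 * A * X + B := Int.toNat_of_nonneg hX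
  unfold cF cIq
  congr 1
  rw [hX']
  apply card_bij (fun (n : ℕ) _ => 2 * (A : ℤ) * n + B)
  · intro n hn
    unfold NS at hn
    rw [mem_filter, mem_filter, mem_Ioc, dvd_NV] at hn
    obtain ⟨⟨⟨h1, h2⟩, h3⟩, h4⟩ := hn
    rw [mem_filter, mem_Ioc, four_fv]
    have h1' : (X : ℤ) < n := by exact_mod_cast h1
    have h2' : (n : ℤ) ≤ X + H := by exact_mod_cast h2
    refine ⟨⟨?_, ?_⟩, h4.mul_left _, ?_⟩
    · nlinarith
    · push_cast
      nlinarith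
    · have : 2 * (A : ℤ) * n + B - (2 * A * r + B) = 2 * A * (n - r) := by ring
      rw [this]
      exact mul_dvd_mul_left _ h3
  · intro n _ n' _ he
    have h1 : 2 * (A : ℤ) * n = 2 * A * n' := by linarith
    have h2 : (n : ℤ) = n' := mul_left_cancel₀ (by positivity) h1
    exact_mod_cast h2
  · intro k hk
    rw [mem_filter, mem_Ioc] at hk
    obtain ⟨⟨h1, h2⟩, h3, ⟨t, ht⟩⟩ := hk
    obtain ⟨n, hn⟩ : ∃ n : ℤ, n = r + Q * t := ⟨_, rfl⟩
    have hk : k = 2 * A * n + B := by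
      rw [hn]
      linear_combination ht
    rw [hk] at h1 h2 h3
    rw [four_fv] at h3
    push_cast at h2
    have e1 : (X : ℤ) < n := by
      by_contra hc
      push Not at hc
      nlinarith
    have e2 : n ≤ X + H := by
      by_contra hc
      push Not at hc
      nlinarith
    have hn0 : 0 ≤ n := by
      have := Int.natCast_nonneg X
      linarith
    have hnn : ((n.toNat : ℕ) : ℤ) = n := Int.toNat_of_nonneg hn0
    refine ⟨n.toNat, ?_, ?_⟩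
    · unfold NS
      rw [mem_filter, mem_filter, mem_Ioc, dvd_NV, hnn]
      refine ⟨⟨⟨by omega, by omega⟩, ⟨t, by rw [hn]; ring⟩⟩, ?_⟩
      exact hc.dvd_of_dvd_mul_left h3
    · rw [hnn, hk]

/-- the coprime parts of the coefficients -/
theorem bil_clA {A : ℕ} {B C : ℤ} (hA1 : 1 ≤ A) {Q : ℕ} (hQ1 : 1 ≤ Q) (r : ℤ) (X H M : ℕ)
    (hX : 0 ≤ 2 * (A : ℤ) * X + B) (S : Finset ℕ) (al b : ℕ → ℝ) :
    ∑ m ∈ Icc 1 M, ∑ n ∈ S.filter (fun n => Nat.Coprime m n),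
      al m * b n * (if Nat.Coprime (m * n) (4 * A * Q) then
        cF A B C X H Q r (m * n) - (H : ℝ) / Q * gd (dt A B C) (m * n) else 0) =
    ∑ m ∈ Icc 1 M, ∑ n ∈ S.filter (fun n => Nat.Coprime m n),
      (if Nat.Coprime m (4 * A * Q) then al m else 0) *
      (if Nat.Coprime n (4 * A * Q) then b n else 0) *
      (cIq (dt A B C) (2 * (A : ℤ) * X + B).toNat (2 * A * H) (2 * A * Q) (2 * A * r + B) (m * n) -
        ((2 * A * H : ℕ) : ℝ) / ((2 * A * Q : ℤ) : ℝ) * gd (dt A B C) (m * n)) := by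
  have hAr : (0 : ℝ) < A := by exact_mod_cast hA1
  have hQr : (0 : ℝ) < Q := by exact_mod_cast hQ1
  apply sum_congr rfl
  intro m _
  apply sum_congr rfl
  intro n _
  by_cases h1 : Nat.Coprime m (4 * A * Q)
  · by_cases h2 : Nat.Coprime n (4 * A * Q)
    · have h3 := Nat.Coprime.mul_left h1 h2
      rw [if_pos h3, if_pos h1, if_pos h2,
        cF_eqA hA1 Q r X H (m * n) hX (Nat.Coprime.coprime_mul_right_right h3)]
      congr 3
      push_cast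
      field_simp
    · rw [if_neg (fun h => h2 (Nat.Coprime.coprime_mul_left h)), if_neg h2]
      ring
  · rw [if_neg (fun h => h1 (Nat.Coprime.coprime_mul_right h)), if_neg h1]
    ring

theorem numA (A N H : ℕ) (X' κ : ℝ) (hA : 1 ≤ A) (hN : 1 ≤ N) (hX'0 : 0 ≤ X')
    (hX' : X' ≤ 6 * A * N) (hκ : 0 < κ) (hκ1 : κ ≤ 1) (g2 : (3 : ℝ) ≤ (N : ℝ) ^ (κ / 2))
    (hH : (N : ℝ) ^ (1 - κ / 4) ≤ H) :
    X' ^ (1 - κ) ≤ ((2 * A * H : ℕ) : ℝ) := by
  have hAr : (1 : ℝ) ≤ A := by exact_mod_cast hA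
  have hNr1 : (1 : ℝ) ≤ N := by exact_mod_cast hN
  have hN0 : (0 : ℝ) < N := by linarith
  calc X' ^ (1 - κ) ≤ (6 * A * N : ℝ) ^ (1 - κ) :=
        Real.rpow_le_rpow hX'0 hX' (by linarith)
    _ = (6 * A : ℝ) ^ (1 - κ) * (N : ℝ) ^ (1 - κ) := Real.mul_rpow (by positivity) hN0.le
    _ ≤ (6 * A : ℝ) ^ (1 : ℝ) * (N : ℝ) ^ (1 - κ) := by
        apply mul_le_mul_of_nonneg_right _ (by positivity)
        exact Real.rpow_le_rpow_of_exponent_le (by linarith) (by linarith)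
    _ = 6 * A * (N : ℝ) ^ (1 - κ) := by rw [Real.rpow_one]
    _ ≤ 2 * A * ((N : ℝ) ^ (κ / 2) * (N : ℝ) ^ (1 - κ)) := by
        have h1 : 3 * (N : ℝ) ^ (1 - κ) ≤ (N : ℝ) ^ (κ / 2) * (N : ℝ) ^ (1 - κ) :=
          mul_le_mul_of_nonneg_right g2 (by positivity)
        have h2 : 0 < (N : ℝ) ^ (1 - κ) := by positivity
        nlinarith
    _ = 2 * A * (N : ℝ) ^ (1 - κ / 2) := by
        rw [← Real.rpow_add hN0]
        congr 2
        ring
    _ ≤ 2 * A * (N : ℝ) ^ (1 - κ / 4) := by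
        apply mul_le_mul_of_nonneg_left _ (by positivity)
        exact Real.rpow_le_rpow_of_exponent_le hNr1 (by linarith)
    _ ≤ 2 * A * H := mul_le_mul_of_nonneg_left hH (by positivity)
    _ = _ := by push_cast; ring

open Classical in
/-- **MQ7.** Bilinear remainder for factorable weights in an arbitrary residue class `r` modulo `q` (no condition on the class;
only `T` prime to `q` are counted). The saving `κ` depends on `ε₂` but not on `ε₁`.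

Proof. This is the block `herr` in the proof of `siG` (file `Pool/Agent/H543/DP/Si.lean`), with three changes: (1) the class is arbitrary,
so `bil_cl`/`cF_err`/`cF_eq` are used only for `d` prime to `q` and to `2 * A` (all primes of `T` are `≥ N ^ (2 * ε₁) > 2 * A` for `N` large): for such `d`
`cF A B C X H q r d = cIq (dt A B C) (2 * A * X + B).toNat (2 * A * H) (2 * A * q) (2 * A * r + B) d` (the map `n ↦ 2 * A * n + B`; see `cF_eq` in
`Pool/Agent/H543/DP/Qd.lean`, whose proof needs only `Nat.Coprime d (4 * A)`), and `H / q = 2 A H / (2 A q)`. (2) the scale is `Y = N ^ 2` and the interval starts at `X`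
with `N ≤ X ≤ 2 * N`; in `bil` one uses `X' = 2 * A * X + B` with `N ≤ X' ≤ 5 * A * N` (`N` large), so `X' ≤ N ^ 2`. (3) the second factor of the weights lives on
`pr (N ^ 2) ε₂ υ`: in `bil` take `ρ = ε₂`, `ε = ε0 = min (min (1 - 2 * α) (1 / 12 - 2 * β)) (1 / 100)`, `κ₀ = min (ε0 / 200) (ε₂ / 100)`; then `Y ^ α = N ^ (2 * α) ≤ X' ^ (1 - ε0)`,
`Y ^ β ≤ X' ^ (1 / 12 - ε0)`, and a prime `p ∈ pr (N ^ 2) ε₂ υ` is `≥ N ^ (2 * ε₂) ≥ X' ^ ε₂`. Result of `bil`: `2 A H * X' ^ (-(κ₀ / 2)) ≤ 2 A H * N ^ (-(κ₀ / 2))`; `fac_err` gives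
`Kf * (C1 * (2 A H N ^ (-(κ₀ / 2)))) ≤ H * N ^ (-κ)` with `κ = κ₀ / 4` and `N` large. (`(2 * A * H : ℝ) ≥ X' ^ (1 - κ₀)` follows from `H ≥ N ^ (1 - κ)`, compare `num2`.) -/
theorem b1_quad (kl : S_KL) (A : ℕ) (B C : ℤ) (hA : 1 ≤ A) (hna : ¬ IsSquare (-(dt A B C)))
    (α β ε₂ : ℝ) (hα : α < 1 / 2) (hβ : β < 1 / 24) (hε₂ : 0 < ε₂) :
    ∃ κ : ℝ, 0 < κ ∧ κ ≤ 1 / 100 ∧ ∀ (ε₁ υ : ℝ) (Kf : ℕ) (C1 : ℝ), 0 < ε₁ → ε₁ ≤ ε₂ → 0 < C1 →
      ∃ N0 : ℕ, ∀ N : ℕ, N0 ≤ N → ∀ X H : ℕ, N ≤ X → X ≤ 2 * N → (N : ℝ) ^ (1 - κ) ≤ H →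
      (H : ℤ) + |B| ≤ X → ∀ w : Finset ℕ → ℝ,
      Fac (pr (N ^ 2) ε₁ υ) (pr (N ^ 2) ε₂ υ) (N ^ 2) α β Kf C1 w →
      ∀ (q : ℕ) (r : ℤ), 1 ≤ q →
      |∑ T ∈ (pr (N ^ 2) ε₁ υ).powerset, w T * (if Nat.Coprime (∏ p ∈ T, p) q then
        cF A B C X H q r (∏ p ∈ T, p) - (H : ℝ) / q * gd (dt A B C) (∏ p ∈ T, p) else 0)| ≤
        H * (N : ℝ) ^ (-κ) := by
  obtain ⟨D⟩ := dec_exists hna
  set a : ℤ := dt A B C with hadt
  set ε0 : ℝ := min (min (1 - 2 * α) (1 / 12 - 2 * β)) (1 / 100) with hε0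
  have hε00 : 0 < ε0 := lt_min (lt_min (by linarith) (by linarith)) (by norm_num)
  have hε01 : ε0 ≤ 1 - 2 * α := (min_le_left _ _).trans (min_le_left _ _)
  have hε02 : ε0 ≤ 1 / 12 - 2 * β := (min_le_left _ _).trans (min_le_right _ _)
  have hε03 : ε0 ≤ 1 / 100 := min_le_right _ _
  set κ : ℝ := min (ε0 / 200) (ε₂ / 100) with hκdef
  have hκ : 0 < κ := lt_min (by positivity) (by positivity)
  have hκ1 : κ ≤ ε0 / 200 := min_le_left _ _
  have hκ2 : κ ≤ ε₂ / 100 := min_le_right _ _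
  obtain ⟨X1, HB⟩ := bil kl D ε0 ε₂ κ hκ (by linarith) (by linarith) hε03
  refine ⟨κ / 4, by positivity, by linarith, ?_⟩
  intro ε₁ υ Kf C1 hε₁ hε12 hC1
  have hAr : (1 : ℝ) ≤ A := by exact_mod_cast hA
  have ev1 : ∀ᶠ N : ℕ in atTop, (Kf : ℝ) * C1 * (2 * A) ≤ (N : ℝ) ^ (κ / 4) :=
    tendsto_natCast_atTop_atTop.eventually
      ((tendsto_rpow_atTop (by positivity)).eventually_ge_atTop _)
  have ev2 : ∀ᶠ N : ℕ in atTop, (3 : ℝ) ≤ (N : ℝ) ^ (κ / 2) :=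
    tendsto_natCast_atTop_atTop.eventually
      ((tendsto_rpow_atTop (by positivity)).eventually_ge_atTop _)
  have ev3 : ∀ᶠ N : ℕ in atTop, (4 * A + 1 : ℝ) ≤ (N : ℝ) ^ (2 * ε₁) :=
    tendsto_natCast_atTop_atTop.eventually
      ((tendsto_rpow_atTop (by positivity)).eventually_ge_atTop _)
  obtain ⟨N1, hN1⟩ := eventually_atTop.1 (ev1.and (ev2.and ev3))
  refine ⟨max (max X1 N1) (max (6 * A) (B.natAbs + 3)), ?_⟩
  intro N hN X H hNX hXN hH1 hH2 w hw Q r hQ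
  have hNX1 : X1 ≤ N := ((le_max_left _ _).trans (le_max_left _ _)).trans hN
  have hNN1 : N1 ≤ N := ((le_max_right _ _).trans (le_max_left _ _)).trans hN
  have hNm := (le_max_right _ _).trans hN
  have hN6A : 6 * A ≤ N := (le_max_left _ _).trans hNm
  have hNB : B.natAbs + 3 ≤ N := (le_max_right _ _).trans hNm
  have hN3 : 3 ≤ N := by omega
  obtain ⟨g1, g2, g3⟩ := hN1 N hNN1
  have hNr : (3 : ℝ) ≤ N := by exact_mod_cast hN3
  have hN0 : (0 : ℝ) < N := by linarith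
  have hNr1 : (1 : ℝ) ≤ N := by linarith
  have hBabs : |B| = (B.natAbs : ℤ) := Int.abs_eq_natAbs B
  have hB1 := neg_abs_le B
  have hB2 := le_abs_self B
  have hNXz : (N : ℤ) ≤ X := by exact_mod_cast hNX
  have hNBz : |B| + 3 ≤ (N : ℤ) := by
    rw [hBabs]
    exact_mod_cast hNB
  have hAz : (1 : ℤ) ≤ A := by exact_mod_cast hA
  have hX'0 : 0 ≤ 2 * (A : ℤ) * X + B := by nlinarith
  obtain ⟨X', hX'⟩ : ∃ X' : ℕ, X' = (2 * (A : ℤ) * X + B).toNat := ⟨_, rfl⟩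
  have hX'z : (X' : ℤ) = 2 * A * X + B := by rw [hX']; exact Int.toNat_of_nonneg hX'0
  have hXX' : X ≤ X' := by
    have : (X : ℤ) ≤ X' := by rw [hX'z]; nlinarith
    exact_mod_cast this
  have hNX' : N ≤ X' := hNX.trans hXX'
  have hX'6 : (X' : ℝ) ≤ 6 * A * N := by
    have h1 : (X' : ℤ) ≤ 3 * A * X := by rw [hX'z]; nlinarith
    have h2 : (X' : ℝ) ≤ 3 * A * X := by exact_mod_cast h1
    have h3 : (X : ℝ) ≤ 2 * N := by exact_mod_cast hXN
    have h4 : 3 * (A : ℝ) * X ≤ 3 * A * (2 * N) := mul_le_mul_of_nonneg_left h3 (by positivity)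
    linarith
  have hH'X' : 2 * A * H ≤ X' := by
    have : (2 * A * H : ℤ) ≤ X' := by rw [hX'z]; nlinarith [abs_nonneg B]
    exact_mod_cast this
  have hNX'r : (N : ℝ) ≤ X' := by exact_mod_cast hNX'
  have hX'1 : (1 : ℝ) ≤ X' := by linarith
  have hk1 : κ ≤ 1 := by linarith
  have hH'1 := numA A N H X' κ hA (by omega) (Nat.cast_nonneg _) hX'6 hκ hk1 g2 hH1
  set Y : ℕ := N ^ 2 with hY
  have hYr : (Y : ℝ) = (N : ℝ) ^ (2 : ℝ) := by
    rw [hY]
    push_cast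
    exact (Real.rpow_natCast _ 2).symm
  have hYp : ∀ x : ℝ, (Y : ℝ) ^ x = (N : ℝ) ^ (2 * x) := by
    intro x
    rw [hYr, ← Real.rpow_mul hN0.le]
  have hNN : N ≤ N ^ 2 := by nlinarith
  have hY3 : 3 ≤ Y := hN3.trans hNN
  have hPp : ∀ (e : ℝ), ∀ p ∈ pr Y e υ, p.Prime := by
    intro e p hp
    unfold pr at hp
    rw [mem_filter] at hp
    exact hp.2.1
  have hsub : pr Y ε₂ υ ⊆ pr Y ε₁ υ := by
    intro p hp
    unfold pr at hp ⊢
    rw [mem_filter] at hp ⊢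
    exact ⟨hp.1, hp.2.1, hε12.trans hp.2.2.1, hp.2.2.2⟩
  have hpl : ∀ (e : ℝ), ∀ p ∈ pr Y e υ, (N : ℝ) ^ (2 * e) ≤ p := by
    intro e p hp
    have h7 := hPp e p hp
    unfold pr at hp
    rw [mem_filter] at hp
    rw [← hYp]
    by_contra hc
    push Not at hc
    exact absurd ((tt_lt Y p e (by omega) h7.pos).2 hc) (not_lt.2 hp.2.2.1)
  have hP4 : ∀ T ⊆ pr Y ε₁ υ, Nat.Coprime (∏ p ∈ T, p) (4 * A) := by
    intro T hT
    apply Nat.Coprime.prod_left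
    intro p hp
    have h7 := hPp ε₁ p (hT hp)
    rw [Nat.Prime.coprime_iff_not_dvd h7]
    intro hd
    have h8 := Nat.le_of_dvd (by omega) hd
    have h9 := hpl ε₁ p (hT hp)
    have h10 : (p : ℝ) ≤ 4 * A := by exact_mod_cast h8
    linarith
  -- the weights in the sum
  have hsum : ∑ T ∈ (pr Y ε₁ υ).powerset, w T * (if Nat.Coprime (∏ p ∈ T, p) Q then
        cF A B C X H Q r (∏ p ∈ T, p) - (H : ℝ) / Q * gd a (∏ p ∈ T, p) else 0) =
      ∑ T ∈ (pr Y ε₁ υ).powerset, w T * (if Nat.Coprime (∏ p ∈ T, p) (4 * A * Q) then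
        cF A B C X H Q r (∏ p ∈ T, p) - (H : ℝ) / Q * gd a (∏ p ∈ T, p) else 0) := by
    apply sum_congr rfl
    intro T hT
    rw [mem_powerset] at hT
    have h6 := hP4 T hT
    by_cases h7 : Nat.Coprime (∏ p ∈ T, p) Q
    · rw [if_pos h7, if_pos (Nat.Coprime.mul_right h6 h7)]
    · rw [if_neg h7, if_neg (fun h => h7 (Nat.Coprime.coprime_mul_left_right h))]
  rw [hsum]
  have hq0 : (0 : ℤ) < 2 * A * Q := by
    have : (1 : ℤ) ≤ Q := by exact_mod_cast hQ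
    positivity
  have hcopm : ∀ m : ℕ, Nat.Coprime m (4 * A * Q) → IsCoprime (m : ℤ) (2 * A * Q) := by
    intro m hm
    have h1 := Nat.isCoprime_iff_coprime.2 hm
    push_cast at h1
    apply IsCoprime.of_isCoprime_of_dvd_right h1
    exact ⟨2, by ring⟩
  set E : ℝ := ((2 * A * H : ℕ) : ℝ) * (X' : ℝ) ^ (-(κ / 2)) with hE
  have h6 := fac_err (pr Y ε₁ υ) (pr Y ε₂ υ) (hPp ε₁) (hPp ε₂) hsub Y α β Kf C1 hC1 w hw
    ⌊(Y : ℝ) ^ α⌋₊ (Bs X' ⌊(Y : ℝ) ^ β⌋₊ ε₂) (Nat.lt_floor_add_one _) ?_ ?_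
    (fun d => if Nat.Coprime d (4 * A * Q) then
      cF A B C X H Q r d - (H : ℝ) / Q * gd a d else 0) E ?_
  · refine h6.trans ?_
    have h7 : (X' : ℝ) ^ (-(κ / 2)) ≤ (N : ℝ) ^ (-(κ / 2)) :=
      Real.rpow_le_rpow_of_nonpos hN0 hNX'r (by linarith)
    have hH0 : (0 : ℝ) ≤ H := Nat.cast_nonneg _
    have hK0 : (0 : ℝ) ≤ Kf := Nat.cast_nonneg _
    calc (Kf : ℝ) * (C1 * E) ≤ Kf * (C1 * (((2 * A * H : ℕ) : ℝ) * (N : ℝ) ^ (-(κ / 2)))) := by
          apply mul_le_mul_of_nonneg_left _ hK0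
          apply mul_le_mul_of_nonneg_left _ hC1.le
          exact mul_le_mul_of_nonneg_left h7 (Nat.cast_nonneg _)
      _ = H * ((Kf * C1 * (2 * A)) * (N : ℝ) ^ (-(κ / 2))) := by
          push_cast
          ring
      _ ≤ H * ((N : ℝ) ^ (κ / 4) * (N : ℝ) ^ (-(κ / 2))) := by
          apply mul_le_mul_of_nonneg_left _ hH0
          exact mul_le_mul_of_nonneg_right g1 (by positivity)
      _ = H * (N : ℝ) ^ (-(κ / 4)) := by
          rw [← Real.rpow_add hN0]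
          congr 2
          ring
  · intro n hn1 hn2 hn3 hn4
    unfold Bs
    rw [mem_filter, mem_Icc]
    refine ⟨⟨hn1, Nat.le_floor hn2⟩, hn3, ?_⟩
    intro p hp
    have h7 := hn4 hp
    refine le_trans ?_ (hpl ε₂ p h7)
    have h8 : (X' : ℝ) ≤ (N : ℝ) ^ (2 : ℝ) := by
      refine hX'6.trans ?_
      have h9 : (6 * A : ℝ) ≤ N := by exact_mod_cast hN6A
      rw [Real.rpow_two, sq]
      exact mul_le_mul_of_nonneg_right h9 hN0.le
    calc (X' : ℝ) ^ ε₂ ≤ ((N : ℝ) ^ (2 : ℝ)) ^ ε₂ :=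
          Real.rpow_le_rpow (Nat.cast_nonneg _) h8 hε₂.le
      _ = _ := by rw [← Real.rpow_mul hN0.le]
  · intro n hn
    unfold Bs at hn
    rw [mem_filter, mem_Icc] at hn
    exact ⟨hn.1.1, hn.2.1⟩
  · intro al b h1 h2 h3
    have h7 := bil_clA (C := C) hA hQ r X H ⌊(Y : ℝ) ^ α⌋₊ hX'0 (Bs X' ⌊(Y : ℝ) ^ β⌋₊ ε₂) al b
    rw [← hadt, ← hX'] at h7
    refine le_trans (le_of_eq (congrArg abs h7)) ?_
    rw [hE]
    apply HB X' (hNX1.trans hNX') (2 * A * H) hH'1 hH'X' ⌊(Y : ℝ) ^ β⌋₊ ⌊(Y : ℝ) ^ α⌋₊ ?_ ?_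
      (2 * A * Q) (2 * A * r + B) hq0
    · intro m
      split_ifs
      · exact h1 m
      · simp
    · intro n
      split_ifs
      · exact h2 n
      · simp
    · intro m hm
      split_ifs at hm with hc
      · exact ⟨h3 m hm, hcopm m hc⟩
      · exact absurd rfl hm
    · intro n hn
      split_ifs at hn with hc
      · exact hcopm n hc
      · exact absurd rfl hn
    · refine (Nat.floor_le (by positivity)).trans ?_
      rw [hYp]
      calc (N : ℝ) ^ (2 * β) ≤ (N : ℝ) ^ (1 / 12 - ε0) :=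
            Real.rpow_le_rpow_of_exponent_le hNr1 (by linarith)
        _ ≤ _ := Real.rpow_le_rpow hN0.le hNX'r (by linarith)
    · refine (Nat.floor_le (by positivity)).trans ?_
      rw [hYp]
      calc (N : ℝ) ^ (2 * α) ≤ (N : ℝ) ^ (1 - ε0) :=
            Real.rpow_le_rpow_of_exponent_le hNr1 (by linarith)
        _ ≤ _ := Real.rpow_le_rpow hN0.le hNX'r (by linarith)

end Pool.Agent.H543.MQ
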