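import Pool.Agent.H543.MQ.Rem
import Pool.Graph.R_seed8.Y882.FLW

/-!
# The presieve and auxiliary bounds
-/

set_option autoImplicit false
set_option linter.unusedSectionVars false

namespace Pool.Agent.H543.MQ

open Finset Filter
open Pool.Agent.R498.MT
open Pool.Agent.Y677.RSZ (rt Sys rhoT per_mod ev_log)
open Pool.Agent.TH423.SH (PS)
open Pool.Agent.W23.DC
open Pool.Agent.Y882
open Pool.Agent.Y882.PX hiding gd
open Pool.Agent.Y882.KW

/-- the parameters of the presieve -/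
theorem par' (C₁ R : ℝ) (k C C' : ℕ) (hC : 0 ≤ C₁) (hR : 0 < R) (β κ : ℝ) (hβ : 0 < β)
    (hκ : 0 < κ) :
    ∃ (E1 b₀ : ℕ), 0 < E1 ∧ (1 : ℝ) / E1 ≤ β ∧ (1 : ℝ) / E1 ≤ e0 k C₁ R ∧ C' ≤ b₀ ∧
      2 * (1 / 2 : ℝ) ^ b₀ ≤ ((1 : ℝ) / E1) ^ (16 * (2 ^ k) ^ 2 + 1) ∧
      2 * ((1 : ℝ) / E1) * (C * b₀) ≤ κ := by
  set A : ℕ := 16 * (2 ^ k) ^ 2 + 1 with hA
  have h0 := e0_pos k C₁ R hC hR
  have h1 : Tendsto (fun s : ℕ => (s : ℝ) * (1 / 2 : ℝ) ^ s) atTop (nhds 0) := by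
    have := tendsto_pow_const_mul_const_pow_of_abs_lt_one 1 (show |(1 / 2 : ℝ)| < 1 by
      rw [abs_of_pos (by norm_num)]; norm_num)
    simpa using this
  have h2 : Tendsto (fun s : ℕ => (1 / 2 : ℝ) ^ s) atTop (nhds 0) :=
    tendsto_pow_atTop_nhds_zero_of_lt_one (by norm_num) (by norm_num)
  have h3 : Tendsto (fun s : ℕ => 2 * C * (A * ((s : ℝ) * (1 / 2 : ℝ) ^ s) +
      (C' + 1) * (1 / 2 : ℝ) ^ s)) atTop (nhds (2 * C * (A * 0 + (C' + 1) * 0))) :=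
    ((h1.const_mul _).add (h2.const_mul _)).const_mul _
  rw [show 2 * (C : ℝ) * (A * 0 + (C' + 1) * 0) = 0 by ring] at h3
  obtain ⟨s, hs1, hs2, hs3⟩ := ((h3.eventually_le_const hκ).and
    ((h2.eventually_le_const hβ).and (h2.eventually_le_const h0))).exists
  have e0' : (1 : ℝ) / ((2 ^ s : ℕ) : ℝ) = (1 / 2 : ℝ) ^ s := by
    push_cast
    rw [one_div_pow]
  refine ⟨2 ^ s, s * A + C' + 1, by positivity, by rw [e0']; exact hs2, by rw [e0']; exact hs3,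
    by omega, ?_, ?_⟩
  · rw [e0']
    have e1 : ((1 / 2 : ℝ) ^ s) ^ A = (1 / 2 : ℝ) ^ (s * A) := by rw [← pow_mul]
    rw [e1, pow_add, pow_add]
    have h4 : (1 / 2 : ℝ) ^ C' ≤ 1 := pow_le_one₀ (by norm_num) (by norm_num)
    have h5 : 0 < (1 / 2 : ℝ) ^ (s * A) := by positivity
    nlinarith
  · rw [e0']
    push_cast
    refine le_trans (le_of_eq ?_) hs1
    ring

/-- the size of the products of the local factors -/
theorem bq_bd (G : ℤ → ℤ) (Y : ℕ) (hY : 2 ≤ Y) (ε₁ υ R : ℝ) (hε : 0 < ε₁) (k c : ℕ)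
    (hc : 2 * R / ε₁ ≤ c) (U : Finset (Pg G Y ε₁ υ)) (hU : lz (ls G Y ε₁ υ) U ≤ 2 * R) :
    ∏ s ∈ U, (1 + 2 ^ k * qs G Y ε₁ υ s ^ 2) ≤ (2 ^ (k + 1)) ^ c * (Y : ℝ) ^ (4 * R) := by
  have hYr : (2 : ℝ) ≤ Y := by exact_mod_cast hY
  have hY0 : (0 : ℝ) < Y := by linarith
  have hlY : 0 < Real.log Y := Real.log_pos (by linarith)
  have hone : ∀ s : Pg G Y ε₁ υ, 1 + 2 ^ k * qs G Y ε₁ υ s ^ 2 ≤
      2 ^ (k + 1) * (Y : ℝ) ^ (2 * ls G Y ε₁ υ s) := by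
    intro s
    obtain ⟨h1, h2, h3, h4, h5⟩ := Pg_mem G Y ε₁ υ hY s
    have hs1 : (1 : ℝ) ≤ (s : ℕ) := by exact_mod_cast h1.one_le
    have hr1 : (1 : ℝ) ≤ rt G (s : ℕ) := by exact_mod_cast Nat.pos_of_ne_zero h5
    have hq : qs G Y ε₁ υ s ≤ (s : ℕ) := by
      unfold qs
      exact div_le_self (by linarith) hr1
    have hq0 : 0 ≤ qs G Y ε₁ υ s := by
      unfold qs
      positivity
    have e1 : ((s : ℕ) : ℝ) ^ 2 = (Y : ℝ) ^ (2 * ls G Y ε₁ υ s) := by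
      have hl : ls G Y ε₁ υ s * Real.log Y = Real.log (s : ℕ) := by
        unfold ls tt
        field_simp
      rw [Real.rpow_def_of_pos hY0]
      have e2 : Real.log Y * (2 * ls G Y ε₁ υ s) = 2 * Real.log (s : ℕ) := by
        rw [← hl]
        ring
      rw [e2, two_mul, Real.exp_add, Real.exp_log (by linarith)]
      ring
    rw [← e1, pow_succ (2 : ℝ) k]
    have h6 : qs G Y ε₁ υ s ^ 2 ≤ ((s : ℕ) : ℝ) ^ 2 := pow_le_pow_left₀ hq0 hq 2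
    have h7 : (1 : ℝ) ≤ 2 ^ k := one_le_pow₀ (by norm_num)
    have h8 : (1 : ℝ) ≤ ((s : ℕ) : ℝ) ^ 2 := one_le_pow₀ hs1
    have h9 : 2 ^ k * qs G Y ε₁ υ s ^ 2 ≤ 2 ^ k * ((s : ℕ) : ℝ) ^ 2 :=
      mul_le_mul_of_nonneg_left h6 (by positivity)
    have h10 : (1 : ℝ) ≤ 2 ^ k * ((s : ℕ) : ℝ) ^ 2 := one_le_mul_of_one_le_of_one_le h7 h8
    linarith
  have hcard : U.card ≤ c := by
    have h1 : (U.card : ℝ) * ε₁ ≤ 2 * R := by
      refine le_trans ?_ hU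
      unfold lz
      rw [← nsmul_eq_mul]
      exact card_nsmul_le_sum U _ ε₁ (fun t _ => (Pg_mem G Y ε₁ υ hY t).2.2.1)
    have h2 : (U.card : ℝ) ≤ 2 * R / ε₁ := by
      rw [le_div_iff₀ hε]
      exact h1
    exact_mod_cast h2.trans hc
  calc ∏ s ∈ U, (1 + 2 ^ k * qs G Y ε₁ υ s ^ 2) ≤
      ∏ s ∈ U, (2 ^ (k + 1) * (Y : ℝ) ^ (2 * ls G Y ε₁ υ s)) :=
        prod_le_prod (fun s _ => by positivity) (fun s _ => hone s)
    _ = (2 ^ (k + 1)) ^ U.card * (Y : ℝ) ^ (∑ s ∈ U, 2 * ls G Y ε₁ υ s) := by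
        rw [prod_mul_distrib, prod_const, Real.rpow_sum_of_pos hY0]
    _ ≤ (2 ^ (k + 1)) ^ c * (Y : ℝ) ^ (4 * R) := by
        apply mul_le_mul _ _ (by positivity) (by positivity)
        · apply pow_le_pow_right₀ _ hcard
          exact one_le_pow₀ (by norm_num)
        · apply Real.rpow_le_rpow_of_exponent_le (by linarith)
          rw [← mul_sum]
          unfold lz at hU
          linarith

open Classical in
/-- the presieve -/
theorem pre : ∃ C : ℕ, 1 ≤ C ∧ ∀ g m b₀ W : ℕ, C * (g * m + 1) ≤ b₀ →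
    (∀ p : ℕ, p.Prime → p ≤ C * (g * m + 1) → p ∣ W) → ∀ F : ℤ → ℤ, Sys g F →
    ∀ (t : Fin m → ℕ) (b J z : ℕ), z ≤ 2 ^ 2 ^ J → ∃ cU : Finset ℕ → ℝ,
    (∀ T, |cU T| ≤ 1) ∧
    (∀ T ⊆ PS W z, cU T ≠ 0 → ∏ p ∈ T, p ≤ (2 ^ 2 ^ J) ^ (C * b₀)) ∧
    (∀ K, nuI F W b z t K ≤ th F W b t (PS W z) cU K) ∧
    Vp F W b z t ≤ VV (PS W z) cU (fun p => (rhoT F W b t p : ℝ) / p) ∧
    VV (PS W z) cU (fun p => (rhoT F W b t p : ℝ) / p) ≤
      (1 + (1 / 2 : ℝ) ^ b₀) * Vp F W b z t := by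
  obtain ⟨C, hC1, HF⟩ := flw
  refine ⟨C, hC1, ?_⟩
  intro g m b₀ W hb hWp F hF t b J z hz
  have hPmem : ∀ p ∈ PS W z, p.Prime ∧ C * (g * m + 1) < p ∧ p ≤ 2 ^ 2 ^ J := by
    intro p hp
    rw [PS, mem_filter, mem_Icc] at hp
    refine ⟨hp.2.1, ?_, hp.1.2.trans hz⟩
    by_contra hcon
    exact hp.2.2 (hWp p hp.2.1 (not_lt.1 hcon))
  obtain ⟨cU, cL, g1, g2, g3, g4⟩ := HF (g * m) b₀ J (C * (g * m + 1)) (PS W z) hb le_rfl hPmem
  refine ⟨cU, fun T => (g1 T).1, fun T hT hne => g2 T hT (Or.inl hne), ?_, ?_⟩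
  · intro K
    set Nk : ℕ := ∏ p ∈ (PS W z).filter (fun p : ℕ =>
      ∃ i, (p : ℤ) ∣ F ((W * (K + t i) + b : ℕ) : ℤ)), p with hNk
    have hdiv : ∀ p ∈ PS W z, (p ∣ Nk ↔ ∃ i, (p : ℤ) ∣ F ((W * (K + t i) + b : ℕ) : ℤ)) := by
      intro p hp
      constructor
      · intro h
        rw [hNk] at h
        obtain ⟨p', hp', hd⟩ := ((hPmem p hp).1.prime.dvd_finsetProd_iff _).1 h
        rw [mem_filter] at hp'
        have := (Nat.prime_dvd_prime_iff_eq (hPmem p hp).1 (hPmem p' hp'.1).1).1 hd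
        rw [this]
        exact hp'.2
      · intro h
        rw [hNk]
        exact dvd_prod_of_mem _ (mem_filter.2 ⟨hp, h⟩)
    have e1 : th F W b t (PS W z) cU K = VV (PS W z) cU (fun p => if p ∣ Nk then 1 else 0) := by
      unfold th VV
      refine sum_congr rfl fun T hT => ?_
      congr 1
      refine prod_congr rfl fun p hp => ?_
      have := hdiv p (mem_powerset.1 hT hp)
      by_cases h : p ∣ Nk
      · simp only [if_pos h, if_pos (this.1 h)]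
      · simp only [if_neg h, if_neg (fun h' => h (this.2 h'))]
    rw [e1]
    refine le_trans (le_of_eq ?_) (g3 Nk).2
    unfold nuI
    have e2 : (∀ p ∈ PS W z, ∀ i, ¬ (p : ℤ) ∣ F ((W * (K + t i) + b : ℕ) : ℤ)) ↔
        ∀ p ∈ PS W z, ¬ p ∣ Nk := by
      constructor
      · intro h p hp hd
        obtain ⟨i, hi⟩ := (hdiv p hp).1 hd
        exact h p hp i hi
      · intro h p hp i hi
        exact h p hp ((hdiv p hp).2 ⟨i, hi⟩)
    by_cases h : ∀ p ∈ PS W z, ¬ p ∣ Nk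
    · rw [if_pos h, if_pos (e2.2 h)]
    · rw [if_neg h, if_neg (fun h' => h (e2.1 h'))]
  · obtain ⟨-, -, a3, a4⟩ := g4 (fun p => (rhoT F W b t p : ℝ) / p) (by
      intro p hp
      obtain ⟨h1, h2, h3⟩ := hPmem p hp
      have hpW : ¬ p ∣ W := by
        rw [PS, mem_filter] at hp
        exact hp.2.2
      have hp2 : (2 : ℝ) ≤ p := by exact_mod_cast h1.two_le
      have h4 : rhoT F W b t p ≤ m * rt F p :=
        Pool.Agent.Y833.RSZ.rhoT_le h1 (hF.per p h1) W b t hpW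
      have h5 : rhoT F W b t p ≤ g * m := by
        refine h4.trans ?_
        rw [mul_comm g m]
        exact Nat.mul_le_mul_left _ (hF.root p h1).1
      have h6 : (rhoT F W b t p : ℝ) ≤ ((g * m : ℕ) : ℝ) := by exact_mod_cast h5
      constructor
      · positivity
      · exact div_le_div₀ (by positivity) h6 (by linarith) (by linarith))
    unfold Vp
    exact ⟨a3, a4⟩

end Pool.Agent.H543.MQ
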