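import Pool.Agent.H543.DD.Ty7

/-!
# Bounded factorable weights on all primes `p ≥ Y ^ ε₁`, the second factor on primes `p ≥ Y ^ ε₂`
-/

set_option autoImplicit false

namespace Pool.Agent.H543.MQ

open Finset Filter
open Pool.Agent.W23.DC
open Pool.Agent.Y882
open Pool.Agent.Y882.KW
open Pool.Agent.H543.DD

/-- values on functions with the same values on `P` -/
theorem VV_mono_congr (P : Finset ℕ) (c : Finset ℕ → ℝ) (g g' : ℕ → ℝ) (h : ∀ p ∈ P, g p = g' p) :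
    VV P c g = VV P c g' := by
  unfold VV
  apply sum_congr rfl
  intro T hT
  rw [mem_powerset] at hT
  rw [prod_congr rfl fun p hp => h p (hT hp)]

/-- the value is affine in every coordinate -/
theorem VV_mono_affine (P : Finset ℕ) (c : Finset ℕ → ℝ) (g : ℕ → ℝ) (p : ℕ) :
    VV P c g = g p * VV P c (Function.update g p 1) +
      (1 - g p) * VV P c (Function.update g p 0) := by
  unfold VV
  rw [mul_sum, mul_sum, ← sum_add_distrib]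
  apply sum_congr rfl
  intro T _
  by_cases hp : p ∈ T
  · have e : ∀ x : ℝ, ∏ q ∈ T, Function.update g p x q = x * ∏ q ∈ T.erase p, g q := by
      intro x
      rw [← mul_prod_erase T _ hp, Function.update_self]
      congr 1
      apply prod_congr rfl
      intro q hq
      rw [Function.update_of_ne (ne_of_mem_erase hq)]
    have e2 : ∏ q ∈ T, g q = g p * ∏ q ∈ T.erase p, g q := (mul_prod_erase T _ hp).symm
    rw [e, e, e2]
    ring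
  · have e : ∀ x : ℝ, ∏ q ∈ T, Function.update g p x q = ∏ q ∈ T, g q := by
      intro x
      apply prod_congr rfl
      intro q hq
      rw [Function.update_of_ne]
      rintro rfl
      exact hp hq
    rw [e, e]
    ring

/-- **MQ6a.** Sieve inequalities are preserved by taking expectations over random integers: pointwise inequalities for all
`N` give the inequality for every density `0 ≤ g ≤ 1`.

Proof. Induction on `P` (or directly): `VV P c g = ∑ U ∈ P.powerset, (∏ p ∈ U, g p) * (∏ p ∈ P \ U, (1 - g p)) *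
VV P c (fun p => if p ∈ U then 1 else 0)` (multilinearity; `VV P c (if p ∈ U) = ∑ T ∈ U.powerset, c T`; exchange the sums and use
`∑ U with T ⊆ U ⊆ P of the products = ∏ p ∈ T, g p`), and for `U ⊆ P` the integer `N = ∏ p ∈ U, p` has `p ∣ N ↔ p ∈ U` for `p ∈ P`. -/
theorem VV_mono (P : Finset ℕ) (hP : ∀ p ∈ P, p.Prime) (c c' : Finset ℕ → ℝ)
    (h : ∀ N : ℕ, VV P c (fun p => if p ∣ N then 1 else 0) ≤
      VV P c' (fun p => if p ∣ N then 1 else 0))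
    (g : ℕ → ℝ) (hg : ∀ p ∈ P, 0 ≤ g p ∧ g p ≤ 1) : VV P c g ≤ VV P c' g := by
  classical
  have key : ∀ S : Finset ℕ, ∀ g : ℕ → ℝ, (∀ p ∈ P, 0 ≤ g p ∧ g p ≤ 1) →
      (∀ p ∈ P, p ∉ S → g p = 0 ∨ g p = 1) → VV P c g ≤ VV P c' g := by
    intro S
    induction S using Finset.induction_on with
    | empty =>
      intro g _ h01
      have e : ∀ p ∈ P, g p = (fun p => if p ∣ ∏ q ∈ P.filter (fun q => g q = 1), q then
          (1 : ℝ) else 0) p := by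
        intro p hp
        simp only
        by_cases h1 : g p = 1
        · rw [if_pos, h1]
          exact dvd_prod_of_mem (fun q => q) (mem_filter.2 ⟨hp, h1⟩)
        · rw [if_neg]
          · exact (h01 p hp (notMem_empty p)).resolve_right h1
          · intro hd
            obtain ⟨q, hq, hpq⟩ := (Prime.dvd_finsetProd_iff (hP p hp).prime _).1 hd
            rw [mem_filter] at hq
            have := (Nat.prime_dvd_prime_iff_eq (hP p hp) (hP q hq.1)).1 hpq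
            subst this
            exact h1 hq.2
      rw [VV_mono_congr P c g _ e, VV_mono_congr P c' g _ e]
      exact h _
    | insert p S hpS ih =>
      intro g hg h01
      by_cases hp : p ∈ P
      · rw [VV_mono_affine P c g p, VV_mono_affine P c' g p]
        have h2 : ∀ x : ℝ, (x = 0 ∨ x = 1) → VV P c (Function.update g p x) ≤
            VV P c' (Function.update g p x) := by
          intro x hx
          apply ih
          · intro q hq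
            by_cases hqp : q = p
            · subst hqp
              rw [Function.update_self]
              rcases hx with rfl | rfl <;> norm_num
            · rw [Function.update_of_ne hqp]
              exact hg q hq
          · intro q hq hqS
            by_cases hqp : q = p
            · subst hqp
              rw [Function.update_self]
              exact hx
            · rw [Function.update_of_ne hqp]
              exact h01 q hq (fun h3 => (mem_insert.1 h3).elim hqp hqS)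
        have h3 := mul_le_mul_of_nonneg_left (h2 1 (Or.inr rfl)) (hg p hp).1
        have h4 := mul_le_mul_of_nonneg_left (h2 0 (Or.inl rfl)) (sub_nonneg.2 (hg p hp).2)
        exact add_le_add h3 h4
      · apply ih g hg
        intro q hq hqS
        apply h01 q hq
        intro h3
        rcases mem_insert.1 h3 with h3 | h3
        · subst h3
          exact hp hq
        · exact hqS h3
  exact key P g hg (fun p hp hp' => absurd hp hp')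

theorem exE1 (x : ℝ) (hx : 0 < x) : ∃ E : ℕ, 0 < E ∧ (1 : ℝ) / E ≤ x := by
  obtain ⟨m, hm⟩ := exists_nat_ge (1 / x)
  refine ⟨m + 1, by omega, ?_⟩
  have hm0 : (0 : ℝ) < ((m + 1 : ℕ) : ℝ) := by positivity
  rw [div_le_iff₀ hm0]
  rw [div_le_iff₀ hx] at hm
  push_cast
  nlinarith

theorem F_bd1 (A0 : ℝ) (F f : ℝ → ℝ) (hSF : SF A0 F f) (s : ℝ) (hs : 3 ≤ s) :
    F s ≤ 1 + A0 / s := by
  have h1 := hSF.eF s hs
  have hs0 : 0 < s := by linarith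
  have h2 : ∫ x in (3 : ℝ)..s, f (x - 1) ≤ ∫ x in (3 : ℝ)..s, (1 : ℝ) := by
    apply intervalIntegral.integral_mono_on hs
    · apply ContinuousOn.intervalIntegrable
      rw [Set.uIcc_of_le hs]
      apply ContinuousOn.comp (g := f) (f := fun x => x - 1) (t := Set.Ici 1) hSF.cf (by fun_prop)
      intro x hx
      rw [Set.mem_Ici]
      linarith [hx.1]
    · exact intervalIntegrable_const
    · intro x hx
      exact hSF.f1 _ (by linarith [hx.1])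
  rw [intervalIntegral.integral_const, smul_eq_mul, mul_one] at h2
  have h3 : s * F s ≤ s * (1 + A0 / s) := by
    have h4 : s * (1 + A0 / s) = s + A0 := by field_simp
    rw [h4]
    linarith
  exact le_of_mul_le_mul_left h3 hs0

theorem f_bd1 (A0 : ℝ) (F f : ℝ → ℝ) (hSF : SF A0 F f) (s : ℝ) (hs : 2 ≤ s) :
    1 - 2 / s ≤ f s := by
  have h1 := hSF.ef s hs
  have hs0 : 0 < s := by linarith
  have h2 : ∫ x in (2 : ℝ)..s, (1 : ℝ) ≤ ∫ x in (2 : ℝ)..s, F (x - 1) := by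
    apply intervalIntegral.integral_mono_on hs
    · exact intervalIntegrable_const
    · apply ContinuousOn.intervalIntegrable
      rw [Set.uIcc_of_le hs]
      apply ContinuousOn.comp (g := F) (f := fun x => x - 1) (t := Set.Ici 1) hSF.cF (by fun_prop)
      intro x hx
      rw [Set.mem_Ici]
      linarith [hx.1]
    · intro x hx
      exact hSF.F1 _ (by linarith [hx.1])
  rw [intervalIntegral.integral_const, smul_eq_mul, mul_one] at h2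
  have h3 : s * (1 - 2 / s) ≤ s * f s := by
    have h4 : s * (1 - 2 / s) = s - 2 := by field_simp
    rw [h4]
    linarith
  exact le_of_mul_le_mul_left h3 hs0

theorem fac_size1 (P P2 : Finset ℕ) (Y : ℕ) (hY : 1 ≤ Y) (α β : ℝ) (K : ℕ) (C : ℝ)
    (w : Finset ℕ → ℝ) (h : Fac P P2 Y α β K C w) (T : Finset ℕ) (hT : T ⊆ P) (hw : w T ≠ 0) :
    ((∏ p ∈ T, p : ℕ) : ℝ) ≤ (Y : ℝ) ^ (α + β) := by
  obtain ⟨ι, I, u, v, h1, h2, h3, h4, h5⟩ := h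
  rw [h5 T hT] at hw
  obtain ⟨i, hi, hw⟩ := exists_ne_zero_of_sum_ne_zero hw
  obtain ⟨U, hU, hw⟩ := exists_ne_zero_of_sum_ne_zero hw
  have e1 := (h3 i hi U (left_ne_zero_of_mul hw)).2
  have e2 := (h4 i hi (T \ U) (right_ne_zero_of_mul hw)).2
  have hY0 : (0 : ℝ) < Y := by exact_mod_cast hY
  rw [Real.rpow_add hY0, ← prod_sdiff (mem_powerset.1 hU), Nat.cast_mul, mul_comm]
  exact mul_le_mul e1 e2 (Nat.cast_nonneg _) (by positivity)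

open Classical in
theorem mer_sub1 (Y : ℕ) (g : ℕ → ℝ) (u v u' v' η η' : ℝ) (hu : u ≤ u') (hv : v' ≤ v) (hη : η ≤ η')
    (h : Mer (pr Y u v) (tt Y) g u v η) : Mer (pr Y u' v') (tt Y) g u' v' η' := by
  intro x y hx hxy hy
  have h1 := h x y (hu.trans hx) hxy (hy.trans hv)
  have h2 : (pr Y u' v').filter (fun p => x ≤ tt Y p ∧ tt Y p < y) =
      (pr Y u v).filter (fun p => x ≤ tt Y p ∧ tt Y p < y) := by
    ext p
    unfold pr
    simp only [mem_filter]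
    constructor
    · rintro ⟨⟨h3, h4, h5, h6⟩, h7, h8⟩
      exact ⟨⟨h3, h4, hu.trans h5, h6.trans_le hv⟩, h7, h8⟩
    · rintro ⟨⟨h3, h4, h5, h6⟩, h7, h8⟩
      exact ⟨⟨h3, h4, hx.trans h7, h8.trans_le hy⟩, h7, h8⟩
  rw [h2]
  exact h1.trans hη

theorem pr_union1 (Y : ℕ) (u v w : ℝ) (huv : u ≤ v) (hvw : v ≤ w) :
    pr Y u v ∪ pr Y v w = pr Y u w := by
  ext p
  unfold pr
  rw [mem_union, mem_filter, mem_filter, mem_filter]
  constructor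
  · rintro (⟨h6, h7, h8, h9⟩ | ⟨h6, h7, h8, h9⟩)
    · exact ⟨h6, h7, h8, h9.trans_le hvw⟩
    · exact ⟨h6, h7, huv.trans h8, h9⟩
  · rintro ⟨h6, h7, h8, h9⟩
    rcases lt_or_ge (tt Y p) v with h10 | h10
    · exact Or.inl ⟨h6, h7, h8, h10⟩
    · exact Or.inr ⟨h6, h7, h10, h9⟩

theorem pr_disj1 (Y : ℕ) (u v w : ℝ) : Disjoint (pr Y u v) (pr Y v w) := by
  rw [disjoint_left]
  intro p hp hp'
  unfold pr at hp hp'
  rw [mem_filter] at hp hp'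
  linarith [hp.2.2.2, hp'.2.2.1]

theorem ite_inst1 (p : Prop) (i j : Decidable p) : @ite ℝ p i 1 0 = @ite ℝ p j 1 0 := by
  by_cases h : p
  · rw [if_pos h, if_pos h]
  · rw [if_neg h, if_neg h]

/-- the final computation -/
theorem wts_num (Ac Bc κ e1 e2 a1 a2 a3 a4 : ℝ) (he1 : 0 < e1) (he2 : 0 < e2) (hκ0 : 0 < κ)
    (hκ1 : κ < 1) (hκ2 : 2 * κ * Bc ≤ Ac / 4) (hA : 0 < Ac)
    (h1 : a1 ≤ e1 / e2 * (1 + κ)) (h2 : e1 / e2 * (1 - κ) ≤ a2) (h3 : e2 * (Ac / 2) ≤ a3)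
    (h4 : a4 ≤ e2 * Bc) (h34 : a3 ≤ a4) :
    e1 * (Ac / 4) ≤ a1 * a3 + a2 * a4 - a1 * a4 := by
  have h30 : 0 ≤ a3 := le_trans (by positivity) h3
  have h40 : 0 ≤ a4 := h30.trans h34
  have e0 : 0 < e1 / e2 := by positivity
  have b1 : a1 * (a4 - a3) ≤ e1 / e2 * (1 + κ) * (a4 - a3) :=
    mul_le_mul_of_nonneg_right h1 (by linarith)
  have b2 : e1 / e2 * (1 - κ) * a4 ≤ a2 * a4 := mul_le_mul_of_nonneg_right h2 h40
  have b3 : 0 ≤ e1 / e2 * (κ * a3) := by positivity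
  have b4 : e1 / e2 * (2 * κ * a4) ≤ e1 / e2 * (2 * κ * (e2 * Bc)) := by
    apply mul_le_mul_of_nonneg_left _ e0.le
    exact mul_le_mul_of_nonneg_left h4 (by positivity)
  have b5 : e1 / e2 * (e2 * (Ac / 2)) ≤ e1 / e2 * a3 := mul_le_mul_of_nonneg_left h3 e0.le
  have b6 : e1 / e2 * (e2 * (Ac / 2)) = e1 * (Ac / 2) := by field_simp
  have b7 : e1 / e2 * (2 * κ * (e2 * Bc)) = e1 * (2 * κ * Bc) := by field_simp
  have b8 : e1 * (2 * κ * Bc) ≤ e1 * (Ac / 4) := mul_le_mul_of_nonneg_left hκ2 he1.le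
  have b9 : a1 * a3 + a2 * a4 - a1 * a4 = a2 * a4 - a1 * (a4 - a3) := by ring
  have b10 : e1 / e2 * (1 - κ) * a4 - e1 / e2 * (1 + κ) * (a4 - a3) =
      e1 / e2 * a3 + e1 / e2 * (κ * a3) - e1 / e2 * (2 * κ * a4) := by ring
  rw [b9]
  linarith

open Classical in
/-- **MQ6.** Weights of the weighted linear sieve on the primes of `pr Y (1 / E1) υ` which are bounded by `3 * (1 + a)`,
factorable with the second factor on the primes `≥ Y ^ (1 / E2)`, where `E2` does not depend on `E1`.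

Proof. Let `τm = α' - α`. Let `Ac = f ((α + β) / ζ) / ζ - A0 * ∫ ... > 0`, `Bc = F ((α + β) / ζ) / ζ + 1`, `κ ∈ (0, 1)` with `2 * κ * Bc ≤ Ac / 4`.
For `s ≥ 3`: `F s ≤ 1 + A0 / s` (from `SF.eF`, `f ≤ 1`) and `f s ≥ 1 - 2 / s` (from `SF.ef`, `F ≥ 1`). Choose `E2` so large that, with
`ε₂ = 1 / E2`: `ε₂ ≤ ζ`, `ε₂ ≤ β`, `2 * ε₂ < τm / 2`, `s := τm / ε₂ ≥ 3`, `A0 / s ≤ κ / 2`, `2 / s ≤ κ / 2`.
High part: `prov` (file `Pool/Agent/H543/DD/Ty6.lean`) for `α β ζ υ a b`, `δ = min (Ac / 2) 1`, `E = E2`: `hU, hL` on `Ph = pr Y ε₂ υ`.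
Middle part (`e1 = min ε₂ (τm / 2)`, `1 / E1 ≤ e1`): `prov` with `α = β = τm / 2`, `ζ = υ = ε₂`, `a = b = 0`, `δ = κ / 2 / ε₂`, `E = E1`: `mU, mL` on
`Pm = pr Y (1 / E1) ε₂`, `|mU|, |mL| ≤ 1`; the integral is `0`; `mU T ≠ 0` or `mL T ≠ 0`, `T ⊆ Pm` gives `∏ p ∈ T, p ≤ Y ^ τm` (from `Fac`).
`WB Y (1 / E1) ε₂ ε₂ 0 0 N = if ∀ p ∈ pr Y (1 / E1) ε₂, ¬ p ∣ N then 1 else 0`.
`w T = mU (T ∩ Pm) * hL (T ∩ Ph) + mL (T ∩ Pm) * hU (T ∩ Ph) - mU (T ∩ Pm) * hU (T ∩ Ph)`.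
Factorable: `fac_prod` (with `γ = mU`, `mL`, `δ = τm`, `G = 1`), `fac_add`, `fac_neg`, `fac_mono`, `fac_congr` (file `Ty3.lean`), as in the proof of
`coreF` (file `Ty8.lean`). Values: `VV_union` (as `hVW` in `coreF`). Pointwise inequality: `core_ineq` (file `Ty7.lean`) with `P0 = ∅`, `P1 = Pm`,
`ζs = pr Y ε₂ ζ`, `Pζ = pr Y (1 / E1) ζ = Pm ∪ pr Y ε₂ ζ`. Size of `w T ≠ 0`: from the `Fac` statement (`w T = ∑ ∑ u i U * v i (T \ U)`).
Main term with `a1 = VV Pm mU g`, `a2 = VV Pm mL g`, `a3 = VV Ph hL g`, `a4 = VV Ph hU g`, `e = (1 / E1) / ε₂`: `a1 ≤ e * (1 + κ)`, `a2 ≥ e * (1 - κ)`,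
`a3 ≥ ε₂ * (Ac / 2) ≥ 0`, `a4 ≤ ε₂ * Bc`, and `a3 ≤ a4` by `VV_mono` (pointwise `hL ≤ WB ≤ indicator ≤ hU`). Then
`a1 * a3 + a2 * a4 - a1 * a4 = a2 * a4 - a1 * (a4 - a3) ≥ e * (1 - κ) * a4 - e * (1 + κ) * (a4 - a3) ≥ e * (a3 - 2 * κ * a4) ≥
(1 / E1) * (Ac / 2 - 2 * κ * Bc) ≥ (1 / E1) * (Ac / 4)`, so `f0 = Ac / 4`. The condition `Mer` for `g` on `pr Y (1 / E1) υ` restricts to both parts
(as `hMζ` in the proof of `coreF`); `η = min` of the two. -/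
theorem wts (A0 : ℝ) (F f : ℝ → ℝ) (hSF : SF A0 F f) (α β ζ υ a b α' : ℝ) (hζ : 0 < ζ)
    (hζq : ∃ q : ℚ, (q : ℝ) = ζ) (h2 : 2 * ζ < α + β) (h5 : ζ < υ → α + β ≤ 5 * ζ)
    (hζυ : ζ ≤ υ) (hυα : υ < α) (hβ : 0 < β) (ha : 0 ≤ a) (hb : 0 ≤ b) (hab : b * υ ≤ a)
    (hα : α < α') (hα1 : α' + β ≤ 1)
    (hfs : 0 < f ((α + β) / ζ) / ζ - A0 * (∫ x in ζ..υ, (a - b * x) * Phi ζ (α + β - x) / x)) :
    ∃ E2 : ℕ, 0 < E2 ∧ (1 : ℝ) / E2 ≤ ζ ∧ ∃ f0 e1 : ℝ, 0 < f0 ∧ 0 < e1 ∧ e1 ≤ 1 / E2 ∧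
      ∀ E1 : ℕ, 0 < E1 → (1 : ℝ) / E1 ≤ e1 → ∃ (η : ℝ) (Kf : ℕ), 0 < η ∧
        ∀ Y : ℕ, 2 ≤ Y → ∃ w : Finset ℕ → ℝ, (∀ T, |w T| ≤ 3 * (1 + a)) ∧
          Fac (pr Y (1 / E1) υ) (pr Y (1 / E2) υ) Y α' β Kf (1 + a) w ∧
          (∀ T ⊆ pr Y (1 / E1) υ, w T ≠ 0 → ((∏ p ∈ T, p : ℕ) : ℝ) ≤ (Y : ℝ) ^ (α' + β)) ∧
          (∀ N : ℕ, VV (pr Y (1 / E1) υ) w (fun p => if p ∣ N then 1 else 0) ≤
            WB Y (1 / E1) ζ υ a b N) ∧
          ∀ g : ℕ → ℝ, (∀ p ∈ pr Y (1 / E1) υ, 0 ≤ g p ∧ g p ≤ 1) →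
            Mer (pr Y (1 / E1) υ) (tt Y) g (1 / E1) υ η →
            (1 / E1) * f0 ≤ VV (pr Y (1 / E1) υ) w g := by
  have hA0 := hSF.pos
  obtain ⟨τm, hτm⟩ : ∃ x : ℝ, x = α' - α := ⟨_, rfl⟩
  have hτm0 : 0 < τm := by linarith
  have hτ1 : α + β ≤ 1 := by linarith
  have hα0 : 0 < α := by linarith
  have hτm1 : τm ≤ 1 := by linarith
  obtain ⟨Ac, hAc⟩ : ∃ x : ℝ, x = f ((α + β) / ζ) / ζ -
    A0 * (∫ x in ζ..υ, (a - b * x) * Phi ζ (α + β - x) / x) := ⟨_, rfl⟩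
  rw [← hAc] at hfs
  obtain ⟨Bc, hBc⟩ : ∃ x : ℝ, x = F ((α + β) / ζ) / ζ + 1 := ⟨_, rfl⟩
  have hs1 : 1 ≤ (α + β) / ζ := by rw [le_div_iff₀ hζ]; linarith
  have hF1 := hSF.F1 _ hs1
  have hBc0 : 0 < Bc := by
    have : 0 < F ((α + β) / ζ) / ζ := div_pos (by linarith) hζ
    linarith
  obtain ⟨κ, hκ0, hκ1, hκ2⟩ : ∃ κ : ℝ, 0 < κ ∧ κ < 1 ∧ 2 * κ * Bc ≤ Ac / 4 := by
    refine ⟨min (1 / 2) (Ac / (8 * Bc)), lt_min (by norm_num) (by positivity),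
      lt_of_le_of_lt (min_le_left _ _) (by norm_num), ?_⟩
    have h6 : min (1 / 2) (Ac / (8 * Bc)) ≤ Ac / (8 * Bc) := min_le_right _ _
    have h7 : min (1 / 2) (Ac / (8 * Bc)) * Bc ≤ Ac / (8 * Bc) * Bc :=
      mul_le_mul_of_nonneg_right h6 hBc0.le
    have h8 : Ac / (8 * Bc) * Bc = Ac / 8 := by field_simp
    linarith
  obtain ⟨E2, hE2, hE2m⟩ := exE1 (min (min ζ β) (min (τm / 8) (min (κ * τm / (2 * A0))
    (κ * τm / 4)))) (lt_min (lt_min hζ hβ) (lt_min (by positivity) (lt_min (by positivity)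
      (by positivity))))
  have hE20 : (0 : ℝ) < E2 := by exact_mod_cast hE2
  obtain ⟨ε₂, hε₂⟩ : ∃ x : ℝ, x = 1 / (E2 : ℝ) := ⟨_, rfl⟩
  have hε20 : 0 < ε₂ := by rw [hε₂]; positivity
  rw [← hε₂] at hE2m
  have m1 : ε₂ ≤ ζ := hE2m.trans ((min_le_left _ _).trans (min_le_left _ _))
  have m2 : ε₂ ≤ β := hE2m.trans ((min_le_left _ _).trans (min_le_right _ _))
  have m3 : ε₂ ≤ τm / 8 := hE2m.trans ((min_le_right _ _).trans (min_le_left _ _))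
  have m4 : ε₂ ≤ κ * τm / (2 * A0) :=
    hE2m.trans ((min_le_right _ _).trans ((min_le_right _ _).trans (min_le_left _ _)))
  have m5 : ε₂ ≤ κ * τm / 4 :=
    hE2m.trans ((min_le_right _ _).trans ((min_le_right _ _).trans (min_le_right _ _)))
  -- the value at s = τm / ε₂
  have hsF : F ((τm / 2 + τm / 2) / ε₂) ≤ 1 + κ / 2 := by
    have h6 : 3 ≤ (τm / 2 + τm / 2) / ε₂ := by rw [le_div_iff₀ hε20]; linarith
    refine (F_bd1 A0 F f hSF _ h6).trans ?_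
    have h7 : A0 / ((τm / 2 + τm / 2) / ε₂) ≤ κ / 2 := by
      rw [div_div_eq_mul_div, div_le_iff₀ (by linarith)]
      rw [le_div_iff₀ (by positivity)] at m4
      linarith
    linarith
  have hsf : 1 - κ / 2 ≤ f ((τm / 2 + τm / 2) / ε₂) := by
    have h6 : 2 ≤ (τm / 2 + τm / 2) / ε₂ := by rw [le_div_iff₀ hε20]; linarith
    refine le_trans ?_ (f_bd1 A0 F f hSF _ h6)
    have h7 : 2 / ((τm / 2 + τm / 2) / ε₂) ≤ κ / 2 := by
      rw [div_div_eq_mul_div, div_le_iff₀ (by linarith)]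
      linarith
    linarith
  obtain ⟨K2, η₂, hη₂, H2⟩ := prov A0 F f hSF α β ζ υ a b hζ hζq h2 h5 hτ1 hζυ hυα hβ ha hb hab
    (min (Ac / 2) 1) (lt_min (by linarith) one_pos) E2 hE2 (by rw [← hε₂]; exact m1)
    (by rw [← hε₂]; exact m2)
  refine ⟨E2, hE2, by rw [← hε₂]; exact m1, Ac / 4, min (1 / (E2 : ℝ)) (τm / 2), by linarith,
    lt_min (by positivity) (by linarith), min_le_left _ _, ?_⟩
  intro E1 hE1 hE1m
  have hE10 : (0 : ℝ) < E1 := by exact_mod_cast hE1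
  have n1 : (1 : ℝ) / E1 ≤ ε₂ := by rw [hε₂]; exact hE1m.trans (min_le_left _ _)
  have n2 : (1 : ℝ) / E1 ≤ τm / 2 := hE1m.trans (min_le_right _ _)
  obtain ⟨K1, η₁, hη₁, H1⟩ := prov A0 F f hSF (τm / 2) (τm / 2) ε₂ ε₂ 0 0 hε20
    ⟨1 / (E2 : ℚ), by rw [hε₂]; push_cast; rfl⟩ (by linarith) (fun h => absurd h (lt_irrefl _))
    (by linarith) le_rfl (by linarith) (by linarith) le_rfl le_rfl (by simp)
    (κ / 2 / ε₂) (by positivity) E1 hE1 n1 n2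
  rw [← hε₂] at H2 ⊢
  obtain ⟨ε₁, hε₁⟩ : ∃ x : ℝ, x = 1 / (E1 : ℝ) := ⟨_, rfl⟩
  have hε10 : 0 < ε₁ := by rw [hε₁]; positivity
  rw [← hε₁] at n1 n2 H1 ⊢
  refine ⟨min η₁ η₂, 3 * K2, lt_min hη₁ hη₂, ?_⟩
  intro Y hY
  obtain ⟨hU, hL, q1, q2, q3, q4, q5⟩ := H2 Y hY
  obtain ⟨mU, mL, r1, r2, r3, r4, r5⟩ := H1 Y hY
  rw [← hAc] at q5
  have hY1 : 1 ≤ Y := by omega
  have hευ : ε₂ ≤ υ := m1.trans hζυ
  have hun : pr Y ε₁ ε₂ ∪ pr Y ε₂ υ = pr Y ε₁ υ := pr_union1 Y _ _ _ n1 hευ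
  have hunζ : pr Y ε₁ ε₂ ∪ pr Y ε₂ ζ = pr Y ε₁ ζ := pr_union1 Y _ _ _ n1 m1
  have hd : Disjoint (pr Y ε₁ ε₂) (pr Y ε₂ υ) := pr_disj1 Y _ _ _
  have hprime : ∀ p ∈ pr Y ε₁ ε₂ ∪ pr Y ε₂ υ, p.Prime := by
    intro p hp
    rw [hun] at hp
    unfold pr at hp
    rw [mem_filter] at hp
    exact hp.2.1
  have r1L : ∀ U, |mL U| ≤ 1 := fun U => by
    have := (r1 U).2
    rwa [add_zero] at this
  have hVW : ∀ (x y : Finset ℕ → ℝ) (g : ℕ → ℝ), VV (pr Y ε₁ υ)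
      (fun T => x (T ∩ pr Y ε₁ ε₂) * y (T ∩ pr Y ε₂ υ)) g =
      VV (pr Y ε₁ ε₂) x g * VV (pr Y ε₂ υ) y g := by
    intro x y g
    rw [← hun]
    exact VV_union (pr Y ε₁ ε₂) (pr Y ε₂ υ) hd x y g
  have hVVw : ∀ g : ℕ → ℝ, VV (pr Y ε₁ υ) (fun T =>
      mU (T ∩ pr Y ε₁ ε₂) * hL (T ∩ pr Y ε₂ υ) + mL (T ∩ pr Y ε₁ ε₂) * hU (T ∩ pr Y ε₂ υ) -
        mU (T ∩ pr Y ε₁ ε₂) * hU (T ∩ pr Y ε₂ υ)) g =
      VV (pr Y ε₁ ε₂) mU g * VV (pr Y ε₂ υ) hL g + VV (pr Y ε₁ ε₂) mL g * VV (pr Y ε₂ υ) hU g -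
        VV (pr Y ε₁ ε₂) mU g * VV (pr Y ε₂ υ) hU g := by
    intro g
    rw [← hVW, ← hVW, ← hVW]
    unfold VV
    rw [← sum_add_distrib, ← sum_sub_distrib]
    refine sum_congr rfl fun T _ => ?_
    ring
  have hfW : ∀ (γ y : Finset ℕ → ℝ) (K : ℕ), (∀ U, |γ U| ≤ 1) →
      Fac (pr Y ε₁ ε₂) (pr Y ε₁ ε₂) Y (τm / 2) (τm / 2) K1 (1 + 0) γ →
      Fac (pr Y ε₂ υ) (pr Y ε₂ υ) Y α β K (1 + a) y →
      Fac (pr Y ε₁ υ) (pr Y ε₂ υ) Y α' β K (1 + a)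
        (fun T => γ (T ∩ pr Y ε₁ ε₂) * y (T ∩ pr Y ε₂ υ)) := by
    intro γ y K hγ hγF hy
    have h6 := fac_prod (pr Y ε₁ ε₂) (pr Y ε₂ υ) hd hprime Y hY1 α β τm K (1 + a) 1 y hy γ hγ
      zero_le_one (by linarith) (fun U hU' hne => by
        have h7 := fac_size1 _ _ Y hY1 _ _ _ _ _ hγF U hU' hne
        have h8 : τm / 2 + τm / 2 = τm := by ring
        rwa [h8] at h7)
    rw [hun] at h6
    exact fac_mono _ _ Y hY1 _ β α' β _ _ _ _ _ h6 (by linarith) le_rfl le_rfl (by linarith)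
  have hFac : Fac (pr Y ε₁ υ) (pr Y ε₂ υ) Y α' β (3 * K2) (1 + a) (fun T =>
      mU (T ∩ pr Y ε₁ ε₂) * hL (T ∩ pr Y ε₂ υ) + mL (T ∩ pr Y ε₁ ε₂) * hU (T ∩ pr Y ε₂ υ) -
        mU (T ∩ pr Y ε₁ ε₂) * hU (T ∩ pr Y ε₂ υ)) := by
    have f1 := hfW mU hL K2 (fun U => (r1 U).1) r2 q3
    have f2 := hfW mL hU K2 r1L r3 q2
    have f3 := hfW mU hU K2 (fun U => (r1 U).1) r2 q2
    have h6 := fac_add _ _ _ _ _ _ _ _ _ _ (fac_add _ _ _ _ _ _ _ _ _ _ f1 f2)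
      (fac_neg _ _ _ _ _ _ _ _ f3)
    have h7 := fac_mono _ _ Y hY1 α' β α' β _ (3 * K2) _ _ _ h6 le_rfl le_rfl (by omega) le_rfl
    apply fac_congr _ _ _ _ _ _ _ _ _ h7
    intro T _
    ring
  have hS0 : ∀ N : ℕ, 0 ≤ ∑ q ∈ pr Y ζ υ, (a - b * tt Y q) * (if q ∣ N then (1 : ℝ) else 0) := by
    intro N
    apply sum_nonneg
    intro q hq
    unfold pr at hq
    rw [mem_filter] at hq
    have h6 : b * tt Y q ≤ b * υ := mul_le_mul_of_nonneg_left hq.2.2.2.le hb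
    apply mul_nonneg (by linarith)
    split_ifs <;> norm_num
  refine ⟨fun T => mU (T ∩ pr Y ε₁ ε₂) * hL (T ∩ pr Y ε₂ υ) +
    mL (T ∩ pr Y ε₁ ε₂) * hU (T ∩ pr Y ε₂ υ) - mU (T ∩ pr Y ε₁ ε₂) * hU (T ∩ pr Y ε₂ υ), ?_, hFac,
    fun T hT hne => fac_size1 _ _ Y hY1 _ _ _ _ _ hFac T hT hne, ?_, ?_⟩
  · intro T
    have e1 : |mU (T ∩ pr Y ε₁ ε₂) * hL (T ∩ pr Y ε₂ υ)| ≤ 1 * (1 + a) := by
      rw [abs_mul]
      exact mul_le_mul (r1 _).1 (q1 _).2 (abs_nonneg _) zero_le_one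
    have e2 : |mL (T ∩ pr Y ε₁ ε₂) * hU (T ∩ pr Y ε₂ υ)| ≤ 1 * 1 := by
      rw [abs_mul]
      exact mul_le_mul (r1L _) (q1 _).1 (abs_nonneg _) zero_le_one
    have e3 : |mU (T ∩ pr Y ε₁ ε₂) * hU (T ∩ pr Y ε₂ υ)| ≤ 1 * 1 := by
      rw [abs_mul]
      exact mul_le_mul (r1 _).1 (q1 _).1 (abs_nonneg _) zero_le_one
    rw [abs_le] at e1 e2 e3 ⊢
    constructor
    · linarith [e1.1, e2.1, e3.2]
    · linarith [e1.2, e2.2, e3.1]
  · intro N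
    rw [hVVw]
    obtain ⟨t1, t2⟩ := r4 N
    obtain ⟨t3, t4⟩ := q4 N
    have t1' : VV (pr Y ε₁ ε₂) mL (fun p => if p ∣ N then 1 else 0) ≤
        (if ∀ p ∈ pr Y ε₁ ε₂, ¬ p ∣ N then 1 else 0) := by
      refine t1.trans (le_of_eq ?_)
      unfold WB
      simp
    have t2' : (if ∀ p ∈ pr Y ε₁ ε₂, ¬ p ∣ N then (1 : ℝ) else 0) ≤
        VV (pr Y ε₁ ε₂) mU (fun p => if p ∣ N then 1 else 0) :=
      le_trans (le_of_eq (ite_inst1 _ _ _)) t2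
    have t4' : (if ∀ p ∈ pr Y ε₂ ζ, ¬ p ∣ N then (1 : ℝ) else 0) ≤
        VV (pr Y ε₂ υ) hU (fun p => if p ∣ N then 1 else 0) :=
      le_trans (le_of_eq (ite_inst1 _ _ _)) t4
    have h6 := (core_ineq (pr Y ε₁ ε₂) ∅ (pr Y ε₁ ε₂) (pr Y ε₂ υ) (pr Y ε₁ ζ) (empty_union _)
      (pr Y ε₂ ζ) hunζ N _ (hS0 N) _ _ _ _ t1' t2' t3 t4').1
    have h7 : (if ∀ p ∈ (∅ : Finset ℕ), ¬ p ∣ N then (1 : ℝ) else 0) = 1 := by simp
    rw [h7, one_mul, one_mul] at h6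
    have h8 : WB Y ε₁ ζ υ a b N = (if ∀ p ∈ pr Y ε₁ ζ, ¬ p ∣ N then 1 else 0) *
        (1 - ∑ q ∈ pr Y ζ υ, (a - b * tt Y q) * (if q ∣ N then (1 : ℝ) else 0)) := rfl
    rw [h8]
    linarith
  · intro g hg hMer
    rw [hVVw]
    have hMm : Mer (pr Y ε₁ ε₂) (tt Y) g ε₁ ε₂ η₁ :=
      mer_sub1 Y g _ _ _ _ _ _ le_rfl hευ (min_le_left _ _) hMer
    have hMh : Mer (pr Y ε₂ υ) (tt Y) g ε₂ υ η₂ :=
      mer_sub1 Y g _ _ _ _ _ _ n1 le_rfl (min_le_right _ _) hMer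
    have hgm : ∀ p ∈ pr Y ε₁ ε₂, 0 ≤ g p := fun p hp =>
      (hg p (by rw [← hun]; exact mem_union_left _ hp)).1
    have hgh : ∀ p ∈ pr Y ε₂ υ, 0 ≤ g p ∧ g p ≤ 1 := fun p hp =>
      hg p (by rw [← hun]; exact mem_union_right _ hp)
    obtain ⟨t1, t2⟩ := r5 g hgm hMm
    obtain ⟨t3, t4⟩ := q5 g (fun p hp => (hgh p hp).1) hMh
    rw [intervalIntegral.integral_same, mul_zero, sub_zero] at t1
    have h34 : VV (pr Y ε₂ υ) hL g ≤ VV (pr Y ε₂ υ) hU g := by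
      apply VV_mono (pr Y ε₂ υ) (fun p hp => hprime p (mem_union_right _ hp)) hL hU _ g hgh
      intro N
      obtain ⟨t5, t6⟩ := q4 N
      have t6' : (if ∀ p ∈ pr Y ε₂ ζ, ¬ p ∣ N then (1 : ℝ) else 0) ≤
          VV (pr Y ε₂ υ) hU (fun p => if p ∣ N then 1 else 0) :=
        le_trans (le_of_eq (ite_inst1 _ _ _)) t6
      refine t5.trans (le_trans ?_ t6')
      unfold WB
      have h6 : (0 : ℝ) ≤ if ∀ p ∈ pr Y ε₂ ζ, ¬ p ∣ N then 1 else 0 := by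
        split_ifs <;> norm_num
      have h7 := hS0 N
      nlinarith
    apply wts_num Ac Bc κ ε₁ ε₂ _ _ _ _ hε10 hε20 hκ0 hκ1 hκ2 hfs _ _ _ _ h34
    · refine t2.trans ?_
      have h6 : ε₁ * (F ((τm / 2 + τm / 2) / ε₂) / ε₂ + κ / 2 / ε₂) =
          ε₁ / ε₂ * (F ((τm / 2 + τm / 2) / ε₂) + κ / 2) := by field_simp
      rw [h6]
      apply mul_le_mul_of_nonneg_left _ (by positivity)
      linarith
    · refine le_trans ?_ t1
      have h6 : ε₁ * (f ((τm / 2 + τm / 2) / ε₂) / ε₂ - κ / 2 / ε₂) =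
          ε₁ / ε₂ * (f ((τm / 2 + τm / 2) / ε₂) - κ / 2) := by field_simp
      rw [h6]
      apply mul_le_mul_of_nonneg_left _ (by positivity)
      linarith
    · refine le_trans ?_ t3
      apply mul_le_mul_of_nonneg_left _ hε20.le
      linarith [min_le_left (Ac / 2) 1]
    · refine t4.trans ?_
      apply mul_le_mul_of_nonneg_left _ hε20.le
      rw [hBc]
      linarith [min_le_right (Ac / 2) 1]

end Pool.Agent.H543.MQ
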