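import Pool.Agent.H543.MQ.Core1q
import Pool.Agent.H543.MQ.Pre
import Pool.Agent.H543.MQ.Wts
import Pool.Agent.H543.MQ.B1q
import Pool.Agent.H543.MQ.B1k
import Pool.Agent.H543.DD.Num

/-!
# Maynard's weights and values with at most two prime factors: the core
-/

set_option autoImplicit false
set_option linter.unusedSectionVars false

namespace Pool.Agent.H543.MQ

open Finset Filter
open Pool.Agent.R498.MT
open Pool.Agent.Y677.RSZ (rt Sys rhoT per_mod ev_log)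
open Pool.Agent.TH423.SH (PS)
open Pool.Agent.W23.DC
open Pool.Agent.Y882
open Pool.Agent.Y882.PX hiding gd
open Pool.Agent.Y882.KW
open Pool.Agent.Y346.PA (S_KL)
open Pool.Agent.H543.DD
open Pool.Agent.H543.DP (fv NV dt NS cF)

/-- the numerical condition -/
theorem num_pos (A0 : ℝ) (F f : ℝ → ℝ) (hSF : SF A0 F f) :
    0 < f ((49992 / 100000 + 416 / 10000 : ℝ) / pζ) / pζ -
      A0 * (∫ x in pζ..pυ, (pa - pb * x) * Phi pζ (49992 / 100000 + 416 / 10000 - x) / x) := by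
  have hA0 := hSF.pos
  have hαβ : (49992 / 100000 : ℝ) + 416 / 10000 = pτ := by unfold pτ; norm_num
  have hζ0 : 0 < pζ := by unfold pζ; norm_num
  have hτ0 : 0 < pτ := by unfold pτ; norm_num
  rw [hαβ]
  have h1 := f_ge A0 F f hSF (pτ / pζ) (by unfold pτ pζ; norm_num) (by unfold pτ pζ; norm_num)
  have h2 := num
  have h3 : A0 * Real.log (pτ / pζ - 1) / (pτ / pζ) / pζ = A0 * (Real.log (pτ / pζ - 1) / pτ) := by
    field_simp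
  have h4 : A0 * (∫ x in pζ..pυ, (pa - pb * x) * Phi pζ (pτ - x) / x) <
      A0 * (Real.log (pτ / pζ - 1) / pτ) := mul_lt_mul_of_pos_left h2 hA0
  have h5 := div_le_div_of_nonneg_right h1 hζ0.le
  rw [h3] at h5
  linarith

/-- the size of the remainders -/
theorem rem_size (N W L c k A' J C₂ b₀ : ℕ) (κ R ε₁ cV V Am : ℝ) (hN : 3 ≤ N) (hW : 1 ≤ W)
    (hκ : 0 < κ) (hκ1 : κ ≤ 1 / 100) (hR : 0 ≤ R) (hR1 : 12 * R ≤ κ / 4) (hcV : 0 < cV) (hAm : 1 ≤ Am)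
    (hJ2 : (2 : ℝ) ^ 2 ^ J ≤ ((N ^ 2 : ℕ) : ℝ) ^ (2 * ε₁)) (hεb : 2 * ε₁ * (C₂ * b₀) ≤ κ / 16)
    (hV : cV / (3 * Real.log ((N ^ 2 : ℕ) : ℝ)) ^ A' ≤ V) (hL : (N : ℝ) ^ (1 - κ) ≤ L)
    (e : Am ^ 2 * (2 ^ (k + 1)) ^ c * (2 * W) * (8 * 2 ^ k) * 6 ^ A' / cV * Real.log N ^ A' ≤
      (N : ℝ) ^ (κ / 2)) :
    Am ^ 2 * (((2 ^ (k + 1)) ^ c * ((N ^ 2 : ℕ) : ℝ) ^ (4 * R)) *
      (((((2 ^ 2 ^ J) ^ (C₂ * b₀) : ℕ) : ℝ)) ^ 2 * ((N ^ 2 : ℕ) : ℝ) ^ (2 * R) *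
        (((W * L : ℕ) : ℝ) * (N : ℝ) ^ (-κ) + 1))) ≤ L * V / (8 * 2 ^ k) := by
  have hNr : (3 : ℝ) ≤ N := by exact_mod_cast hN
  have hN0 : (0 : ℝ) < N := by linarith
  have hN1 : (1 : ℝ) ≤ N := by linarith
  have hWr : (1 : ℝ) ≤ W := by exact_mod_cast hW
  have hlN : 0 < Real.log N := Real.log_pos (by linarith)
  have hYp : ∀ x : ℝ, ((N ^ 2 : ℕ) : ℝ) ^ x = (N : ℝ) ^ (2 * x) := by
    intro x
    push_cast
    rw [← Real.rpow_natCast, ← Real.rpow_mul hN0.le]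
    norm_num
  have hlY : Real.log ((N ^ 2 : ℕ) : ℝ) = 2 * Real.log N := by
    push_cast
    rw [Real.log_pow]
    norm_num
  have hL0 : (0 : ℝ) < L := lt_of_lt_of_le (by positivity) hL
  -- the sum of the two errors
  have h1 : ((W * L : ℕ) : ℝ) * (N : ℝ) ^ (-κ) + 1 ≤ 2 * W * L * (N : ℝ) ^ (-κ) := by
    have h2 : 1 ≤ (L : ℝ) * (N : ℝ) ^ (-κ) := by
      calc (1 : ℝ) ≤ (N : ℝ) ^ (1 - 2 * κ) := Real.one_le_rpow hN1 (by linarith)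
        _ = (N : ℝ) ^ (1 - κ) * (N : ℝ) ^ (-κ) := by
            rw [← Real.rpow_add hN0]
            congr 1
            ring
        _ ≤ _ := mul_le_mul_of_nonneg_right hL (by positivity)
    have h3 : 1 ≤ (W : ℝ) * (L * (N : ℝ) ^ (-κ)) := one_le_mul_of_one_le_of_one_le hWr h2
    push_cast
    linarith
  -- the presieve
  have h2 : (((2 ^ 2 ^ J) ^ (C₂ * b₀) : ℕ) : ℝ) ≤ (N : ℝ) ^ (κ / 8) := by
    push_cast
    calc ((2 : ℝ) ^ 2 ^ J) ^ (C₂ * b₀) ≤ (((N ^ 2 : ℕ) : ℝ) ^ (2 * ε₁)) ^ (C₂ * b₀) :=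
          pow_le_pow_left₀ (by positivity) hJ2 _
      _ = ((N ^ 2 : ℕ) : ℝ) ^ (2 * ε₁ * (C₂ * b₀)) := by
          rw [← Real.rpow_natCast, ← Real.rpow_mul (by positivity)]
          push_cast
          ring_nf
      _ = (N : ℝ) ^ (2 * (2 * ε₁ * (C₂ * b₀))) := hYp _
      _ ≤ _ := Real.rpow_le_rpow_of_exponent_le hN1 (by linarith)
  have h3 : ((((2 ^ 2 ^ J) ^ (C₂ * b₀) : ℕ) : ℝ)) ^ 2 ≤ (N : ℝ) ^ (κ / 4) := by
    calc ((((2 ^ 2 ^ J) ^ (C₂ * b₀) : ℕ) : ℝ)) ^ 2 ≤ ((N : ℝ) ^ (κ / 8)) ^ 2 :=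
          pow_le_pow_left₀ (Nat.cast_nonneg _) h2 2
      _ = _ := by
          rw [← Real.rpow_natCast, ← Real.rpow_mul hN0.le]
          congr 1
          push_cast
          ring
  have h4 : ((N ^ 2 : ℕ) : ℝ) ^ (4 * R) * ((N ^ 2 : ℕ) : ℝ) ^ (2 * R) ≤ (N : ℝ) ^ (κ / 4) := by
    rw [hYp, hYp, ← Real.rpow_add hN0]
    apply Real.rpow_le_rpow_of_exponent_le hN1
    linarith
  have hc0 : (0 : ℝ) < (2 ^ (k + 1)) ^ c := by positivity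
  have hlog : Real.log N ^ A' * (8 * 2 ^ k) * 6 ^ A' / cV = Real.log N ^ A' * ((8 * 2 ^ k) * 6 ^ A' / cV) := by
    ring
  have h5 : Am ^ 2 * (((2 ^ (k + 1)) ^ c * ((N ^ 2 : ℕ) : ℝ) ^ (4 * R)) *
      (((((2 ^ 2 ^ J) ^ (C₂ * b₀) : ℕ) : ℝ)) ^ 2 * ((N ^ 2 : ℕ) : ℝ) ^ (2 * R) *
        (((W * L : ℕ) : ℝ) * (N : ℝ) ^ (-κ) + 1))) ≤
      Am ^ 2 * (2 ^ (k + 1)) ^ c * (2 * W) * L * (N : ℝ) ^ (-(κ / 2)) := by
    calc Am ^ 2 * (((2 ^ (k + 1)) ^ c * ((N ^ 2 : ℕ) : ℝ) ^ (4 * R)) *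
      (((((2 ^ 2 ^ J) ^ (C₂ * b₀) : ℕ) : ℝ)) ^ 2 * ((N ^ 2 : ℕ) : ℝ) ^ (2 * R) *
        (((W * L : ℕ) : ℝ) * (N : ℝ) ^ (-κ) + 1))) =
        Am ^ 2 * (2 ^ (k + 1)) ^ c * ((((2 ^ 2 ^ J) ^ (C₂ * b₀) : ℕ) : ℝ) ^ 2 *
          (((N ^ 2 : ℕ) : ℝ) ^ (4 * R) * ((N ^ 2 : ℕ) : ℝ) ^ (2 * R)) *
          (((W * L : ℕ) : ℝ) * (N : ℝ) ^ (-κ) + 1)) := by ring
      _ ≤ Am ^ 2 * (2 ^ (k + 1)) ^ c * ((N : ℝ) ^ (κ / 4) * (N : ℝ) ^ (κ / 4) *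
          (2 * W * L * (N : ℝ) ^ (-κ))) := by
          apply mul_le_mul_of_nonneg_left _ (by positivity)
          apply mul_le_mul _ h1 (by positivity) (by positivity)
          exact mul_le_mul h3 h4 (by positivity) (by positivity)
      _ = Am ^ 2 * (2 ^ (k + 1)) ^ c * (2 * W) * L * ((N : ℝ) ^ (κ / 4) * (N : ℝ) ^ (κ / 4) *
          (N : ℝ) ^ (-κ)) := by ring
      _ = _ := by
          rw [← Real.rpow_add hN0, ← Real.rpow_add hN0]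
          congr 2
          ring
  refine h5.trans ?_
  have h6 : cV / (6 * Real.log N) ^ A' ≤ V := by
    refine le_trans (le_of_eq ?_) hV
    rw [hlY]
    congr 2
    ring
  rw [le_div_iff₀ (by positivity)]
  refine le_trans ?_ (mul_le_mul_of_nonneg_left h6 hL0.le)
  rw [Real.rpow_neg hN0.le, mul_pow, mul_div_assoc', le_div_iff₀ (by positivity)]
  have hP : 0 < (N : ℝ) ^ (κ / 2) := by positivity
  rw [div_mul_eq_mul_div, div_le_iff₀ hcV] at e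
  have h7 : Am ^ 2 * (2 ^ (k + 1)) ^ c * (2 * W) * L * ((N : ℝ) ^ (κ / 2))⁻¹ * (8 * 2 ^ k) *
      (6 ^ A' * Real.log N ^ A') = (L * ((N : ℝ) ^ (κ / 2))⁻¹) *
      (Am ^ 2 * (2 ^ (k + 1)) ^ c * (2 * W) * (8 * 2 ^ k) * 6 ^ A' * Real.log N ^ A') := by ring
  rw [h7]
  calc (L * ((N : ℝ) ^ (κ / 2))⁻¹) *
      (Am ^ 2 * (2 ^ (k + 1)) ^ c * (2 * W) * (8 * 2 ^ k) * 6 ^ A' * Real.log N ^ A') ≤
      (L * ((N : ℝ) ^ (κ / 2))⁻¹) * ((N : ℝ) ^ (κ / 2) * cV) :=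
        mul_le_mul_of_nonneg_left e (by positivity)
    _ = L * cV := by field_simp

end Pool.Agent.H543.MQ
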