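import Pool.Graph.R_seed8.R498.MT.Asm

/-!
# Maynard's weights with a sieve whose level is only known on average: definitions
-/

set_option autoImplicit false
set_option linter.unusedSectionVars false

namespace Pool.Agent.H543.MQ

open Finset
open Pool.Agent.R498.MT

/-- the probability of a colour -/
noncomputable def pm {J : Type} [Fintype J] (q : ℝ) : Option J → ℝ
  | none => 1 - (Fintype.card J : ℝ) / q
  | some _ => 1 / q

section
variable {S : Type} [Fintype S] [DecidableEq S]

/-- the expectation over independent colours -/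
noncomputable def EM (k : ℕ) (q : S → ℝ) (Φ : (S → Option (Fin (2 ^ k))) → ℝ) : ℝ :=
  ∑ x : S → Option (Fin (2 ^ k)), (∏ t, pm (q t) (x t)) * Φ x

/-- the squared weight which does not see the slot `i`, times the sieve at the slot `i` -/
noncomputable def Ph (k : ℕ) (q μ l : S → ℝ) (R : ℝ) (i : Fin (2 ^ k)) (cL : Finset S → ℝ)
    (x : S → Option (Fin (2 ^ k))) : ℝ :=
  Lam (some i) q μ (yf l R k) x ^ 2 * ∑ T, cL T * (if ∀ t ∈ T, x t = some i then 1 else 0)

/-- the remainder condition -/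
def Rem (k : ℕ) (q l : S → ℝ) (R : ℝ) (i : Fin (2 ^ k)) (cL : Finset S → ℝ) (N : Finset ℕ)
    (θ : ℕ → ℝ) (ξ : ℕ → S → Option (Fin (2 ^ k))) (X B : ℝ) : Prop :=
  ∀ V : S → Option (Fin (2 ^ k)), (∀ t, V t ≠ some i) → lt l V ≤ 2 * R →
    |∑ T, cL T * (∑ n ∈ N, θ n * ((if Sub V (ξ n) then 1 else 0) *
        (if ∀ t ∈ T, ξ n t = some i then 1 else 0)) -
      X * ((∏ t, rr (fun _ : Fin (2 ^ k) => 1 / q t) (V t)) *
        (if ∀ t ∈ T, V t = none then ∏ t ∈ T, 1 / q t else 0)))| ≤ B

end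

end Pool.Agent.H543.MQ
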