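import Pool.Agent.H543.MQ.Core3
import Pool.Agent.H543.DP.Fin1
import Pool.Graph.R_seed8.R498.MT.QGen

/-!
# Clusters of values with at most two prime factors, in narrow progressions
-/

set_option autoImplicit false
set_option linter.unusedSectionVars false

namespace Pool.Agent.H543.MQ

open Finset Filter Polynomial
open Pool.Agent.R498.MT
open Pool.Agent.Y677.RSZ (rt Sys rhoT per_mod ev_log V eng_all)
open Pool.Agent.TH423.SH (PS)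
open Pool.Agent.W23.DC
open Pool.Agent.Y882
open Pool.Agent.Y882.PX hiding gd
open Pool.Agent.Y882.KW
open Pool.Agent.Y346.PA (S_KL)
open Pool.Agent.H543.DD
open Pool.Agent.H543.DP (fv NV dt NS cF)

/-- the numerical conditions -/
theorem nums2 (W n₀ KP H₀ q0 N₀ NT a b CG : ℕ) (κ c1 c2 : ℝ) (hW : 2 ≤ W)
    (hκ : 0 < κ) (hκ1 : κ ≤ 1 / 100) :
    ∀ᶠ N : ℕ in atTop, (5 ≤ N ∧ N₀ ≤ N ∧ n₀ ≤ N ∧ (KP : ℝ) ≤ N ∧
      (q0 : ℝ) + 2 ≤ ((N ^ 2 : ℕ) : ℝ) ^ pζ ∧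
      ((3 * N + W * NT + 1 : ℕ) : ℝ) ≤ (N : ℝ) ^ 2 ∧
      W * NT + 4 * W + 4 * b + 4 ≤ N ∧
      c1 * Real.log ((N ^ 2 : ℕ) : ℝ) ^ a ≤ ((N ^ 2 : ℕ) : ℝ) ^ pζ ∧
      c2 * Real.log ((N ^ 2 : ℕ) : ℝ) ^ a ≤ ((N ^ 2 : ℕ) : ℝ) ^ (99 / 200 - 9 / 20 : ℝ) ∧
      (16 * CG + 1 : ℝ) < ((N ^ 2 : ℕ) : ℝ) ^ (1 / 50 : ℝ) ∧
      pb * Real.log ((16 * CG + 1 : ℕ) : ℝ) ≤ (3 * pa - pb - 1) * Real.log ((N ^ 2 : ℕ) : ℝ)) ∧
      ∀ X : ℕ, (N : ℝ) ^ (1 - κ / 2) ≤ X → 2 * X ≤ N →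
      ∃ L : ℕ, W * (L + 2) ≤ X ∧ (N : ℝ) ^ (1 - κ) ≤ L ∧
        H₀ ≤ W * L ∧ 2 * (W * L) ≤ N ∧ (N : ℝ) ^ (1 / 2 : ℝ) ≤ L ∧ X ≤ 4 * (W * L) := by
  have hT := tendsto_natCast_atTop_atTop (R := ℝ)
  have hT2 : Tendsto (fun N : ℕ => N ^ 2) atTop atTop := tendsto_pow_atTop (by norm_num)
  have hζ : 0 < pζ := by unfold pζ; norm_num
  have v1 : ∀ᶠ N : ℕ in atTop, (q0 : ℝ) + 2 ≤ ((N ^ 2 : ℕ) : ℝ) ^ pζ :=
    (((tendsto_rpow_atTop hζ).comp hT).comp hT2).eventually_ge_atTop _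
  have v2 : ∀ᶠ N : ℕ in atTop, (16 * CG + 1 : ℝ) < ((N ^ 2 : ℕ) : ℝ) ^ (1 / 50 : ℝ) :=
    (((tendsto_rpow_atTop (by norm_num)).comp hT).comp hT2).eventually_gt_atTop _
  have v3 := hT2.eventually (ev_log a c1 pζ hζ)
  have v4 := hT2.eventually (ev_log a c2 (99 / 200 - 9 / 20) (by norm_num))
  have v5 : ∀ᶠ N : ℕ in atTop, (6 * W : ℝ) ≤ (N : ℝ) ^ (κ / 2) :=
    ((tendsto_rpow_atTop (by positivity)).comp hT).eventually_ge_atTop _
  have v6 : ∀ᶠ N : ℕ in atTop, (3 : ℝ) + H₀ ≤ (N : ℝ) ^ (1 - κ) :=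
    ((tendsto_rpow_atTop (by linarith)).comp hT).eventually_ge_atTop _
  have v7 : ∀ᶠ N : ℕ in atTop, pb * Real.log ((16 * CG + 1 : ℕ) : ℝ) / (3 * pa - pb - 1) ≤
      Real.log ((N ^ 2 : ℕ) : ℝ) :=
    ((Real.tendsto_log_atTop.comp hT).comp hT2).eventually_ge_atTop _
  filter_upwards [eventually_ge_atTop 5, eventually_ge_atTop N₀, eventually_ge_atTop n₀,
    eventually_ge_atTop KP, eventually_ge_atTop (W * NT + 4 * W + 4 * b + 4), v1, v2, v3, v4, v5,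
    v6, v7] with N e1 e2 e3 e4 e5 w1 w2 w3 w4 w5 w6 w7
  have hNr : (5 : ℝ) ≤ N := by exact_mod_cast e1
  have hN0 : (0 : ℝ) < N := by linarith
  have hN1 : (1 : ℝ) ≤ N := by linarith
  have hWr : (2 : ℝ) ≤ W := by exact_mod_cast hW
  refine ⟨⟨e1, e2, e3, by exact_mod_cast e4, w1, ?_, e5, w3, w4, w2, ?_⟩, ?_⟩
  · have h1 : 3 * N + W * NT + 1 ≤ N ^ 2 := by
      have h3 : W * NT + 1 ≤ N := by omega
      nlinarith
    exact_mod_cast h1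
  · rw [div_le_iff₀ (by unfold pa pb; norm_num)] at w7
    linarith
  · intro Q hQ1 hQN'
    have hsplit : (N : ℝ) ^ (1 - κ / 2) = (N : ℝ) ^ (1 - κ) * (N : ℝ) ^ (κ / 2) := by
      rw [← Real.rpow_add hN0]
      congr 1
      ring
    have hT1 : (3 : ℝ) ≤ (N : ℝ) ^ (1 - κ) := by
      have : (0 : ℝ) ≤ H₀ := Nat.cast_nonneg _
      linarith
    have hQ3 : (6 * W : ℝ) * (N : ℝ) ^ (1 - κ) ≤ (N : ℝ) ^ (1 - κ / 2) := by
      rw [hsplit, mul_comm]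
      exact mul_le_mul_of_nonneg_left w5 (by positivity)
    have hQW : (Q : ℝ) < W * ((Q / W : ℕ) + 1) := by
      have h1 : Q < W * (Q / W + 1) := Nat.lt_mul_div_succ Q (show 0 < W by omega)
      exact_mod_cast h1
    have hW1 : (W : ℝ) * 3 ≤ W * (N : ℝ) ^ (1 - κ) := mul_le_mul_of_nonneg_left hT1 (by linarith)
    have hQW1 : 2 ≤ Q / W := by
      rw [Nat.le_div_iff_mul_le (by omega)]
      have h1 : (2 * W : ℝ) ≤ Q := by nlinarith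
      exact_mod_cast h1
    obtain ⟨L, hL⟩ : ∃ L : ℕ, L + 2 = Q / W := ⟨Q / W - 2, by omega⟩
    have hLr : ((Q / W : ℕ) : ℝ) = L + 2 := by rw [← hL]; push_cast; rfl
    have hL1 : (N : ℝ) ^ (1 - κ) ≤ L := by
      rw [hLr] at hQW
      have h1 : (W : ℝ) * (6 * (N : ℝ) ^ (1 - κ)) < W * (L + 2 + 1) := by nlinarith
      have h3 := lt_of_mul_lt_mul_left h1 (by linarith)
      linarith
    have hWLQ : W * (L + 2) ≤ Q := by
      rw [hL]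
      exact Nat.mul_div_le Q W
    have hL3 : 3 ≤ L := by
      have : (3 : ℝ) ≤ L := hT1.trans hL1
      exact_mod_cast this
    refine ⟨L, hWLQ, hL1, ?_, ?_, ?_, ?_⟩
    · have h1 : (H₀ : ℝ) ≤ L := by linarith
      have h2 : H₀ ≤ L := by exact_mod_cast h1
      exact h2.trans (Nat.le_mul_of_pos_left _ (by omega))
    · have : W * L ≤ W * (L + 2) := Nat.mul_le_mul_left _ (by omega)
      omega
    · refine le_trans ?_ hL1
      exact Real.rpow_le_rpow_of_exponent_le hN1 (by linarith)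
    · have h1 : Q < W * (Q / W + 1) := Nat.lt_mul_div_succ Q (show 0 < W by omega)
      rw [← hL] at h1
      have h2 : W * (L + 2 + 1) ≤ W * (4 * L) := Nat.mul_le_mul_left _ (by omega)
      have h3 : W * (4 * L) = 4 * (W * L) := by ring
      omega

open Classical in
/-- the arguments with a good set of slots -/
theorem many2 (F G : ℤ → ℤ) (KK q0 W b M L Y k m a : ℕ) (ε₁ ζ υ υ' θ aw bw c V : ℝ)
    (hSq : ∀ q : ℕ, q.Prime → q0 ≤ q → ∀ N H : ℕ,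
      ((((Icc 1 H).filter (fun j : ℕ => ((q ^ 2 : ℕ) : ℤ) ∣ G ((N + j : ℕ) : ℤ))).card : ℕ) : ℝ) ≤
        KK * (H * (1 / (q : ℝ) ^ 2) + 1)) (hW : 0 < W) (hY : 3 ≤ Y)
    (hq0 : (q0 : ℝ) + 2 ≤ (Y : ℝ) ^ ζ) (t : Fin (2 ^ k) → ℕ)
    (hc : 0 < c) (hV : 0 < V) (hV1 : 1 ≤ Real.log Y ^ a * V)
    (hgd : c * (L * V) ≤ ((gd F G Y ε₁ ζ υ aw bw W b t m M L).card : ℝ))
    (hL : (Y : ℝ) ^ θ ≤ L)
    (h1 : 8 * (2 ^ k * KK * W) / c * Real.log Y ^ a ≤ (Y : ℝ) ^ ζ)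
    (h2 : 4 * (2 ^ k * KK) / c * Real.log Y ^ a ≤ (Y : ℝ) ^ (θ - υ')) :
    ∃ (Hs : Finset (Fin (2 ^ k))) (A : Finset ℕ), Hs.card = m ∧
      c / (2 * 2 ^ 2 ^ k) * (L * V) ≤ A.card ∧
      ∀ K ∈ A, K ∈ Ioc M (M + L) ∧ (∀ p : ℕ, p.Prime → (p : ℝ) < (Y : ℝ) ^ ε₁ → ∀ i,
          ¬ (p : ℤ) ∣ F ((W * (K + t i) + b : ℕ) : ℤ)) ∧
        ∀ i ∈ Hs, 0 < WW Y ζ υ aw bw (G ((W * (K + t i) + b : ℕ) : ℤ)).natAbs ∧
          ∀ q ∈ pr Y ζ υ', ¬ ((q ^ 2 : ℕ) : ℤ) ∣ G ((W * (K + t i) + b : ℕ) : ℤ) := by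
  have hYr : (3 : ℝ) ≤ Y := by exact_mod_cast hY
  have hY0 : (0 : ℝ) < Y := by linarith
  have hlY : 0 < Real.log Y := Real.log_pos (by linarith)
  have hL0 : (0 : ℝ) < L := lt_of_lt_of_le (by positivity) hL
  set Bd := (Ioc M (M + L)).filter (fun K => ∃ i, ∃ q ∈ pr Y ζ υ',
      ((q ^ 2 : ℕ) : ℤ) ∣ G ((W * (K + t i) + b : ℕ) : ℤ)) with hBd
  set Gd := gd F G Y ε₁ ζ υ aw bw W b t m M L with hGd
  have hbad := bad_le G KK q0 hSq W b M L Y t hW ζ υ' (by omega) hq0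
  have hbad2 : ((2 ^ k : ℕ) : ℝ) * (KK * ((W * L : ℕ) * (2 / (Y : ℝ) ^ ζ) + (Y : ℝ) ^ υ')) ≤
      c / 2 * (L * V) := by
    have hla : 0 < Real.log Y ^ a := by positivity
    rw [div_mul_eq_mul_div, div_le_iff₀ hc] at h1 h2
    have e1 : ((2 ^ k : ℕ) : ℝ) * (KK * ((W * L : ℕ) * (2 / (Y : ℝ) ^ ζ))) ≤ c / 4 * (L * V) := by
      have hNζ : (0 : ℝ) < (Y : ℝ) ^ ζ := by positivity
      push_cast
      rw [show (2 : ℝ) ^ k * (KK * (W * L * (2 / (Y : ℝ) ^ ζ))) =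
        (2 * (2 ^ k * KK * W)) * L / (Y : ℝ) ^ ζ by ring, div_le_iff₀ hNζ]
      have e2 : 8 * (2 ^ k * KK * W : ℝ) * L * 1 ≤ 8 * (2 ^ k * KK * W : ℝ) * L *
          (Real.log Y ^ a * V) := mul_le_mul_of_nonneg_left hV1 (by positivity)
      have e3 : (8 * (2 ^ k * KK * W) * Real.log Y ^ a) * (L * V) ≤ ((Y : ℝ) ^ ζ * c) * (L * V) :=
        mul_le_mul_of_nonneg_right h1 (by positivity)
      linarith
    have e2 : ((2 ^ k : ℕ) : ℝ) * (KK * (Y : ℝ) ^ υ') ≤ c / 4 * (L * V) := by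
      push_cast
      have e3 : (Y : ℝ) ^ υ' * (Y : ℝ) ^ (θ - υ') ≤ L := by
        rw [← Real.rpow_add hY0]
        refine le_trans (le_of_eq ?_) hL
        congr 1
        ring
      have e4 : (4 * (2 ^ k * KK) * Real.log Y ^ a) * ((Y : ℝ) ^ υ' * V) ≤
          ((Y : ℝ) ^ (θ - υ') * c) * ((Y : ℝ) ^ υ' * V) :=
        mul_le_mul_of_nonneg_right h2 (by positivity)
      have e5 : ((Y : ℝ) ^ υ' * (Y : ℝ) ^ (θ - υ')) * (c * V) ≤ L * (c * V) :=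
        mul_le_mul_of_nonneg_right e3 (by positivity)
      have e6 : 4 * (2 ^ k * KK : ℝ) * (Y : ℝ) ^ υ' * 1 ≤ 4 * (2 ^ k * KK : ℝ) * (Y : ℝ) ^ υ' *
          (Real.log Y ^ a * V) := mul_le_mul_of_nonneg_left hV1 (by positivity)
      linarith
    rw [mul_add, mul_add]
    linarith
  have hcard : c / 2 * (L * V) ≤ ((Gd \ Bd).card : ℝ) := by
    have h3 : (Gd.card : ℝ) ≤ (Gd \ Bd).card + Bd.card := by
      have h4 : Gd ⊆ (Gd \ Bd) ∪ Bd := by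
        intro x hx
        by_cases hb : x ∈ Bd
        · exact mem_union_right _ hb
        · exact mem_union_left _ (mem_sdiff.2 ⟨hx, hb⟩)
      exact_mod_cast (card_le_card h4).trans (card_union_le _ _)
    have h4 : (Bd.card : ℝ) ≤ c / 2 * (L * V) := by
      refine le_trans ?_ (hbad.trans hbad2)
      rw [hBd]
    linarith
  have hpos : 0 < c / 2 * (L * V) := by positivity
  have hne : (Gd \ Bd).Nonempty := by
    rw [← card_pos]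
    have : (0 : ℝ) < ((Gd \ Bd).card : ℝ) := hpos.trans_le hcard
    exact_mod_cast this
  obtain ⟨Hs, hHs, hle⟩ := pigH (2 ^ k) m (Gd \ Bd) (fun K => univ.filter (fun i =>
      0 < WW Y ζ υ aw bw (G ((W * (K + t i) + b : ℕ) : ℤ)).natAbs)) hne (by
    intro K hK
    have h3 := (mem_sdiff.1 hK).1
    rw [hGd] at h3
    unfold gd at h3
    rw [mem_filter] at h3
    exact h3.2.2.le)
  refine ⟨Hs, (Gd \ Bd).filter (fun K => Hs ⊆ univ.filter (fun i =>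
      0 < WW Y ζ υ aw bw (G ((W * (K + t i) + b : ℕ) : ℤ)).natAbs)), hHs, ?_, ?_⟩
  rotate_left
  · intro K hK
    have hK' := mem_filter.1 hK
    obtain ⟨hK1, hK2⟩ := hK'
    obtain ⟨hK3, hK4⟩ := mem_sdiff.1 hK1
    rw [hGd] at hK3
    unfold gd at hK3
    rw [mem_filter] at hK3
    refine ⟨hK3.1, hK3.2.1, ?_⟩
    intro i hi
    have h3 := mem_filter.1 (hK2 hi)
    refine ⟨h3.2, ?_⟩
    intro q hq hqd
    apply hK4
    rw [hBd, mem_filter]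
    exact ⟨hK3.1, i, q, hq, hqd⟩
  · rw [div_mul_eq_mul_div, div_le_iff₀ (by positivity)]
    have h3 : (((Gd \ Bd).card : ℕ) : ℝ) ≤ 2 ^ 2 ^ k *
        (((Gd \ Bd).filter (fun K => Hs ⊆ univ.filter (fun i =>
      0 < WW Y ζ υ aw bw (G ((W * (K + t i) + b : ℕ) : ℤ)).natAbs))).card : ℝ) := by
      exact_mod_cast hle
    have h4 : c / 2 * (L * V) * 2 = c * (L * V) := by ring
    linarith

/-- a value with positive weight has at most two prime factors -/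
theorem two_of (Y n c0 : ℕ) (hY : 2 ≤ Y) (hc0 : 1 ≤ c0) (hn : n ≤ c0 * Y) (hn0 : n ≠ 0)
    (hlog : pb * Real.log c0 ≤ (3 * pa - pb - 1) * Real.log Y)
    (hc : (c0 : ℝ) < (Y : ℝ) ^ (1 / 50 : ℝ)) (hw : 0 < WW Y pζ pυ pa pb n)
    (hsq : ∀ q ∈ pr Y pζ (9 / 20), ¬ q ^ 2 ∣ n) :
    n.primeFactorsList.length ≤ 2 ∧ ∀ p : ℕ, p.Prime → p ∣ n → (Y : ℝ) ^ pζ ≤ p := by
  have hYr : (2 : ℝ) ≤ Y := by exact_mod_cast hY
  have hY0 : (0 : ℝ) < Y := by linarith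
  refine ⟨?_, fun p hp hpn =>
    (Pool.Agent.H543.DP.ww_rough Y n pζ pυ pa pb hY (by unfold pζ; norm_num) hw p hp hpn).2⟩
  by_cases hs : Squarefree n
  · exact Pool.Agent.H543.DP.ww_two Y n pζ pυ pa pb hY (by unfold pζ; norm_num)
      (by unfold pυ; norm_num) (by unfold pa; norm_num) (by unfold pa pb pυ; norm_num)
      (by unfold pb; norm_num) c0 hc0 hn hn0 hlog hw hs
  · rcases Pool.Agent.H543.DP.ww_sq Y n pζ pυ pa pb hY (by unfold pζ; norm_num) c0 hn hn0 hw hs with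
      h | ⟨p, hp, h1, h2, h3⟩
    · exact h
    · exfalso
      have hp0 : (0 : ℝ) < p := by exact_mod_cast hp.pos
      have h4 : (p : ℝ) ^ 2 < ((Y : ℝ) ^ (9 / 20 : ℝ)) ^ 2 := by
        have h5 : (0 : ℝ) < (Y : ℝ) ^ pζ := by positivity
        have h6 : (p : ℝ) ^ 2 * (Y : ℝ) ^ pζ < ((Y : ℝ) ^ (9 / 20 : ℝ)) ^ 2 * (Y : ℝ) ^ pζ := by
          refine h2.trans_lt ?_
          calc (c0 : ℝ) * Y < (Y : ℝ) ^ (1 / 50 : ℝ) * Y := mul_lt_mul_of_pos_right hc hY0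
            _ = (Y : ℝ) ^ (1 / 50 : ℝ) * (Y : ℝ) ^ (1 : ℝ) := by rw [Real.rpow_one]
            _ = _ := by
                rw [← Real.rpow_natCast, ← Real.rpow_mul hY0.le, ← Real.rpow_add hY0,
                  ← Real.rpow_add hY0]
                congr 1
                unfold pζ
                push_cast
                norm_num
        exact lt_of_mul_lt_mul_right h6 h5.le
      have h5 : (p : ℝ) < (Y : ℝ) ^ (9 / 20 : ℝ) := lt_of_pow_lt_pow_left₀ 2 (by positivity) h4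
      have h6 : (p : ℝ) < Y := by
        refine h5.trans_le ?_
        calc (Y : ℝ) ^ (9 / 20 : ℝ) ≤ (Y : ℝ) ^ (1 : ℝ) :=
              Real.rpow_le_rpow_of_exponent_le (by linarith) (by norm_num)
          _ = Y := Real.rpow_one _
      have h7 : p < Y := by exact_mod_cast h6
      have h8 := (Pool.Agent.H543.DP.ww_rough Y n pζ pυ pa pb hY (by unfold pζ; norm_num) hw p hp
        ((dvd_mul_right p p).trans h3)).1
      apply hsq p _ (by rw [sq]; exact h3)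
      unfold pr
      rw [mem_filter, mem_Icc]
      exact ⟨⟨hp.one_le, h7.le⟩, hp, h8, (tt_lt Y p (9 / 20) hY hp.pos).2 h5⟩

end Pool.Agent.H543.MQ
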