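import Pool.Agent.H543.MQ.Def

/-!
# The functional bound
-/

set_option autoImplicit false
set_option linter.unusedSectionVars false

namespace Pool.Agent.H543.MQ

open Finset
open Pool.Agent.R498.MT

section
variable {S : Type} [Fintype S] [DecidableEq S]

/-- the linear functional -/
noncomputable def ell (k : ℕ) (q : S → ℝ) (N : Finset ℕ) (θ : ℕ → ℝ)
    (ξ : ℕ → S → Option (Fin (2 ^ k))) (X : ℝ) (Φ : (S → Option (Fin (2 ^ k))) → ℝ) : ℝ :=
  ∑ n ∈ N, θ n * Φ (ξ n) - X * EM k q Φ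

theorem ell_sum {ι : Type} [Fintype ι] (k : ℕ) (q : S → ℝ) (N : Finset ℕ) (θ : ℕ → ℝ)
    (ξ : ℕ → S → Option (Fin (2 ^ k))) (X : ℝ) (c : ι → ℝ)
    (Φ : ι → (S → Option (Fin (2 ^ k))) → ℝ) :
    ell k q N θ ξ X (fun x => ∑ a, c a * Φ a x) = ∑ a, c a * ell k q N θ ξ X (Φ a) := by
  unfold ell EM
  have h1 : ∑ n ∈ N, θ n * ∑ a, c a * Φ a (ξ n) = ∑ a, c a * ∑ n ∈ N, θ n * Φ a (ξ n) := by
    rw [sum_congr rfl (fun n _ => mul_sum _ _ _), sum_comm]
    refine sum_congr rfl fun a _ => ?_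
    rw [mul_sum]
    refine sum_congr rfl fun n _ => ?_
    ring
  have h2 : ∑ x : S → Option (Fin (2 ^ k)), (∏ t, pm (q t) (x t)) * ∑ a, c a * Φ a x =
      ∑ a, c a * ∑ x : S → Option (Fin (2 ^ k)), (∏ t, pm (q t) (x t)) * Φ a x := by
    rw [sum_congr rfl (fun n _ => mul_sum _ _ _), sum_comm]
    refine sum_congr rfl fun a _ => ?_
    rw [mul_sum]
    refine sum_congr rfl fun n _ => ?_
    ring
  rw [h1, h2, mul_sum, ← sum_sub_distrib]
  refine sum_congr rfl fun a _ => ?_
  ring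

theorem pm_sum {J : Type} [Fintype J] (q : ℝ) : ∑ v : Option J, pm q v = 1 := by
  rw [Fintype.sum_option]
  simp only [pm, sum_const, card_univ, nsmul_eq_mul]
  ring

/-- the expectation -/
theorem EM_sub (k : ℕ) (q : S → ℝ) (i : Fin (2 ^ k)) (V : S → Option (Fin (2 ^ k)))
    (hV : ∀ t, V t ≠ some i) (T : Finset S) :
    EM k q (fun x => (if Sub V x then 1 else 0) * (if ∀ t ∈ T, x t = some i then 1 else 0)) =
      (∏ t, rr (fun _ : Fin (2 ^ k) => 1 / q t) (V t)) *
        (if ∀ t ∈ T, V t = none then ∏ t ∈ T, 1 / q t else 0) := by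
  unfold EM
  have e1 : ∀ x : S → Option (Fin (2 ^ k)), (∏ t, pm (q t) (x t)) *
      ((if Sub V x then (1 : ℝ) else 0) * (if ∀ t ∈ T, x t = some i then 1 else 0)) =
      ∏ t, (pm (q t) (x t) * ((if V t = none ∨ V t = x t then (1 : ℝ) else 0) *
        (if t ∈ T then (if x t = some i then 1 else 0) else 1))) := by
    intro x
    rw [prod_mul_distrib, prod_mul_distrib]
    congr 1
    congr 1
    · rw [Finset.prod_ite_zero]
      simp [Pool.Agent.R498.MT.Sub]
    · rw [prod_ite_mem]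
      rw [univ_inter, Finset.prod_ite_zero]
      simp
  rw [sum_congr rfl (fun x _ => e1 x),
    sum_prod (fun t v => pm (q t) v * ((if V t = none ∨ V t = v then (1 : ℝ) else 0) *
        (if t ∈ T then (if v = some i then 1 else 0) else 1)))]
  have e2 : (if ∀ t ∈ T, V t = none then ∏ t ∈ T, 1 / q t else 0) =
      ∏ t, (if t ∈ T then (if V t = none then 1 / q t else 0) else 1) := by
    rw [prod_ite_mem, univ_inter, Finset.prod_ite_zero]
    by_cases h : ∀ t ∈ T, V t = none
    · rw [if_pos h, if_pos h]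
    · rw [if_neg h, if_neg h]
  rw [e2, ← prod_mul_distrib]
  refine prod_congr rfl fun t _ => ?_
  rcases hVt : V t with _ | j
  · by_cases hT : t ∈ T
    · simp only [true_or, if_true, one_mul, if_pos hT, rr, mul_ite, mul_one, mul_zero]
      rw [sum_ite_eq' univ (some i)]
      simp [pm]
    · simp only [true_or, if_true, if_neg hT, rr, mul_one]
      exact pm_sum (q t)
  · have hji : j ≠ i := by
      rintro rfl
      exact hV t hVt
    by_cases hT : t ∈ T
    · simp only [reduceCtorEq, false_or, if_pos hT, if_false, mul_zero]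
      apply sum_eq_zero
      intro v _
      by_cases h1 : some j = v
      · rw [← h1, if_neg (show ¬ (some j = some i) from fun h => hji (Option.some.inj h))]
        ring
      · rw [if_neg h1]
        ring
    · simp only [reduceCtorEq, false_or, if_neg hT, mul_one, rr, mul_ite, mul_zero]
      rw [sum_ite_eq univ (some j)]
      simp [pm]

theorem hv_at_none {J : Type} [DecidableEq J] (i : J) (q : ℝ) (a : Option J) :
    hv (some i) q a none = sg a := by
  rcases a with _ | j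
  · rfl
  · simp [hv, sg]

theorem hv_abs {J : Type} [DecidableEq J] (i : Option J) (q : ℝ) (hq : 2 ≤ q) (a x : Option J) :
    |hv i q a x| ≤ q - 1 := by
  rcases a with _ | j
  · simp only [hv, abs_one]
    linarith
  · simp only [hv]
    split_ifs
    · rw [abs_neg, abs_one]
      linarith
    · rw [abs_of_nonneg (by linarith)]
    · rw [abs_neg, abs_one]
      linarith

/-- the local factor -/
theorem co_sum_le (k : ℕ) (i : Fin (2 ^ k)) (q : ℝ) (hq : 2 ≤ q)
    (a b : Option (Fin (2 ^ k))) :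
    ∑ v, |co (lc2 (some i) q false a b) v| ≤
      if a ≠ none ∨ b ≠ none then 1 + 2 ^ k * q ^ 2 else 1 := by
  rw [Fintype.sum_option]
  have h0 : co (lc2 (some i) q false a b) none = sg a * sg b := by
    simp [co, lc2, hv_at_none]
  rw [h0, abs_mul, sg_abs, sg_abs, mul_one]
  by_cases h : a ≠ none ∨ b ≠ none
  · rw [if_pos h]
    have h1 : ∀ j : Fin (2 ^ k), |co (lc2 (some i) q false a b) (some j)| ≤ q ^ 2 := by
      intro j
      have e : co (lc2 (some i) q false a b) (some j) =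
          hv (some i) q a (some j) * hv (some i) q b (some j) - sg a * sg b := by
        simp [co, lc2, hv_at_none]
      rw [e]
      refine (abs_sub _ _).trans ?_
      rw [abs_mul, abs_mul, sg_abs, sg_abs]
      have h2 := hv_abs (some i) q hq a (some j)
      have h3 := hv_abs (some i) q hq b (some j)
      have h4 : |hv (some i) q a (some j)| * |hv (some i) q b (some j)| ≤ (q - 1) * (q - 1) :=
        mul_le_mul h2 h3 (abs_nonneg _) (by linarith)
      nlinarith
    have h2 : ∑ j : Fin (2 ^ k), |co (lc2 (some i) q false a b) (some j)| ≤ 2 ^ k * q ^ 2 := by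
      refine (sum_le_sum fun j _ => h1 j).trans ?_
      rw [sum_const, card_univ, Fintype.card_fin, nsmul_eq_mul]
      push_cast
      exact le_rfl
    linarith
  · rw [if_neg h]
    push Not at h
    have h1 : ∑ j : Fin (2 ^ k), |co (lc2 (some i) q false a b) (some j)| = 0 := by
      apply sum_eq_zero
      intro j _
      rw [h.1, h.2]
      simp [co, lc2, hv]
    rw [h1, add_zero]

theorem sum_cw_le (k : ℕ) (μ l : S → ℝ) (hμ : ∀ t, 0 ≤ μ t) (hl : ∀ t, 0 ≤ l t)
    (R : ℝ) (hR : 0 < R) :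
    ∑ σ : S → Option (Fin (2 ^ k)), |cw μ (yf l R k) σ| ≤ ∏ t, (1 + 2 ^ k * μ t) := by
  have h1 : ∀ σ : S → Option (Fin (2 ^ k)), |cw μ (yf l R k) σ| ≤ ∏ t, |cf (μ t) (σ t)| := by
    intro σ
    unfold cw
    obtain ⟨h2, h3, -⟩ := yf_facts l hl R hR k σ
    rw [abs_mul, abs_prod, abs_of_nonneg h2]
    exact mul_le_of_le_one_right (prod_nonneg fun _ _ => abs_nonneg _) h3
  refine (sum_le_sum fun σ _ => h1 σ).trans (le_of_eq ?_)
  rw [sum_prod (fun t (v : Option (Fin (2 ^ k))) => |cf (μ t) v|)]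
  refine prod_congr rfl fun t _ => ?_
  rw [Fintype.sum_option]
  simp only [cf, abs_one, abs_neg, abs_of_nonneg (hμ t), sum_const, card_univ, Fintype.card_fin,
    nsmul_eq_mul]
  push_cast
  ring

/-- **MQ1.** The sum over `n` of the function `Ph` of the colours is its expectation over independent
colours up to the remainders.

Proof. Put `a T x := if ∀ t ∈ T, x t = some i then 1 else 0` and `J = Fin (2 ^ k)`.
(1) As in `quad_real` (file `Pool/Graph/R_seed8/R498/MT/Quad.lean`) `Lam (some i) q μ y x ^ 2 =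
∑ σ, ∑ τ, cw μ y σ * cw μ y τ * ∏ t, φ σ τ t (x t)` with `φ σ τ t := lc2 (some i) (q t) false (σ t) (τ t)`, and by
`expand` (file `Prod.lean`) `∏ t, φ σ τ t (x t) = ∑ V, (∏ t, co (φ σ τ t) (V t)) * (if Sub V x then 1 else 0)`.
(2) So for every linear functional `ℓ` of functions of `x` (here `ℓ Ψ := ∑ n ∈ N, θ n * Ψ (ξ n) - X * EM k q Ψ`)
`ℓ (Ph) = ∑ σ, ∑ τ, cw σ * cw τ * ∑ V, (∏ co) * ℓ (fun x => ∑ T, cL T * (Sub V x) * (a T x))`.
(3) Only `σ`, `τ` with `y σ ≠ 0`, `y τ ≠ 0` matter (`y = yf l R k`; then `lt l σ ≤ R`, `lt l τ ≤ R` by `yf_facts`),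
and only `V` with `∏ co ≠ 0`: then `V t = none` unless `σ t ≠ none` or `τ t ≠ none` (`lc2 _ _ false none none` is the
constant `1`), and `V t ≠ some i` (`hv (some i) q a (some i) = hv (some i) q a none = sg a`, so `co _ (some i) = 0`).
Hence `lt l V ≤ lt l σ + lt l τ ≤ 2 * R` and the condition `h` applies to `V`.
(4) The expectation: for `V` with `V t ≠ some i` for all `t`,
`EM k q (fun x => (if Sub V x then 1 else 0) * (if ∀ t ∈ T, x t = some i then 1 else 0)) =
(∏ t, rr (fun _ => 1 / q t) (V t)) * (if ∀ t ∈ T, V t = none then ∏ t ∈ T, 1 / q t else 0)` (product over `t` of the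
local sums, `sum_prod`; locally `∑ v, pm q v = 1`, etc.). So `|ℓ (...)| ≤ B` in (2) by `h`.
(5) `∑ V, |∏ co| = ∏ t, ∑ v, |co (φ t) v|`, and the local factor is `1` if `σ t = τ t = none` and at most
`1 + 2 ^ k * q t ^ 2` otherwise (`|φ none| = 1`, `|φ (some j) - φ none| ≤ (q - 1) ^ 2 + 1 ≤ q ^ 2`). The product over
`U = {t | σ t ≠ none ∨ τ t ≠ none}` is at most `Bq` by `hBq` (`lz l U ≤ lt l σ + lt l τ ≤ 2 R`).
(6) `∑ σ, |cw μ y σ| ≤ ∑ σ, ∏ t, |cf (μ t) (σ t)| = ∏ t, (1 + 2 ^ k * μ t)` (`|y| ≤ 1`). -/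
theorem fun_bd (k : ℕ) (q μ l : S → ℝ) (hq : ∀ t, 2 ≤ q t) (hμ : ∀ t, 0 ≤ μ t) (hl : ∀ t, 0 ≤ l t)
    (R : ℝ) (hR : 0 < R) (i : Fin (2 ^ k)) (cL : Finset S → ℝ) (N : Finset ℕ) (θ : ℕ → ℝ)
    (ξ : ℕ → S → Option (Fin (2 ^ k))) (X B Bq : ℝ) (hB : 0 ≤ B)
    (hBq : ∀ U : Finset S, lz l U ≤ 2 * R → ∏ t ∈ U, (1 + 2 ^ k * q t ^ 2) ≤ Bq)
    (h : Rem k q l R i cL N θ ξ X B) :
    |∑ n ∈ N, θ n * Ph k q μ l R i cL (ξ n) - X * EM k q (Ph k q μ l R i cL)| ≤
      (∏ t, (1 + 2 ^ k * μ t)) ^ 2 * (Bq * B) := by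
  set y := yf l R k with hy
  set φ : (S → Option (Fin (2 ^ k))) → (S → Option (Fin (2 ^ k))) → S → Option (Fin (2 ^ k)) → ℝ :=
    fun σ τ t => lc2 (some i) (q t) false (σ t) (τ t) with hφ
  have hPh : Ph k q μ l R i cL = fun x => ∑ σ, cw μ y σ * ∑ τ, cw μ y τ *
      ∑ V : S → Option (Fin (2 ^ k)), (∏ t, co (φ σ τ t) (V t)) *
        ∑ T : Finset S, cL T * ((if Sub V x then 1 else 0) *
          (if ∀ t ∈ T, x t = some i then 1 else 0)) := by
    funext x
    unfold Ph Lam
    have e1 : (∑ σ, cw μ y σ * ∏ t, hv (some i) (q t) (σ t) (x t)) ^ 2 =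
        ∑ σ, cw μ y σ * ∑ τ, cw μ y τ * ∏ t, φ σ τ t (x t) := by
      rw [sq, sum_mul_sum]
      refine sum_congr rfl fun σ _ => ?_
      rw [mul_sum]
      refine sum_congr rfl fun τ _ => ?_
      simp only [hφ]
      unfold lc2
      simp only [Bool.false_eq_true, if_false, mul_one]
      rw [prod_mul_distrib]
      ring
    rw [← hy, e1, sum_mul]
    refine sum_congr rfl fun σ _ => ?_
    rw [mul_assoc, sum_mul]
    congr 1
    refine sum_congr rfl fun τ _ => ?_
    rw [mul_assoc, expand (φ σ τ) x, sum_mul]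
    congr 1
    refine sum_congr rfl fun V _ => ?_
    rw [mul_assoc, mul_sum]
    congr 1
    refine sum_congr rfl fun T _ => ?_
    ring
  have hell : ∑ n ∈ N, θ n * Ph k q μ l R i cL (ξ n) - X * EM k q (Ph k q μ l R i cL) =
      ∑ σ, cw μ y σ * ∑ τ, cw μ y τ * ∑ V : S → Option (Fin (2 ^ k)),
        (∏ t, co (φ σ τ t) (V t)) * ∑ T : Finset S, cL T * ell k q N θ ξ X (fun x =>
          (if Sub V x then 1 else 0) * (if ∀ t ∈ T, x t = some i then 1 else 0)) := by
    have e0 : ∑ n ∈ N, θ n * Ph k q μ l R i cL (ξ n) - X * EM k q (Ph k q μ l R i cL) =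
      ell k q N θ ξ X (Ph k q μ l R i cL) := rfl
    rw [e0, hPh, ell_sum]
    refine sum_congr rfl fun σ _ => ?_
    rw [ell_sum]
    congr 1
    refine sum_congr rfl fun τ _ => ?_
    rw [ell_sum]
    congr 1
    refine sum_congr rfl fun V _ => ?_
    rw [ell_sum]
  have hVb : ∀ V : S → Option (Fin (2 ^ k)), (∀ t, V t ≠ some i) → lt l V ≤ 2 * R →
      |∑ T : Finset S, cL T * ell k q N θ ξ X (fun x =>
          (if Sub V x then 1 else 0) * (if ∀ t ∈ T, x t = some i then 1 else 0))| ≤ B := by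
    intro V hV1 hV2
    have h1 := h V hV1 hV2
    refine le_trans (le_of_eq ?_) h1
    congr 1
    refine sum_congr rfl fun T _ => ?_
    unfold ell
    rw [EM_sub k q i V hV1 T]
  have hBq1 : 1 ≤ Bq := by
    have h1 := hBq ∅ (by simp [lz]; exact hR.le)
    simpa using h1
  have hBqB : 0 ≤ Bq * B := mul_nonneg (by linarith) hB
  have hst : ∀ σ τ, cw μ y σ ≠ 0 → cw μ y τ ≠ 0 →
      |∑ V : S → Option (Fin (2 ^ k)), (∏ t, co (φ σ τ t) (V t)) *
        ∑ T : Finset S, cL T * ell k q N θ ξ X (fun x =>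
          (if Sub V x then 1 else 0) * (if ∀ t ∈ T, x t = some i then 1 else 0))| ≤ Bq * B := by
    intro σ τ hσ hτ
    have hσ1 : lt l σ ≤ R := (yf_facts l hl R hR k σ).2.2 (fun h0 => hσ (by
      unfold cw
      rw [hy, h0, mul_zero]))
    have hτ1 : lt l τ ≤ R := (yf_facts l hl R hR k τ).2.2 (fun h0 => hτ (by
      unfold cw
      rw [hy, h0, mul_zero]))
    have h1 : ∀ V : S → Option (Fin (2 ^ k)), |(∏ t, co (φ σ τ t) (V t)) *
        ∑ T : Finset S, cL T * ell k q N θ ξ X (fun x =>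
          (if Sub V x then 1 else 0) * (if ∀ t ∈ T, x t = some i then 1 else 0))| ≤
        (∏ t, |co (φ σ τ t) (V t)|) * B := by
      intro V
      rw [abs_mul, abs_prod]
      by_cases h2 : ∀ t, co (φ σ τ t) (V t) ≠ 0
      · apply mul_le_mul_of_nonneg_left _ (prod_nonneg fun _ _ => abs_nonneg _)
        apply hVb V
        · intro t ht
          apply h2 t
          rw [ht]
          simp only [hφ, co, lc2, Bool.false_eq_true, if_false, mul_one]
          rw [hv_at_i, hv_at_i, hv_at_none, hv_at_none, sub_self]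
        · have h3 := good_of (some i) q l hl ∅ σ τ V (by
            intro t
            have h4 := h2 t
            simpa using h4)
          have h5 : lz l (∅ : Finset S) = 0 := by simp [lz]
          linarith
      · push Not at h2
        obtain ⟨t, ht⟩ := h2
        have h3 : ∏ t, |co (φ σ τ t) (V t)| = 0 :=
          prod_eq_zero (mem_univ t) (by rw [ht, abs_zero])
        rw [h3, zero_mul, zero_mul]
    refine (abs_sum_le_sum_abs _ _).trans ((sum_le_sum fun V _ => h1 V).trans ?_)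
    rw [← sum_mul]
    apply mul_le_mul_of_nonneg_right _ hB
    rw [sum_prod (fun t v => |co (φ σ τ t) v|)]
    set U : Finset S := univ.filter (fun t => σ t ≠ none ∨ τ t ≠ none) with hU
    have h2 : ∏ t, ∑ v, |co (φ σ τ t) v| ≤ ∏ t ∈ U, (1 + 2 ^ k * q t ^ 2) := by
      have e1 : ∏ t ∈ U, (1 + 2 ^ k * q t ^ 2) =
          ∏ t, (if σ t ≠ none ∨ τ t ≠ none then 1 + 2 ^ k * q t ^ 2 else 1) := by
        rw [hU, prod_filter]
      rw [e1]
      apply prod_le_prod
      · intro t _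
        exact sum_nonneg fun _ _ => abs_nonneg _
      · intro t _
        exact co_sum_le k i (q t) (hq t) (σ t) (τ t)
    refine h2.trans (hBq U ?_)
    have h3 : lz l U ≤ lt l σ + lt l τ := by
      unfold lz lt
      rw [hU, sum_filter, ← sum_add_distrib]
      apply sum_le_sum
      intro t _
      have := hl t
      by_cases a1 : σ t = none
      · by_cases a2 : τ t = none
        · simp [a1, a2]
        · simp [a1, a2]
      · by_cases a2 : τ t = none
        · simp [a1, a2]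
        · simp [a1, a2]
          linarith
    linarith
  have hP := sum_cw_le k μ l hμ hl R hR
  rw [← hy] at hP
  have hP0 : 0 ≤ ∑ σ : S → Option (Fin (2 ^ k)), |cw μ y σ| := sum_nonneg fun _ _ => abs_nonneg _
  rw [hell]
  have h1 : ∀ σ, |cw μ y σ * ∑ τ, cw μ y τ * ∑ V : S → Option (Fin (2 ^ k)),
        (∏ t, co (φ σ τ t) (V t)) * ∑ T : Finset S, cL T * ell k q N θ ξ X (fun x =>
          (if Sub V x then 1 else 0) * (if ∀ t ∈ T, x t = some i then 1 else 0))| ≤
      |cw μ y σ| * ((∑ τ, |cw μ y τ|) * (Bq * B)) := by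
    intro σ
    rw [abs_mul]
    by_cases hσ : cw μ y σ = 0
    · rw [hσ, abs_zero, zero_mul, zero_mul]
    · apply mul_le_mul_of_nonneg_left _ (abs_nonneg _)
      refine (abs_sum_le_sum_abs _ _).trans ?_
      rw [sum_mul]
      apply sum_le_sum
      intro τ _
      rw [abs_mul]
      by_cases hτ : cw μ y τ = 0
      · rw [hτ, abs_zero, zero_mul, zero_mul]
      · exact mul_le_mul_of_nonneg_left (hst σ τ hσ hτ) (abs_nonneg _)
  refine (abs_sum_le_sum_abs _ _).trans ((sum_le_sum fun σ _ => h1 σ).trans ?_)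
  rw [← sum_mul]
  have h2 : (∑ σ, |cw μ y σ|) * (∑ τ, |cw μ y τ|) ≤ (∏ t, (1 + 2 ^ k * μ t)) ^ 2 := by
    rw [sq]
    exact mul_le_mul hP hP hP0 (hP0.trans hP)
  calc (∑ σ, |cw μ y σ|) * ((∑ τ, |cw μ y τ|) * (Bq * B)) =
        (∑ σ, |cw μ y σ|) * (∑ τ, |cw μ y τ|) * (Bq * B) := by ring
    _ ≤ _ := mul_le_mul_of_nonneg_right h2 hBqB

end

end Pool.Agent.H543.MQ
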