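import Mathlib

/-!
# A positive proportion of the patterns
-/

set_option autoImplicit false

namespace Pool.Agent.H543.MQ

open Finset Filter

open Classical in
/-- if every set with `K` elements contains a good set with `m` elements, then the good sets are a
positive proportion -/
theorem pat_dens (m K : ℕ) (R : Finset ℕ → Prop) (hmK : m ≤ K)
    (h : ∀ HH : Finset ℕ, HH.card = K → ∃ H ⊆ HH, H.card = m ∧ R H) (U : Finset ℕ)
    (hx : K ≤ U.card) :
    U.card.choose m ≤ K.choose m * ((U.powersetCard m).filter R).card := by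
  have h1 : (U.powersetCard K).card ≤ ∑ HH ∈ U.powersetCard K,
      (((U.powersetCard m).filter R).filter (fun H => H ⊆ HH)).card := by
    rw [card_eq_sum_ones]
    apply sum_le_sum
    intro HH hHH
    rw [mem_powersetCard] at hHH
    obtain ⟨H, h2, h3, h4⟩ := h HH hHH.2
    exact card_pos.2 ⟨H, mem_filter.2 ⟨mem_filter.2 ⟨mem_powersetCard.2 ⟨h2.trans hHH.1, h3⟩, h4⟩,
      h2⟩⟩
  have h2 : ∑ HH ∈ U.powersetCard K,
      (((U.powersetCard m).filter R).filter (fun H => H ⊆ HH)).card =
      ∑ H ∈ (U.powersetCard m).filter R, ((U.powersetCard K).filter (fun HH => H ⊆ HH)).card := by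
    simp_rw [card_filter]
    rw [sum_comm]
  have h3 : ∀ H ∈ (U.powersetCard m).filter R,
      ((U.powersetCard K).filter (fun HH => H ⊆ HH)).card ≤ (U.card - m).choose (K - m) := by
    intro H hH
    rw [mem_filter, mem_powersetCard] at hH
    obtain ⟨⟨hHU, hHm⟩, -⟩ := hH
    have h4 : ((U \ H).powersetCard (K - m)).card = (U.card - m).choose (K - m) := by
      rw [card_powersetCard, card_sdiff_of_subset hHU, hHm]
    rw [← h4]
    apply card_le_card_of_injOn (fun HH => HH \ H)
    · intro HH hHH
      rw [mem_coe, mem_filter, mem_powersetCard] at hHH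
      rw [mem_coe, mem_powersetCard]
      refine ⟨sdiff_subset_sdiff hHH.1.1 le_rfl, ?_⟩
      rw [card_sdiff_of_subset hHH.2, hHH.1.2, hHm]
    · intro S hS S' hS' hSS
      rw [mem_coe, mem_filter] at hS hS'
      have h5 : S \ H = S' \ H := hSS
      rw [← sdiff_union_of_subset hS.2, ← sdiff_union_of_subset hS'.2, h5]
  have h4 : U.card.choose K ≤ ((U.powersetCard m).filter R).card * (U.card - m).choose (K - m) := by
    rw [card_powersetCard] at h1
    refine h1.trans (h2.le.trans ((sum_le_sum h3).trans ?_))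
    rw [sum_const, smul_eq_mul]
  have h5 := Nat.choose_mul (n := U.card) hmK
  have h6 : 0 < (U.card - m).choose (K - m) := Nat.choose_pos (by omega)
  have h7 : U.card.choose m * (U.card - m).choose (K - m) ≤
      (K.choose m * ((U.powersetCard m).filter R).card) * (U.card - m).choose (K - m) := by
    rw [← h5]
    calc U.card.choose K * K.choose m ≤
        (((U.powersetCard m).filter R).card * (U.card - m).choose (K - m)) * K.choose m :=
          Nat.mul_le_mul_right _ h4
      _ = _ := by ring
  exact Nat.le_of_mul_le_mul_right h7 h6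

/-- one element of a finite family which works for all `l` -/
theorem pigeon_all (S : Finset (Finset ℕ)) (Q : Finset ℕ → ℕ → Prop)
    (hmono : ∀ H l l', l ≤ l' → Q H l' → Q H l) (h : ∀ l : ℕ, ∃ H ∈ S, Q H l) :
    ∃ H ∈ S, ∀ l, Q H l := by
  classical
  by_contra hcon
  push Not at hcon
  choose! f hf using hcon
  obtain ⟨H, hH, hQ⟩ := h (S.sup f)
  exact hf H hH (hmono H _ _ (Finset.le_sup hH) hQ)

/-- one element of a finite family which works infinitely often -/
theorem pigeon_freq (S : Finset (Finset ℕ)) (Q : Finset ℕ → ℕ → Prop)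
    (h : ∀ᶠ N : ℕ in atTop, ∃ H ∈ S, Q H N) : ∃ H ∈ S, ∃ᶠ N : ℕ in atTop, Q H N := by
  by_contra hcon
  push Not at hcon
  have h1 : ∀ᶠ N : ℕ in atTop, ∀ H ∈ S, ¬ Q H N := by
    rw [eventually_all_finset]
    intro H hH
    exact hcon H hH
  obtain ⟨N, hN1, hN2⟩ := (h.and h1).exists
  obtain ⟨H, hH, hQ⟩ := hN1
  exact hN2 H hH hQ

end Pool.Agent.H543.MQ
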