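import Pool.Agent.H543.MQ.Clu
import Pool.Agent.H543.MQ.Pat

/-!
# Clusters: the theorem in a form ready for single polynomials
-/

set_option autoImplicit false

namespace Pool.Agent.H543.MQ

open Finset Filter Polynomial
open Pool.Agent.R498.MT (QG QG_eval QG_ne_zero)

/-- The value of `A X ^ 2 + B X + C`. -/
def val (A B C x : ℤ) : ℤ := A * x ^ 2 + B * x + C

/-- `f x` has at most two prime factors (with multiplicity), all of them `≥ N ^ (6 / 25)`, and `g x`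
has no prime factor `< N ^ δ`; here `f = A X ^ 2 + B X + C`. -/
def Gd (A B C : ℤ) (g : ℤ[X]) (δ : ℝ) (N x : ℕ) : Prop :=
  (val A B C x).natAbs.primeFactorsList.length ≤ 2 ∧
  (∀ p : ℕ, p.Prime → (p : ℤ) ∣ val A B C x → (N : ℝ) ^ (6 / 25 : ℝ) ≤ p) ∧
  ∀ p : ℕ, p.Prime → (p : ℤ) ∣ g.eval (x : ℤ) → (N : ℝ) ^ δ ≤ p

open Classical in
/-- **Bounded clusters of values with at most two prime factors.** -/
theorem inst (A B C : ℤ) (hA : 0 < A) (hD : ¬ IsSquare (B ^ 2 - 4 * A * C)) (g : ℤ[X])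
    (hg : g ≠ 0) (hfix : ∀ p : ℕ, p.Prime → ∃ n : ℤ, ¬ (p : ℤ) ∣ val A B C n * g.eval n) :
    ∃ δ₀ : ℝ, 0 < δ₀ ∧ ∀ m : ℕ, ∃ (K D : ℕ) (δ : ℝ), 0 < δ ∧
      ∀ E : ℕ → ℕ → Prop, (∀ N x, Gd A B C g δ N x → E N x) →
      (∀ S : Finset ℕ, K ≤ S.card → ∀ l : ℕ, 2 ≤ l → ∃ B' : ℕ, ∀ᶠ N : ℕ in atTop,
        ∀ X : ℕ, (N : ℝ) ^ (1 - δ₀) ≤ X → 2 * X ≤ N → ∃ H ⊆ S, H.card = m ∧
          X / Real.log N ^ D ≤
            (((Ioc N (N + X)).filter (fun n : ℕ => ∀ h ∈ H, E N (n + h))).card : ℝ) ∧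
          ∃ n d : ℕ, N < n ∧ n + (l - 1) * d ≤ N + X ∧ 1 ≤ d ∧ (d : ℝ) ≤ Real.log N ^ B' ∧
            ∀ j < l, ∀ h ∈ H, E N (n + j * d + h)) ∧
      (∀ U : Finset ℕ, K ≤ U.card → U.card.choose m ≤
        K.choose m * ((U.powersetCard m).filter (fun H => ∀ l : ℕ, 2 ≤ l → ∃ B' : ℕ,
          ∃ᶠ N : ℕ in atTop, (⌈(N : ℝ) ^ (1 - δ₀)⌉₊ : ℝ) / Real.log N ^ D ≤
            (((Ioc N (N + ⌈(N : ℝ) ^ (1 - δ₀)⌉₊)).filter
              (fun n : ℕ => ∀ h ∈ H, E N (n + h))).card : ℝ) ∧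
          ∃ n d : ℕ, N < n ∧ n + (l - 1) * d ≤ N + ⌈(N : ℝ) ^ (1 - δ₀)⌉₊ ∧ 1 ≤ d ∧
            (d : ℝ) ≤ Real.log N ^ B' ∧ ∀ j < l, ∀ h ∈ H, E N (n + j * d + h))).card) := by
  obtain ⟨A', rfl⟩ : ∃ A' : ℕ, A = A' := ⟨A.toNat, by omega⟩
  have hA' : 1 ≤ A' := by exact_mod_cast hA
  -- the polynomial `f g`
  have hf0 : QG A' B C ≠ 0 := by
    intro h
    have := congrArg (fun Q : ℤ[X] => Q.eval 0) h
    simp only [QG_eval, eval_zero] at this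
    exact QG_ne_zero A' B C hD 0 this
  have heval : ∀ n : ℤ, (QG A' B C * g).eval n = val A' B C n * g.eval n := by
    intro n
    rw [eval_mul, QG_eval]
    rfl
  obtain ⟨δ₀, hδ₀, hcl⟩ := clu_gen A' B C hA' hD
    (QG A' B C * g) (mul_ne_zero hf0 hg)
    (fun p hp => by
      obtain ⟨n, hn⟩ := hfix p hp
      exact ⟨n, by rwa [heval]⟩)
    (fun p hp n hpn => by
      rw [heval]
      exact Dvd.dvd.mul_right hpn _)
  have hgood : ∀ (δ : ℝ) (N x : ℕ), Gx A' B C (QG A' B C * g) N δ x → Gd A' B C g δ N x := by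
    intro δ N x h
    refine ⟨h.1, h.2.1, fun p hp hpx => h.2.2 p hp ?_⟩
    rw [heval]
    exact Dvd.dvd.mul_left hpx _
  -- small enough
  refine ⟨min δ₀ (1 / 2), lt_min hδ₀ (by norm_num), fun m => ?_⟩
  obtain ⟨K, D, δ, hδ, hcl⟩ := hcl m
  refine ⟨K, D, δ, hδ, fun E hE => ?_⟩
  have hcl' : ∀ S : Finset ℕ, K ≤ S.card → ∀ l : ℕ, 2 ≤ l → ∃ B' : ℕ, ∀ᶠ N : ℕ in atTop,
      ∀ X : ℕ, (N : ℝ) ^ (1 - min δ₀ (1 / 2)) ≤ X → 2 * X ≤ N → ∃ H ⊆ S, H.card = m ∧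
        X / Real.log N ^ D ≤
            (((Ioc N (N + X)).filter (fun n : ℕ => ∀ h ∈ H, E N (n + h))).card : ℝ) ∧
          ∃ n d : ℕ, N < n ∧ n + (l - 1) * d ≤ N + X ∧ 1 ≤ d ∧ (d : ℝ) ≤ Real.log N ^ B' ∧
            ∀ j < l, ∀ h ∈ H, E N (n + j * d + h) := by
    intro S hS l hl
    obtain ⟨B', hN⟩ := hcl S hS l hl
    refine ⟨B', ?_⟩
    filter_upwards [hN, eventually_ge_atTop 1] with N hN hN1 X hX1 hX2
    have hN1r : (1 : ℝ) ≤ N := by exact_mod_cast hN1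
    obtain ⟨H, hH, hHm, hnum, n, d, h1, h2, h3, h4, h5⟩ := hN X ((Real.rpow_le_rpow_of_exponent_le
      hN1r (by linarith [min_le_left δ₀ (1 / 2)])).trans hX1) hX2
    refine ⟨H, hH, hHm, hnum.trans ?_, n, d, h1, h2, h3, h4,
      fun j hj h hh => hE _ _ (hgood _ _ _ (h5 j hj h hh))⟩
    have : ((Ioc N (N + X)).filter (fun n : ℕ => ∀ h ∈ H, Gx A' B C
        (QG A' B C * g) N δ (n + h))).card ≤
        ((Ioc N (N + X)).filter (fun n : ℕ => ∀ h ∈ H, E N (n + h))).card :=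
      card_le_card (fun n hn => by
        rw [mem_filter] at hn ⊢
        exact ⟨hn.1, fun h hh => hE _ _ (hgood _ _ _ (hn.2 h hh))⟩)
    exact_mod_cast this
  refine ⟨hcl', ?_⟩
  have hX : ∀ᶠ N : ℕ in atTop, 2 * ⌈(N : ℝ) ^ (1 - min δ₀ (1 / 2))⌉₊ ≤ N := by
    have h0 : 0 < min δ₀ (1 / 2) := lt_min hδ₀ (by norm_num)
    have h1 : ∀ᶠ N : ℕ in atTop, (4 : ℝ) ≤ (N : ℝ) ^ (min δ₀ (1 / 2)) :=
      ((tendsto_rpow_atTop h0).comp tendsto_natCast_atTop_atTop).eventually_ge_atTop _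
    filter_upwards [h1, eventually_ge_atTop 4] with N h2 h3
    have h3r : (4 : ℝ) ≤ N := by exact_mod_cast h3
    have hN0 : (0 : ℝ) < N := by linarith
    have h4 := Nat.ceil_lt_add_one (show 0 ≤ (N : ℝ) ^ (1 - min δ₀ (1 / 2)) by positivity)
    have h5 : (N : ℝ) = (N : ℝ) ^ (1 - min δ₀ (1 / 2)) * (N : ℝ) ^ (min δ₀ (1 / 2)) := by
      rw [← Real.rpow_add hN0]
      norm_num
    have h6 : (N : ℝ) ^ (1 - min δ₀ (1 / 2)) * 4 ≤ N := by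
      conv_rhs => rw [h5]
      exact mul_le_mul_of_nonneg_left h2 (by positivity)
    have h7 : (2 : ℝ) * (⌈(N : ℝ) ^ (1 - min δ₀ (1 / 2))⌉₊ : ℝ) ≤ N := by linarith
    exact_mod_cast h7
  have hmK : m ≤ K := by
    obtain ⟨B', hN⟩ := hcl' (range K) (by rw [card_range]) 2 le_rfl
    obtain ⟨N, h1, h2⟩ := (hN.and hX).exists
    obtain ⟨H, hH, hHm, -⟩ := h1 _ (Nat.le_ceil _) h2
    rw [← hHm]
    exact (card_le_card hH).trans (by rw [card_range])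
  intro U hU
  apply pat_dens m K _ hmK _ U hU
  intro S hS
  have hfin : ∃ H ∈ S.powersetCard m, ∀ l : ℕ, 2 ≤ l → ∃ B' : ℕ, ∃ᶠ N : ℕ in atTop,
      (⌈(N : ℝ) ^ (1 - min δ₀ (1 / 2))⌉₊ : ℝ) / Real.log N ^ D ≤
            (((Ioc N (N + ⌈(N : ℝ) ^ (1 - min δ₀ (1 / 2))⌉₊)).filter
              (fun n : ℕ => ∀ h ∈ H, E N (n + h))).card : ℝ) ∧
          ∃ n d : ℕ, N < n ∧ n + (l - 1) * d ≤ N + ⌈(N : ℝ) ^ (1 - min δ₀ (1 / 2))⌉₊ ∧ 1 ≤ d ∧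
            (d : ℝ) ≤ Real.log N ^ B' ∧ ∀ j < l, ∀ h ∈ H, E N (n + j * d + h) := by
    apply pigeon_all
    · intro H l l' hll h hl
      obtain ⟨B', hB⟩ := h (hl.trans hll)
      refine ⟨B', hB.mono ?_⟩
      rintro N ⟨h1, n, d, h2, h3, h4, h5, h6⟩
      refine ⟨h1, n, d, h2, ?_, h4, h5, fun j hj => h6 j (by omega)⟩
      have : (l - 1) * d ≤ (l' - 1) * d := Nat.mul_le_mul_right _ (by omega)
      omega
    · intro l
      by_cases hl : 2 ≤ l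
      · obtain ⟨B', hN⟩ := hcl' S hS.ge l hl
        obtain ⟨H, hH, hf⟩ := pigeon_freq (S.powersetCard m)
          (fun H N => (⌈(N : ℝ) ^ (1 - min δ₀ (1 / 2))⌉₊ : ℝ) / Real.log N ^ D ≤
            (((Ioc N (N + ⌈(N : ℝ) ^ (1 - min δ₀ (1 / 2))⌉₊)).filter
              (fun n : ℕ => ∀ h ∈ H, E N (n + h))).card : ℝ) ∧
          ∃ n d : ℕ, N < n ∧ n + (l - 1) * d ≤ N + ⌈(N : ℝ) ^ (1 - min δ₀ (1 / 2))⌉₊ ∧ 1 ≤ d ∧
            (d : ℝ) ≤ Real.log N ^ B' ∧ ∀ j < l, ∀ h ∈ H, E N (n + j * d + h)) (by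
            filter_upwards [hN, hX] with N h1 h2
            obtain ⟨H, hH, hHm, h3, h4⟩ := h1 _ (Nat.le_ceil _) h2
            exact ⟨H, mem_powersetCard.2 ⟨hH, hHm⟩, h3, h4⟩)
        exact ⟨H, hH, fun _ => ⟨B', hf⟩⟩
      · obtain ⟨H, hH⟩ := powersetCard_nonempty.2 (show m ≤ S.card by omega)
        exact ⟨H, hH, fun h => absurd h hl⟩
  obtain ⟨H, hH, hr⟩ := hfin
  rw [mem_powersetCard] at hH
  exact ⟨H, hH.1, hH.2, hr⟩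

end Pool.Agent.H543.MQ
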