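import Pool.Agent.H543.MQ.Inst

/-!
# Clusters: the theorem with a condition that is needed for large numbers only
-/

set_option autoImplicit false

namespace Pool.Agent.H543.MQ

open Finset Filter Polynomial

/-- `2 ⌈N ^ (1 - δ₀)⌉ ≤ N` eventually -/
theorem ev_ceil (δ₀ : ℝ) (h0 : 0 < δ₀) :
    ∀ᶠ N : ℕ in atTop, 2 * ⌈(N : ℝ) ^ (1 - δ₀)⌉₊ ≤ N := by
  have h1 : ∀ᶠ N : ℕ in atTop, (4 : ℝ) ≤ (N : ℝ) ^ δ₀ :=
    ((tendsto_rpow_atTop h0).comp tendsto_natCast_atTop_atTop).eventually_ge_atTop _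
  filter_upwards [h1, eventually_ge_atTop 4] with N h2 h3
  have h3r : (4 : ℝ) ≤ N := by exact_mod_cast h3
  have hN0 : (0 : ℝ) < N := by linarith
  have h4 := Nat.ceil_lt_add_one (show 0 ≤ (N : ℝ) ^ (1 - δ₀) by positivity)
  have h5 : (N : ℝ) = (N : ℝ) ^ (1 - δ₀) * (N : ℝ) ^ δ₀ := by
    rw [← Real.rpow_add hN0]
    norm_num
  have h6 : (N : ℝ) ^ (1 - δ₀) * 4 ≤ N := by
    conv_rhs => rw [h5]
    exact mul_le_mul_of_nonneg_left h2 (by positivity)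
  have h7 : (2 : ℝ) * (⌈(N : ℝ) ^ (1 - δ₀)⌉₊ : ℝ) ≤ N := by linarith
  exact_mod_cast h7

open Classical in
/-- **Bounded clusters of values with at most two prime factors**, with a condition `E` that follows
for large `N` and `N < x ≤ 2 N`. -/
theorem inst2 (A B C : ℤ) (hA : 0 < A) (hD : ¬ IsSquare (B ^ 2 - 4 * A * C)) (g : ℤ[X])
    (hg : g ≠ 0) (hfix : ∀ p : ℕ, p.Prime → ∃ n : ℤ, ¬ (p : ℤ) ∣ val A B C n * g.eval n) :
    ∃ δ₀ : ℝ, 0 < δ₀ ∧ ∀ m : ℕ, ∃ (K D : ℕ) (δ : ℝ), 0 < δ ∧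
      ∀ E : ℕ → ℕ → Prop,
      (∀ᶠ N : ℕ in atTop, ∀ x : ℕ, N < x → x ≤ 2 * N → Gd A B C g δ N x → E N x) →
      (∀ S : Finset ℕ, K ≤ S.card → ∀ l : ℕ, 2 ≤ l → ∃ B' : ℕ, ∀ᶠ N : ℕ in atTop,
        ∀ X : ℕ, (N : ℝ) ^ (1 - δ₀) ≤ X → 2 * X ≤ N → ∃ H ⊆ S, H.card = m ∧
          X / Real.log N ^ D ≤
            (((Ioc N (N + X)).filter (fun n : ℕ => ∀ h ∈ H, E N (n + h))).card : ℝ) ∧
          ∃ n d : ℕ, N < n ∧ n + (l - 1) * d ≤ N + X ∧ 1 ≤ d ∧ (d : ℝ) ≤ Real.log N ^ B' ∧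
            ∀ j < l, ∀ h ∈ H, E N (n + j * d + h)) ∧
      (∀ U : Finset ℕ, K ≤ U.card → U.card.choose m ≤
        K.choose m * ((U.powersetCard m).filter (fun H => ∀ l : ℕ, 2 ≤ l → ∃ B' : ℕ,
          ∃ᶠ N : ℕ in atTop, (⌈(N : ℝ) ^ (1 - δ₀)⌉₊ : ℝ) / Real.log N ^ D ≤
            (((Ioc N (N + ⌈(N : ℝ) ^ (1 - δ₀)⌉₊)).filter
              (fun n : ℕ => ∀ h ∈ H, E N (n + h))).card : ℝ) ∧
          ∃ n d : ℕ, N < n ∧ n + (l - 1) * d ≤ N + ⌈(N : ℝ) ^ (1 - δ₀)⌉₊ ∧ 1 ≤ d ∧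
            (d : ℝ) ≤ Real.log N ^ B' ∧ ∀ j < l, ∀ h ∈ H, E N (n + j * d + h))).card) := by
  obtain ⟨δ₀, h0, h⟩ := inst A B C hA hD g hg hfix
  refine ⟨δ₀, h0, fun m => ?_⟩
  obtain ⟨K, D, δ, hδ, h⟩ := h m
  refine ⟨K, D, δ, hδ, fun E hE => ?_⟩
  obtain ⟨h1, h2⟩ := h (Gd A B C g δ) (fun _ _ hx => hx)
  -- the conversion
  have conv : ∀ (N X : ℕ) (H : Finset ℕ), 2 * X ≤ N → (∀ h ∈ H, 2 * h ≤ N) →
      (∀ x : ℕ, N < x → x ≤ 2 * N → Gd A B C g δ N x → E N x) →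
      ((((Ioc N (N + X)).filter (fun n : ℕ => ∀ h ∈ H, Gd A B C g δ N (n + h))).card : ℝ) ≤
        (((Ioc N (N + X)).filter (fun n : ℕ => ∀ h ∈ H, E N (n + h))).card : ℝ)) ∧
      ∀ (l B' : ℕ), 2 ≤ l → (∃ n d : ℕ, N < n ∧ n + (l - 1) * d ≤ N + X ∧ 1 ≤ d ∧
          (d : ℝ) ≤ Real.log N ^ B' ∧ ∀ j < l, ∀ h ∈ H, Gd A B C g δ N (n + j * d + h)) →
        ∃ n d : ℕ, N < n ∧ n + (l - 1) * d ≤ N + X ∧ 1 ≤ d ∧
          (d : ℝ) ≤ Real.log N ^ B' ∧ ∀ j < l, ∀ h ∈ H, E N (n + j * d + h) := by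
    intro N X H hX hH hN
    constructor
    · have : ((Ioc N (N + X)).filter (fun n : ℕ => ∀ h ∈ H, Gd A B C g δ N (n + h))).card ≤
          ((Ioc N (N + X)).filter (fun n : ℕ => ∀ h ∈ H, E N (n + h))).card :=
        card_le_card (fun n hn => by
          rw [mem_filter, mem_Ioc] at hn ⊢
          refine ⟨hn.1, fun h hh => hN _ (by omega) ?_ (hn.2 h hh)⟩
          have := hH h hh
          omega)
      exact_mod_cast this
    · rintro l B' hl ⟨n, d, e1, e2, e3, e4, e5⟩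
      refine ⟨n, d, e1, e2, e3, e4, fun j hj h hh => hN _ (by omega) ?_ (e5 j hj h hh)⟩
      have h3 := hH h hh
      have h4 : j * d ≤ (l - 1) * d := Nat.mul_le_mul_right _ (by omega)
      omega
  constructor
  · intro S hS l hl
    obtain ⟨B', hN⟩ := h1 S hS l hl
    refine ⟨B', ?_⟩
    filter_upwards [hN, hE, eventually_ge_atTop (2 * S.sup id)] with N h3 h4 h5 X hX1 hX2
    obtain ⟨H, hH, hHm, h6, h7⟩ := h3 X hX1 hX2
    have hHb : ∀ h ∈ H, 2 * h ≤ N := by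
      intro h hh
      have : h ≤ S.sup id := Finset.le_sup (f := id) (hH hh)
      omega
    obtain ⟨c1, c2⟩ := conv N X H hX2 hHb h4
    exact ⟨H, hH, hHm, h6.trans c1, c2 l B' hl h7⟩
  · intro U hU
    refine (h2 U hU).trans (Nat.mul_le_mul_left _ (card_le_card ?_))
    intro H hH
    rw [mem_filter] at hH ⊢
    refine ⟨hH.1, fun l hl => ?_⟩
    obtain ⟨B', hB⟩ := hH.2 l hl
    refine ⟨B', ?_⟩
    have h3 := hB.and_eventually ((hE.and (ev_ceil δ₀ h0)).and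
      (eventually_ge_atTop (2 * U.sup id)))
    refine h3.mono ?_
    rintro N ⟨⟨h6, h7⟩, ⟨h4, h5⟩, h8⟩
    have hHb : ∀ h ∈ H, 2 * h ≤ N := by
      intro h hh
      have : h ≤ U.sup id := Finset.le_sup (f := id) ((mem_powersetCard.1 hH.1).1 hh)
      omega
    obtain ⟨c1, c2⟩ := conv N _ H h5 hHb h4
    exact ⟨h6.trans c1, c2 l B' hl h7⟩

/-- a number without small prime factors has few prime factors -/
theorem om_le (n : ℕ) (hn : n ≠ 0) (y : ℝ) (hy : 1 ≤ y)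
    (h : ∀ p : ℕ, p.Prime → p ∣ n → y ≤ p) : y ^ n.primeFactorsList.length ≤ n := by
  have h1 : ∀ l : List ℕ, (∀ p ∈ l, y ≤ (p : ℝ)) → y ^ l.length ≤ ((l.prod : ℕ) : ℝ) := by
    intro l
    induction l with
    | nil => intro _; simp
    | cons a l ih =>
      intro h
      rw [List.length_cons, pow_succ, List.prod_cons, Nat.cast_mul, mul_comm]
      exact mul_le_mul (h a (by simp)) (ih (fun p hp => h p (by simp [hp]))) (by positivity)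
        (Nat.cast_nonneg a)
  have h2 := h1 n.primeFactorsList (fun p hp => h p (Nat.prime_of_mem_primeFactorsList hp)
    (Nat.dvd_of_mem_primeFactorsList hp))
  rwa [Nat.prod_primeFactorsList hn] at h2

/-- at most `r` prime factors, `r = ⌈2 / δ⌉`, for numbers up to `c N` without prime factors `< N ^ δ` -/
theorem ev_om (δ : ℝ) (hδ : 0 < δ) (c : ℕ) : ∀ᶠ N : ℕ in atTop, ∀ n : ℕ, n ≠ 0 → n ≤ c * N →
    (∀ p : ℕ, p.Prime → p ∣ n → (N : ℝ) ^ δ ≤ p) → n.primeFactorsList.length ≤ ⌈2 / δ⌉₊ := by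
  filter_upwards [eventually_ge_atTop (c + 2)] with N hN n hn0 hn h
  have hNr : (2 : ℝ) ≤ N := by exact_mod_cast (by omega : 2 ≤ N)
  have hN0 : (0 : ℝ) < N := by linarith
  have h1 := om_le n hn0 ((N : ℝ) ^ δ) (Real.one_le_rpow (by linarith) hδ.le) h
  by_contra hcon
  push Not at hcon
  have h2 : (2 : ℝ) / δ < n.primeFactorsList.length := (Nat.le_ceil _).trans_lt (by exact_mod_cast hcon)
  have h3 : (n : ℝ) < (N : ℝ) ^ (2 : ℝ) := by
    have : (n : ℝ) ≤ c * N := by exact_mod_cast hn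
    have hc : (c : ℝ) < N := by exact_mod_cast (by omega : c < N)
    calc (n : ℝ) ≤ c * N := this
      _ < N * N := by nlinarith
      _ = _ := by rw [Real.rpow_two]; ring
  have h4 : (N : ℝ) ^ (2 : ℝ) ≤ ((N : ℝ) ^ δ) ^ n.primeFactorsList.length := by
    rw [← Real.rpow_natCast, ← Real.rpow_mul hN0.le]
    apply Real.rpow_le_rpow_of_exponent_le (by linarith)
    rw [div_lt_iff₀ hδ] at h2
    linarith
  linarith

/-- a cubic polynomial `(d X + x) (u X ^ 2 + v X + w)` without fixed prime divisor -/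
theorem cubic (d x u v w : ℤ) (hd : ∀ p : ℕ, p.Prime → (p : ℤ) ∣ 6 * d * u → ¬ (p : ℤ) ∣ x * w)
    (p : ℕ) (hp : p.Prime) :
    ∃ n : ℤ, ¬ (p : ℤ) ∣ (u * n ^ 2 + v * n + w) * (d * n + x) := by
  by_cases h : (p : ℤ) ∣ 6 * d * u
  · refine ⟨0, ?_⟩
    have := hd p hp h
    rw [show (u * (0 : ℤ) ^ 2 + v * 0 + w) * (d * 0 + x) = x * w by ring]
    exact this
  · by_contra hcon
    push Not at hcon
    have h0 := hcon 0
    have h1 := hcon 1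
    have h2 := hcon 2
    have h3 := hcon 3
    -- the third difference is `6 d u`
    apply h
    have e : 6 * d * u = ((u * 3 ^ 2 + v * 3 + w) * (d * 3 + x)) -
        3 * ((u * 2 ^ 2 + v * 2 + w) * (d * 2 + x)) + 3 * ((u * 1 ^ 2 + v * 1 + w) * (d * 1 + x)) -
        ((u * 0 ^ 2 + v * 0 + w) * (d * 0 + x)) := by ring
    rw [e]
    exact dvd_sub (dvd_add (dvd_sub h3 (Dvd.dvd.mul_left h2 3)) (Dvd.dvd.mul_left h1 3)) h0

end Pool.Agent.H543.MQ
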