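import Pool.Agent.H543.MQ.Inst2

/-!
# Clusters of almost prime solutions of `a P ^ 2 + b P + c = d Q`
-/

set_option autoImplicit false

namespace Pool.Agent.H543.MQ

open Finset Filter Polynomial

/-- `n > 0` has at most `r` prime factors (with multiplicity), all of them `≥ y`. -/
def AlP (r : ℕ) (y : ℝ) (n : ℤ) : Prop :=
  0 < n ∧ n.natAbs.primeFactorsList.length ≤ r ∧ ∀ p : ℕ, p.Prime → (p : ℤ) ∣ n → y ≤ p

open Classical in
/-- **Clusters of almost prime solutions of `a P ^ 2 + b P + c = d Q`.** -/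
theorem pairs (a b c d x₀ y₀ : ℤ) (ha : 0 < a) (hd : 0 < d) (hD : ¬ IsSquare (b ^ 2 - 4 * a * c))
    (hco : Int.gcd (x₀ * y₀) (6 * a * d) = 1) (hxy : a * x₀ ^ 2 + b * x₀ + c = d * y₀) :
    ∃ δ₀ : ℝ, 0 < δ₀ ∧ ∀ m : ℕ, ∃ (K D r : ℕ) (δ : ℝ), 0 < δ ∧
      ∀ E : ℕ → ℕ → Prop, (∀ N x : ℕ, N < x → AlP r ((N : ℝ) ^ δ) (d * x + x₀) →
        (∃ Q : ℤ, a * (d * x + x₀) ^ 2 + b * (d * x + x₀) + c = d * Q ∧
          AlP 2 ((N : ℝ) ^ (6 / 25 : ℝ)) Q) → E N x) →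
      (∀ S : Finset ℕ, K ≤ S.card → ∀ l : ℕ, 2 ≤ l → ∃ B' : ℕ, ∀ᶠ N : ℕ in atTop,
        ∀ X : ℕ, (N : ℝ) ^ (1 - δ₀) ≤ X → 2 * X ≤ N → ∃ H ⊆ S, H.card = m ∧
          X / Real.log N ^ D ≤
            (((Ioc N (N + X)).filter (fun n : ℕ => ∀ h ∈ H, E N (n + h))).card : ℝ) ∧
          ∃ n d : ℕ, N < n ∧ n + (l - 1) * d ≤ N + X ∧ 1 ≤ d ∧ (d : ℝ) ≤ Real.log N ^ B' ∧
            ∀ j < l, ∀ h ∈ H, E N (n + j * d + h)) ∧
      (∀ U : Finset ℕ, K ≤ U.card → U.card.choose m ≤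
        K.choose m * ((U.powersetCard m).filter (fun H => ∀ l : ℕ, 2 ≤ l → ∃ B' : ℕ,
          ∃ᶠ N : ℕ in atTop, (⌈(N : ℝ) ^ (1 - δ₀)⌉₊ : ℝ) / Real.log N ^ D ≤
            (((Ioc N (N + ⌈(N : ℝ) ^ (1 - δ₀)⌉₊)).filter
              (fun n : ℕ => ∀ h ∈ H, E N (n + h))).card : ℝ) ∧
          ∃ n d : ℕ, N < n ∧ n + (l - 1) * d ≤ N + ⌈(N : ℝ) ^ (1 - δ₀)⌉₊ ∧ 1 ≤ d ∧
            (d : ℝ) ≤ Real.log N ^ B' ∧ ∀ j < l, ∀ h ∈ H, E N (n + j * d + h))).card) := by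
  have hgv : ∀ x : ℤ, ((C d * X + C x₀) : ℤ[X]).eval x = d * x + x₀ := by
    intro x
    simp
  have hgne : ((C d * X + C x₀) : ℤ[X]) ≠ 0 := by
    intro h
    have h1 := congrArg (fun Q : ℤ[X] => Q.eval 0) h
    have h2 := congrArg (fun Q : ℤ[X] => Q.eval 1) h
    simp only [hgv, eval_zero] at h1 h2
    omega
  have hval : ∀ x : ℤ, a * (d * x + x₀) ^ 2 + b * (d * x + x₀) + c =
      d * val (a * d) (2 * a * x₀ + b) y₀ x := by
    intro x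
    unfold val
    have e : a * (d * x + x₀) ^ 2 + b * (d * x + x₀) + c =
      d * (a * d * x ^ 2 + (2 * a * x₀ + b) * x) + (a * x₀ ^ 2 + b * x₀ + c) := by ring
    rw [e, hxy]
    ring
  have hsq : ¬ IsSquare ((2 * a * x₀ + b) ^ 2 - 4 * (a * d) * y₀) := by
    have e : (2 * a * x₀ + b) ^ 2 - 4 * (a * d) * y₀ = b ^ 2 - 4 * a * c := by
      have e2 : 4 * (a * d) * y₀ = 4 * a * (a * x₀ ^ 2 + b * x₀ + c) := by rw [hxy]; ring
      rw [e2]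
      ring
    rw [e]
    exact hD
  have hpr : ∀ p : ℕ, p.Prime → (p : ℤ) ∣ 6 * d * (a * d) → ¬ (p : ℤ) ∣ x₀ * y₀ := by
    intro p hp h1 h2
    have hpz : Prime (p : ℤ) := Nat.prime_iff_prime_int.1 hp
    have h3 : (p : ℤ) ∣ 6 * a * d := by
      have h4 : (p : ℤ) ∣ (6 * a * d) * d := by
        rw [show (6 * a * d) * d = 6 * d * (a * d) by ring]
        exact h1
      rcases hpz.dvd_or_dvd h4 with h5 | h5
      · exact h5
      · exact Dvd.dvd.mul_left h5 _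
    have h4 : (p : ℤ) ∣ (Int.gcd (x₀ * y₀) (6 * a * d) : ℤ) := Int.dvd_coe_gcd h2 h3
    rw [hco] at h4
    have h5 : p ∣ 1 := by exact_mod_cast h4
    exact hp.one_lt.ne' (Nat.dvd_one.1 h5)
  obtain ⟨δ₀, h0, h⟩ := inst2 (a * d) (2 * a * x₀ + b) y₀ (by positivity) hsq
    (C d * X + C x₀) hgne (by
      intro p hp
      obtain ⟨n, hn⟩ := cubic d x₀ (a * d) (2 * a * x₀ + b) y₀ hpr p hp
      exact ⟨n, by rw [hgv]; exact hn⟩)
  refine ⟨δ₀, h0, fun m => ?_⟩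
  obtain ⟨K, D, δ, hδ, h⟩ := h m
  refine ⟨K, D, ⌈2 / δ⌉₊, δ, hδ, fun E hE => h E ?_⟩
  filter_upwards [ev_om δ hδ (2 * d.natAbs + x₀.natAbs), eventually_ge_atTop
    ((2 * a * x₀ + b).natAbs + y₀.natAbs + x₀.natAbs + 1)] with N h1 h2 x hx1 hx2 hx
  obtain ⟨e1, e2, e3⟩ := hx
  have hxz : (N : ℤ) < x := by exact_mod_cast hx1
  have hxz2 : (x : ℤ) ≤ 2 * N := by exact_mod_cast hx2
  have hNz : ((2 * a * x₀ + b).natAbs : ℤ) + y₀.natAbs + x₀.natAbs + 1 ≤ N := by exact_mod_cast h2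
  have hb1 : |2 * a * x₀ + b| = ((2 * a * x₀ + b).natAbs : ℤ) := Int.abs_eq_natAbs _
  have hb2 : |y₀| = (y₀.natAbs : ℤ) := Int.abs_eq_natAbs _
  have hb3 : |x₀| = (x₀.natAbs : ℤ) := Int.abs_eq_natAbs _
  have hP0 : 0 < d * (x : ℤ) + x₀ := by
    have h3 : -|x₀| ≤ x₀ := neg_abs_le x₀
    have h4 : (x : ℤ) ≤ d * x := by nlinarith
    omega
  have hQ0 : 0 < val (a * d) (2 * a * x₀ + b) y₀ x := by
    unfold val
    have h3 : -|2 * a * x₀ + b| ≤ 2 * a * x₀ + b := neg_abs_le _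
    have h4 : -|y₀| ≤ y₀ := neg_abs_le _
    have h5 : (0 : ℤ) < x := by omega
    have h6 : (1 : ℤ) ≤ a * d := by
      have : 0 < a * d := by positivity
      omega
    have h7 : -|2 * a * x₀ + b| * (x : ℤ) ≤ (2 * a * x₀ + b) * x :=
      mul_le_mul_of_nonneg_right h3 h5.le
    have h8 : (x : ℤ) ^ 2 ≤ a * d * (x : ℤ) ^ 2 := by nlinarith [sq_nonneg (x : ℤ)]
    have h9 : (|2 * a * x₀ + b| + |y₀| + 1) * (x : ℤ) ≤ (x : ℤ) ^ 2 := by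
      rw [sq]
      apply mul_le_mul_of_nonneg_right _ h5.le
      rw [hb1, hb2]
      omega
    have h10 : |y₀| ≤ |y₀| * (x : ℤ) := by nlinarith [abs_nonneg y₀]
    nlinarith
  apply hE N x hx1
  · refine ⟨hP0, h1 _ (Int.natAbs_ne_zero.2 hP0.ne') ?_ ?_, fun p hp hpx => e3 p hp (by
      rw [hgv]; exact hpx)⟩
    · have h3 : (d * (x : ℤ) + x₀).natAbs ≤ d.natAbs * x + x₀.natAbs := by
        refine (Int.natAbs_add_le _ _).trans ?_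
        rw [Int.natAbs_mul, Int.natAbs_natCast]
      have h4 : d.natAbs * x ≤ d.natAbs * (2 * N) := Nat.mul_le_mul_left _ hx2
      have h5 : x₀.natAbs ≤ x₀.natAbs * N := Nat.le_mul_of_pos_right _ (by omega)
      calc (d * (x : ℤ) + x₀).natAbs ≤ d.natAbs * x + x₀.natAbs := h3
        _ ≤ d.natAbs * (2 * N) + x₀.natAbs * N := by omega
        _ = _ := by ring
    · intro p hp hpx
      apply e3 p hp
      rw [hgv]
      exact Int.natCast_dvd.2 hpx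
  · exact ⟨val (a * d) (2 * a * x₀ + b) y₀ x, hval x, hQ0, e1, e2⟩

end Pool.Agent.H543.MQ
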