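import Pool.Agent.H543.MQ.Def
import Pool.Graph.R_seed8.R498.MT.Core

/-!
# The remainder condition from the remainders in residue classes
-/

set_option autoImplicit false
set_option linter.unusedSectionVars false

namespace Pool.Agent.H543.MQ

open Finset
open Pool.Agent.R498.MT
open Pool.Agent.Y677.RSZ (rt Sys rhoT per_mod)
open Pool.Agent.TH423.SH (PS)
open Pool.Agent.Y882
open Pool.Agent.Y882.PX

open Classical in
/-- the value at `K` of the presieve with the weights `cU` -/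
noncomputable def th (F : ℤ → ℤ) (W b : ℕ) {m : ℕ} (t : Fin m → ℕ) (P : Finset ℕ)
    (cU : Finset ℕ → ℝ) (K : ℕ) : ℝ :=
  VV P cU (fun p => if ∃ i, (p : ℤ) ∣ F ((W * (K + t i) + b : ℕ) : ℤ) then 1 else 0)

namespace REM

/-! ### Indicators -/

open Classical in
/-- the indicator of a proposition -/
noncomputable def ind (p : Prop) : ℝ := if p then 1 else 0

theorem ite_ind (p : Prop) [Decidable p] : (if p then (1 : ℝ) else 0) = ind p := by
  unfold ind
  by_cases h : p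
  · rw [if_pos h, if_pos h]
  · rw [if_neg h, if_neg h]

theorem ind_pos {p : Prop} (h : p) : ind p = 1 := by
  unfold ind
  rw [if_pos h]

theorem ind_neg {p : Prop} (h : ¬ p) : ind p = 0 := by
  unfold ind
  rw [if_neg h]

theorem ind_congr {p q : Prop} (h : p ↔ q) : ind p = ind q := by
  by_cases h1 : p
  · rw [ind_pos h1, ind_pos (h.1 h1)]
  · rw [ind_neg h1, ind_neg (fun h2 => h1 (h.2 h2))]

theorem ind_and (p q : Prop) : ind (p ∧ q) = ind p * ind q := by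
  by_cases h1 : p
  · by_cases h2 : q
    · rw [ind_pos h1, ind_pos h2, ind_pos ⟨h1, h2⟩, one_mul]
    · rw [ind_neg h2, ind_neg (fun h => h2 h.2), mul_zero]
  · rw [ind_neg h1, ind_neg (fun h => h1 h.1), zero_mul]

theorem card_ind (N : Finset ℕ) (p : ℕ → Prop) [DecidablePred p] :
    ((N.filter p).card : ℝ) = ∑ K ∈ N, ind (p K) := by
  rw [card_filter]
  push_cast
  exact sum_congr rfl fun K _ => ite_ind _

theorem prodInd (e : Finset ℕ) (P : ℕ → Prop) : ∏ p ∈ e, ind (P p) = ind (∀ p ∈ e, P p) := by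
  by_cases h : ∀ p ∈ e, P p
  · rw [ind_pos h]
    exact prod_eq_one fun p hp => ind_pos (h p hp)
  · rw [ind_neg h]
    push Not at h
    obtain ⟨p, hp, h1⟩ := h
    exact prod_eq_zero hp (ind_neg h1)

section cls
variable {S : Type} [Fintype S] [DecidableEq S] (pp : S → ℕ) (hpr : ∀ s, (pp s).Prime)
  (hinj : Function.Injective pp)

/-- the conditions at the slots of `V` -/
def cV (G : ℤ → ℤ) (W b : ℕ) {m : ℕ} (t : Fin m → ℕ) (V : S → Option (Fin m)) (K : ℕ) : Prop :=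
  ∀ s j, V s = some j → (pp s : ℤ) ∣ G ((W * (K + t j) + b : ℕ) : ℤ)

/-- the conditions of the presieve -/
def cE (F : ℤ → ℤ) (W b : ℕ) {m : ℕ} (t : Fin m → ℕ) (e : Finset ℕ) (K : ℕ) : Prop :=
  ∀ p ∈ e, ∃ j, (p : ℤ) ∣ F ((W * (K + t j) + b : ℕ) : ℤ)

include hpr hinj in
theorem cV_per (G : ℤ → ℤ) (hG : ∀ p : ℕ, p.Prime → ∀ n : ℤ, (p : ℤ) ∣ G (n + p) - G n)
    (W b : ℕ) {m : ℕ} (t : Fin m → ℕ) (V : S → Option (Fin m)) (K : ℕ) :
    cV pp G W b t V K ↔ cV pp G W b t V (K % DT pp V) := by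
  unfold cV
  rw [← CT_iff pp hpr hinj G hG W b t V K, ← CT_iff pp hpr hinj G hG W b t V (K % DT pp V),
    Nat.mod_mod]

open Classical in
include hpr hinj in
theorem cV_card (G : ℤ → ℤ) (hG : ∀ p : ℕ, p.Prime → ∀ n : ℤ, (p : ℤ) ∣ G (n + p) - G n)
    (W b : ℕ) (hW : ∀ s, ¬ pp s ∣ W) {m : ℕ} (t : Fin m → ℕ) (V : S → Option (Fin m)) :
    ((range (DT pp V)).filter (cV pp G W b t V)).card =
      ∏ s, if V s = none then 1 else rt G (pp s) := by
  rw [← CT_card pp hpr hinj G hG W b hW t V]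
  apply congrArg Finset.card
  ext r
  rw [mem_filter, mem_range]
  constructor
  · rintro ⟨h1, h2⟩
    have h3 := (CT_iff pp hpr hinj G hG W b t V r).2 h2
    rwa [Nat.mod_eq_of_lt h1] at h3
  · intro h
    have h1 : r < DT pp V := by
      unfold CT at h
      rw [mem_filter, mem_range] at h
      exact h.1
    refine ⟨h1, (CT_iff pp hpr hinj G hG W b t V r).1 ?_⟩
    rwa [Nat.mod_eq_of_lt h1]

theorem cE_mod {F : ℤ → ℤ} (hF : ∀ p : ℕ, p.Prime → ∀ n : ℤ, (p : ℤ) ∣ F (n + p) - F n)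
    (W b : ℕ) {m : ℕ} (t : Fin m → ℕ) {p : ℕ} (hp : p.Prime) {K K' : ℕ} (h : K ≡ K' [MOD p]) :
    (∃ j, (p : ℤ) ∣ F ((W * (K + t j) + b : ℕ) : ℤ)) ↔
      ∃ j, (p : ℤ) ∣ F ((W * (K' + t j) + b : ℕ) : ℤ) :=
  exists_congr fun _ => per_mod hF hp _ _ (((h.add_right _).mul_left _).add_right _)

theorem cE_per {F : ℤ → ℤ} (hF : ∀ p : ℕ, p.Prime → ∀ n : ℤ, (p : ℤ) ∣ F (n + p) - F n)
    (W b : ℕ) {m : ℕ} (t : Fin m → ℕ) (e : Finset ℕ) (he : ∀ p ∈ e, p.Prime) (K : ℕ) :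
    cE F W b t e K ↔ cE F W b t e (K % ∏ p ∈ e, p) := by
  unfold cE
  refine forall_congr' fun p => imp_congr_right fun hp => ?_
  exact cE_mod hF W b t (he p hp) ((Nat.mod_modEq K _).symm.of_dvd (dvd_prod_of_mem _ hp))

open Classical in
theorem cE_card {F : ℤ → ℤ} (hF : ∀ p : ℕ, p.Prime → ∀ n : ℤ, (p : ℤ) ∣ F (n + p) - F n)
    (W b : ℕ) {m : ℕ} (t : Fin m → ℕ) (e : Finset ℕ) (he : ∀ p ∈ e, p.Prime) :
    ((range (∏ p ∈ e, p)).filter (cE F W b t e)).card = ∏ p ∈ e, rhoT F W b t p := by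
  have h := Pool.Agent.Y833.RSZ.card_prod e he
    (fun p K => ∃ j, (p : ℤ) ∣ F ((W * (K + t j) + b : ℕ) : ℤ))
    (fun p hp K => cE_mod hF W b t (he p hp) (Nat.mod_modEq K p).symm)
  refine Eq.trans (Pool.Agent.Y833.RSZ.card_filter_eq fun r _ => Iff.rfl) (h.trans ?_)
  refine prod_congr rfl fun p _ => ?_
  unfold rhoT
  exact Pool.Agent.Y833.RSZ.card_filter_eq fun r _ => Iff.rfl

include hpr in
theorem cop_e {m : ℕ} (V : S → Option (Fin m)) (e : Finset ℕ) (he : ∀ p ∈ e, p.Prime)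
    (hne : ∀ s, ∀ p ∈ e, p ≠ pp s) : Nat.Coprime (DT pp V) (∏ p ∈ e, p) := by
  unfold DT
  apply Nat.Coprime.prod_left
  intro s _
  apply Nat.Coprime.prod_right
  intro p hp
  split_ifs
  · exact Nat.coprime_one_left p
  · exact (Nat.coprime_primes (hpr s) (he p hp)).2 fun h => hne s p hp h.symm

open Classical in
include hpr hinj in
/-- the number of the classes -/
theorem cc_card (F G : ℤ → ℤ) (hF : ∀ p : ℕ, p.Prime → ∀ n : ℤ, (p : ℤ) ∣ F (n + p) - F n)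
    (hG : ∀ p : ℕ, p.Prime → ∀ n : ℤ, (p : ℤ) ∣ G (n + p) - G n)
    (W b : ℕ) (hW : ∀ s, ¬ pp s ∣ W) {m : ℕ} (t : Fin m → ℕ) (V : S → Option (Fin m))
    (e : Finset ℕ) (he : ∀ p ∈ e, p.Prime) (hne : ∀ s, ∀ p ∈ e, p ≠ pp s) :
    (((range (DT pp V * ∏ p ∈ e, p)).filter
      (fun r => cV pp G W b t V r ∧ cE F W b t e r)).card : ℝ) =
      ((DT pp V * ∏ p ∈ e, p : ℕ) : ℝ) *
        ((∏ p ∈ e, (rhoT F W b t p : ℝ) / p) *
          ∏ s, rr (fun _ => (rt G (pp s) : ℝ) / pp s) (V s)) := by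
  have h1 := Pool.Agent.Y833.RSZ.card_mul (DT_pos pp hpr V)
    (prod_pos fun p hp => (he p hp).pos) (cop_e pp hpr V e he hne)
    (cV pp G W b t V) (cE F W b t e) (cV_per pp hpr hinj G hG W b t V) (cE_per hF W b t e he)
  rw [cV_card pp hpr hinj G hG W b hW t V, cE_card hF W b t e he] at h1
  have h2 : ((range (DT pp V * ∏ p ∈ e, p)).filter
      (fun r => cV pp G W b t V r ∧ cE F W b t e r)).card =
      (∏ s, if V s = none then 1 else rt G (pp s)) * ∏ p ∈ e, rhoT F W b t p :=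
    Eq.trans (Pool.Agent.Y833.RSZ.card_filter_eq fun r _ => Iff.rfl) h1
  rw [h2]
  have h3 : ((∏ s, if V s = none then 1 else rt G (pp s) : ℕ) : ℝ) =
      (DT pp V : ℝ) * ∏ s, rr (fun _ => (rt G (pp s) : ℝ) / pp s) (V s) := by
    unfold DT
    push_cast
    rw [← prod_mul_distrib]
    refine prod_congr rfl fun s _ => ?_
    rcases V s with _ | j
    · simp [Pool.Agent.R498.MT.rr]
    · have : (pp s : ℝ) ≠ 0 := by exact_mod_cast (hpr s).ne_zero
      simp only [reduceCtorEq, if_false, Pool.Agent.R498.MT.rr]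
      field_simp
  have h4 : ((∏ p ∈ e, rhoT F W b t p : ℕ) : ℝ) =
      ((∏ p ∈ e, p : ℕ) : ℝ) * ∏ p ∈ e, (rhoT F W b t p : ℝ) / p := by
    push_cast
    rw [← prod_mul_distrib]
    refine prod_congr rfl fun p hp => ?_
    have : (p : ℝ) ≠ 0 := by exact_mod_cast (he p hp).ne_zero
    field_simp
  rw [Nat.cast_mul, h3, h4, Nat.cast_mul]
  ring

include hpr hinj in
/-- the remainder for one set `e` of presieve primes -/
theorem rem_e (F G : ℤ → ℤ) (hF : ∀ p : ℕ, p.Prime → ∀ n : ℤ, (p : ℤ) ∣ F (n + p) - F n)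
    (hG : ∀ p : ℕ, p.Prime → ∀ n : ℤ, (p : ℤ) ∣ G (n + p) - G n)
    (W b : ℕ) (hW : ∀ s, ¬ pp s ∣ W) {m : ℕ} (t : Fin m → ℕ) (V : S → Option (Fin m))
    (e : Finset ℕ) (he : ∀ p ∈ e, p.Prime) (hne : ∀ s, ∀ p ∈ e, p ≠ pp s)
    (q : S → ℝ) (hq : ∀ s, 1 / q s = (rt G (pp s) : ℝ) / pp s)
    (i : Fin m) (hV : ∀ s, V s ≠ some i) (cL : Finset S → ℝ) (B1 L : ℝ) (N : Finset ℕ)
    (hU : ∀ (K : ℕ) (s : S) i j, (pp s : ℤ) ∣ G ((W * (K + t i) + b : ℕ) : ℤ) →
      (pp s : ℤ) ∣ G ((W * (K + t j) + b : ℕ) : ℤ) → i = j)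
    (hB : ∀ D c : ℕ, 1 ≤ D → |∑ T, cL T * (if ∀ s ∈ T, Nat.Coprime (pp s) D then
      (∑ K ∈ N, ind (K % D = c % D ∧ ∀ s ∈ T, (pp s : ℤ) ∣ G ((W * (K + t i) + b : ℕ) : ℤ)) -
        L / D * ∏ s ∈ T, 1 / q s) else 0)| ≤ B1) :
    |∑ T, cL T * (∑ K ∈ N, ind (cE F W b t e K) * (ind (cV pp G W b t V K) *
        ind (∀ s ∈ T, (pp s : ℤ) ∣ G ((W * (K + t i) + b : ℕ) : ℤ))) -
      L * (∏ p ∈ e, (rhoT F W b t p : ℝ) / p) *
        ((∏ s, rr (fun _ : Fin m => 1 / q s) (V s)) *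
          (if ∀ s ∈ T, V s = none then ∏ s ∈ T, 1 / q s else 0)))| ≤
      ((DT pp V * ∏ p ∈ e, p : ℕ) : ℝ) * B1 := by
  classical
  set D : ℕ := DT pp V * ∏ p ∈ e, p with hD
  have hD0 : 0 < D := Nat.mul_pos (DT_pos pp hpr V) (prod_pos fun p hp => (he p hp).pos)
  have hDr : (0 : ℝ) < D := by exact_mod_cast hD0
  have hB1 : 0 ≤ B1 := (abs_nonneg _).trans (hB 1 0 le_rfl)
  set CC : Finset ℕ := (range D).filter (fun r => cV pp G W b t V r ∧ cE F W b t e r) with hCC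
  have hcard := cc_card pp hpr hinj F G hF hG W b hW t V e he hne
  rw [← hD, ← hCC] at hcard
  have hrr : ∏ s, rr (fun _ : Fin m => 1 / q s) (V s) =
      ∏ s, rr (fun _ : Fin m => (rt G (pp s) : ℝ) / pp s) (V s) :=
    prod_congr rfl fun s _ => by rw [hq s]
  have hper : ∀ K, (cV pp G W b t V K ∧ cE F W b t e K) ↔ K % D ∈ CC := by
    intro K
    rw [hCC, mem_filter, mem_range, cV_per pp hpr hinj G hG W b t V K,
      cV_per pp hpr hinj G hG W b t V (K % D), cE_per hF W b t e he K,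
      cE_per hF W b t e he (K % D), Nat.mod_mod_of_dvd _ (Dvd.intro _ rfl),
      Nat.mod_mod_of_dvd _ (Dvd.intro_left _ rfl)]
    exact ⟨fun h => ⟨Nat.mod_lt _ hD0, h⟩, fun h => h.2⟩
  -- the count by classes
  have h1 : ∀ T : Finset S, ∑ K ∈ N, ind (cE F W b t e K) * (ind (cV pp G W b t V K) *
        ind (∀ s ∈ T, (pp s : ℤ) ∣ G ((W * (K + t i) + b : ℕ) : ℤ))) =
      ∑ c ∈ CC, ∑ K ∈ N, ind (K % D = c % D ∧
        ∀ s ∈ T, (pp s : ℤ) ∣ G ((W * (K + t i) + b : ℕ) : ℤ)) := by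
    intro T
    rw [sum_comm]
    refine sum_congr rfl fun K _ => ?_
    have e1 : ∀ c ∈ CC, ind (K % D = c % D ∧
        ∀ s ∈ T, (pp s : ℤ) ∣ G ((W * (K + t i) + b : ℕ) : ℤ)) =
        if c = K % D then ind (∀ s ∈ T, (pp s : ℤ) ∣ G ((W * (K + t i) + b : ℕ) : ℤ)) else 0 := by
      intro c hc
      have hc' : c % D = c := by
        rw [hCC, mem_filter, mem_range] at hc
        exact Nat.mod_eq_of_lt hc.1
      rw [hc', ind_and]
      by_cases h : c = K % D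
      · rw [if_pos h, ind_pos h.symm, one_mul]
      · rw [if_neg h, ind_neg (fun h2 => h h2.symm), zero_mul]
    rw [sum_congr rfl e1, sum_ite_eq']
    by_cases h : K % D ∈ CC
    · rw [if_pos h]
      obtain ⟨h2, h3⟩ := (hper K).2 h
      rw [ind_pos h2, ind_pos h3, one_mul, one_mul]
    · rw [if_neg h, ← mul_assoc, ← ind_and, ind_neg (fun h2 => h ((hper K).1 ⟨h2.2, h2.1⟩)),
        zero_mul]
  -- the terms
  have h2 : ∀ T : Finset S, (∑ K ∈ N, ind (cE F W b t e K) * (ind (cV pp G W b t V K) *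
        ind (∀ s ∈ T, (pp s : ℤ) ∣ G ((W * (K + t i) + b : ℕ) : ℤ))) -
      L * (∏ p ∈ e, (rhoT F W b t p : ℝ) / p) *
        ((∏ s, rr (fun _ : Fin m => 1 / q s) (V s)) *
          (if ∀ s ∈ T, V s = none then ∏ s ∈ T, 1 / q s else 0))) =
      ∑ c ∈ CC, (if ∀ s ∈ T, Nat.Coprime (pp s) D then
      (∑ K ∈ N, ind (K % D = c % D ∧ ∀ s ∈ T, (pp s : ℤ) ∣ G ((W * (K + t i) + b : ℕ) : ℤ)) -
        L / D * ∏ s ∈ T, 1 / q s) else 0) := by
    intro T
    rw [h1 T]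
    by_cases hT : ∀ s ∈ T, V s = none
    · have hcop : ∀ s ∈ T, Nat.Coprime (pp s) D := by
        intro s hs
        refine Nat.Coprime.mul_right ?_ ?_
        · unfold DT
          apply Nat.Coprime.prod_right
          intro s' _
          split_ifs with h
          · exact Nat.coprime_one_right _
          · refine (Nat.coprime_primes (hpr s) (hpr s')).2 fun h3 => h ?_
            rw [← hinj h3]
            exact hT s hs
        · apply Nat.Coprime.prod_right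
          intro p hp
          exact (Nat.coprime_primes (hpr s) (he p hp)).2 fun h => hne s p hp h.symm
      rw [if_pos hT, sum_congr rfl fun c _ => if_pos hcop, sum_sub_distrib, sum_const,
        nsmul_eq_mul, hcard, hrr]
      congr 1
      field_simp
    · rw [if_neg hT, mul_zero, mul_zero, sub_zero]
      push Not at hT
      obtain ⟨s, hs, hVs⟩ := hT
      obtain ⟨j, hj⟩ := Option.ne_none_iff_exists'.1 hVs
      have hcop : ¬ ∀ s ∈ T, Nat.Coprime (pp s) D := by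
        intro h
        have h3 := h s hs
        have h4 : pp s ∣ D := by
          refine Dvd.dvd.mul_right ?_ _
          unfold DT
          refine dvd_trans ?_ (dvd_prod_of_mem _ (mem_univ s))
          rw [if_neg hVs]
        have h5 := Nat.dvd_gcd (dvd_refl (pp s)) h4
        rw [h3] at h5
        exact (hpr s).one_lt.ne' (Nat.dvd_one.1 h5)
      refine sum_congr rfl fun c hc => ?_
      rw [if_neg hcop]
      refine sum_eq_zero fun K _ => ind_neg ?_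
      rintro ⟨h3, h4⟩
      have hc' : c % D = c := by
        rw [hCC, mem_filter, mem_range] at hc
        exact Nat.mod_eq_of_lt hc.1
      have h5 : K % D ∈ CC := by
        rw [h3, hc']
        exact hc
      have h6 := ((hper K).2 h5).1 s j hj
      have h7 := hU K s j i h6 (h4 s hs)
      rw [h7] at hj
      exact hV s hj
  simp_rw [h2, mul_sum]
  rw [sum_comm]
  refine (abs_sum_le_sum_abs _ _).trans ?_
  refine (sum_le_sum fun c _ => hB D c hD0).trans ?_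
  rw [sum_const, nsmul_eq_mul]
  refine mul_le_mul_of_nonneg_right ?_ hB1
  have h3 : CC.card ≤ D := by
    rw [hCC]
    exact (card_filter_le _ _).trans (le_of_eq (card_range D))
  exact_mod_cast h3

end cls

end REM

open REM

open Classical in
/-- **MQ5.** The remainder condition for the presieved slots from the remainders in residue classes.

Proof. Modelled on `cnt_T`, `cnt_of` (files `Count.lean`, `Real1.lean` of `Pool/Graph/R_seed8/R498/MT`). Fix `V` and let `D₁ = DT pp V`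
(`pp s = (s : ℕ)`), `≤ Y ^ (2 * R)` by `DT_rpow`. Expand `th ... K = ∑ e ∈ (PS W z).powerset, cU e * (if ∀ p ∈ e, ∃ i, p ∣ F (...) then 1 else 0)`
and fix `e` with `cU e ≠ 0`, `D = D₁ * ∏ p ∈ e, p`. By the Chinese remainder theorem there is a finite set `CC ⊆ range D` with
`CC.card = D * ∏ s, rr (fun _ => 1 / q s) (V s) * ∏ p ∈ e, rhoT F W b t p / p` (product of `CT_card` and `∏ p ∈ e, rhoT`; `D₁` is prime to `e`
because the primes of `V` are `≥ Y ^ ε₁ > z`) and `K % D ∈ CC ↔ (∀ s j, V s = some j → (s : ℤ) ∣ G (W * (K + t j) + b)) ∧ ∀ p ∈ e, ∃ i, p ∣ F (...)`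
(one may take `CC := (range D).filter (this condition)`, it is periodic mod `D` by `hG`, `hF`, and count it by CRT; `Pool.Agent.Y833.RSZ.CLS` and
`crt_set` are used for this in `Count.lean`, `C1z.lean`). The first condition is `Sub V (ξ K)` (`xi_iff`, `hU`).
For `T` (a set of sieving primes at the slot `i`): if some `s ∈ T` has `V s ≠ none`, then `V s = some j`, `j ≠ i`, both the count and the
model term vanish, and `s ∣ D`. If `V s = none` for all `s ∈ T` then every `s ∈ T` is prime to `D`. Hence for fixed `e`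
`∑ T, cL T * (∑ K, (e-condition) * Sub V * (T at i) - L * (∏ p ∈ e, rhoT / p) * (model term)) = ∑ c ∈ CC, ∑ T, cL T * (if ∀ s ∈ T, Coprime s D then
(count of K % D = c, T at i) - L / D * ∏ s ∈ T, 1 / q s else 0)`, of absolute value at most `CC.card * B1 ≤ D * B1 ≤ Y ^ (2 * R) * Z * B1` by `hB`.
Finally `|cU e| ≤ 1` and there are at most `Z` sets `e` with `∏ p ∈ e, p ≤ Z` (`Pool.Agent.TH423.SH.FLIP.card_le`), and
`VV (PS W z) cU (fun p => rhoT F W b t p / p) = ∑ e, cU e * ∏ p ∈ e, rhoT / p` by definition. -/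
theorem rem_of (F G : ℤ → ℤ) (hF : ∀ p : ℕ, p.Prime → ∀ n : ℤ, (p : ℤ) ∣ F (n + p) - F n)
    (hG : ∀ p : ℕ, p.Prime → ∀ n : ℤ, (p : ℤ) ∣ G (n + p) - G n) (k W b z M L Y : ℕ)
    (t : Fin (2 ^ k) → ℕ) (hY : 2 ≤ Y) (ε₁ υ R : ℝ) (hW1 : 1 ≤ W) (hW : W ≤ z)
    (hz : (z : ℝ) < (Y : ℝ) ^ ε₁)
    (cU : Finset ℕ → ℝ) (hcU : ∀ T, |cU T| ≤ 1) (Z : ℕ)
    (hcZ : ∀ T ⊆ PS W z, cU T ≠ 0 → ∏ p ∈ T, p ≤ Z)
    (hU : ∀ (K : ℕ) (s : Pg G Y ε₁ υ) i j, ((s : ℕ) : ℤ) ∣ G ((W * (K + t i) + b : ℕ) : ℤ) →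
      ((s : ℕ) : ℤ) ∣ G ((W * (K + t j) + b : ℕ) : ℤ) → i = j)
    (i : Fin (2 ^ k)) (cL : Finset (Pg G Y ε₁ υ) → ℝ) (B1 : ℝ) (hB1 : 0 ≤ B1)
    (hB : ∀ D c : ℕ, 1 ≤ D → |∑ T, cL T * (if ∀ s ∈ T, Nat.Coprime (s : ℕ) D then
      ((((Ioc M (M + L)).filter (fun K => K % D = c % D ∧
        ∀ s ∈ T, ((s : ℕ) : ℤ) ∣ G ((W * (K + t i) + b : ℕ) : ℤ))).card : ℝ) -
        (L : ℝ) / D * ∏ s ∈ T, 1 / qs G Y ε₁ υ s) else 0)| ≤ B1) :
    Rem k (qs G Y ε₁ υ) (ls G Y ε₁ υ) R i cL (Ioc M (M + L)) (th F W b t (PS W z) cU)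
      (xi G W b t (fun s : Pg G Y ε₁ υ => (s : ℕ)))
      (L * VV (PS W z) cU (fun p => (rhoT F W b t p : ℝ) / p))
      ((Z : ℝ) ^ 2 * (Y : ℝ) ^ (2 * R) * B1) := by
  have hYr : (2 : ℝ) ≤ Y := by exact_mod_cast hY
  have hY1 : (1 : ℝ) ≤ Y := by linarith
  have hpr : ∀ s : Pg G Y ε₁ υ, (s : ℕ).Prime := fun s => (Pg_mem G Y ε₁ υ hY s).1
  have hzs : ∀ s : Pg G Y ε₁ υ, z < (s : ℕ) := fun s => by
    have h3 := hz.trans_le (Pg_mem G Y ε₁ υ hY s).2.1
    exact_mod_cast h3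
  have hPS : ∀ p ∈ PS W z, p.Prime ∧ p ≤ z := by
    intro p hp
    unfold PS at hp
    rw [mem_filter, mem_Icc] at hp
    exact ⟨hp.2.1, hp.1.2⟩
  have hWs : ∀ s : Pg G Y ε₁ υ, ¬ (s : ℕ) ∣ W := fun s h => by
    have := Nat.le_of_dvd hW1 h
    have := hzs s
    omega
  intro V hV hlt
  set N := Ioc M (M + L) with hN
  -- the summand of one set of presieve primes
  set Qe : Finset ℕ → ℝ := fun e => ∑ T, cL T * (∑ K ∈ N, ind (cE F W b t e K) *
        (ind (cV (fun s : Pg G Y ε₁ υ => (s : ℕ)) G W b t V K) *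
        ind (∀ s ∈ T, ((s : ℕ) : ℤ) ∣ G ((W * (K + t i) + b : ℕ) : ℤ))) -
      L * (∏ p ∈ e, (rhoT F W b t p : ℝ) / p) *
        ((∏ s, rr (fun _ : Fin (2 ^ k) => 1 / qs G Y ε₁ υ s) (V s)) *
          (if ∀ s ∈ T, V s = none then ∏ s ∈ T, 1 / qs G Y ε₁ υ s else 0))) with hQe
  have hDT : (DT (fun s : Pg G Y ε₁ υ => (s : ℕ)) V : ℝ) ≤ (Y : ℝ) ^ (2 * R) := by
    rw [DT_rpow G Y ε₁ υ hY V]
    exact Real.rpow_le_rpow_of_exponent_le hY1 hlt
  have hB' : ∀ D c : ℕ, 1 ≤ D → |∑ T, cL T * (if ∀ s ∈ T, Nat.Coprime (s : ℕ) D then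
      (∑ K ∈ N, ind (K % D = c % D ∧
        ∀ s ∈ T, ((s : ℕ) : ℤ) ∣ G ((W * (K + t i) + b : ℕ) : ℤ)) -
        (L : ℝ) / D * ∏ s ∈ T, 1 / qs G Y ε₁ υ s) else 0)| ≤ B1 := by
    intro D c hD
    refine le_trans (le_of_eq ?_) (hB D c hD)
    congr 1
    refine sum_congr rfl fun T _ => ?_
    rw [card_ind]
  have hQ1 : ∀ e ⊆ PS W z, ∏ p ∈ e, p ≤ Z → |Qe e| ≤ (Z : ℝ) * (Y : ℝ) ^ (2 * R) * B1 := by
    intro e he heZ
    have h1 := rem_e (fun s : Pg G Y ε₁ υ => (s : ℕ)) hpr Subtype.val_injective F G hF hG W b hWs t V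
      e (fun p hp => (hPS p (he hp)).1) (fun s p hp h => by
        have h2 := (hPS p (he hp)).2
        have h3 := hzs s
        have h4 : p = (s : ℕ) := h
        omega)
      (qs G Y ε₁ υ) (fun s => by
        unfold qs
        rw [one_div, inv_div]) i hV cL B1 L N hU hB'
    refine h1.trans ?_
    refine mul_le_mul_of_nonneg_right ?_ hB1
    rw [Nat.cast_mul, mul_comm]
    refine mul_le_mul ?_ hDT (Nat.cast_nonneg _) (Nat.cast_nonneg _)
    exact_mod_cast heZ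
  -- the expansion
  have hsplit : ∑ T, cL T * (∑ n ∈ N, th F W b t (PS W z) cU n *
        ((if Sub V (xi G W b t (fun s : Pg G Y ε₁ υ => (s : ℕ)) n) then 1 else 0) *
        (if ∀ s ∈ T, xi G W b t (fun s : Pg G Y ε₁ υ => (s : ℕ)) n s = some i then 1 else 0)) -
      (L * VV (PS W z) cU (fun p => (rhoT F W b t p : ℝ) / p)) *
        ((∏ s, rr (fun _ : Fin (2 ^ k) => 1 / qs G Y ε₁ υ s) (V s)) *
        (if ∀ s ∈ T, V s = none then ∏ s ∈ T, 1 / qs G Y ε₁ υ s else 0))) =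
      ∑ e ∈ (PS W z).powerset, cU e * Qe e := by
    have hξ : ∀ K (s : Pg G Y ε₁ υ) j,
        xi G W b t (fun s : Pg G Y ε₁ υ => (s : ℕ)) K s = some j ↔
          ((s : ℕ) : ℤ) ∣ G ((W * (K + t j) + b : ℕ) : ℤ) :=
      fun K s j => xi_iff G W b t _ K s (hU K s) j
    have g1 : ∀ (T : Finset (Pg G Y ε₁ υ)) (n : ℕ), th F W b t (PS W z) cU n *
        ((if Sub V (xi G W b t (fun s : Pg G Y ε₁ υ => (s : ℕ)) n) then 1 else 0) *
        (if ∀ s ∈ T, xi G W b t (fun s : Pg G Y ε₁ υ => (s : ℕ)) n s = some i then 1 else 0)) =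
        ∑ e ∈ (PS W z).powerset, cU e * (ind (cE F W b t e n) *
        (ind (cV (fun s : Pg G Y ε₁ υ => (s : ℕ)) G W b t V n) *
        ind (∀ s ∈ T, ((s : ℕ) : ℤ) ∣ G ((W * (n + t i) + b : ℕ) : ℤ)))) := by
      intro T n
      have a1 : (if Sub V (xi G W b t (fun s : Pg G Y ε₁ υ => (s : ℕ)) n) then (1 : ℝ) else 0) =
          ind (cV (fun s : Pg G Y ε₁ υ => (s : ℕ)) G W b t V n) := by
        rw [ite_ind]
        apply ind_congr
        constructor
        · intro h s j hs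
          rcases h s with h2 | h2
          · rw [hs] at h2
            simp at h2
          · rw [hs] at h2
            exact (hξ n s j).1 h2.symm
        · intro h s
          rcases hs : V s with _ | j
          · exact Or.inl rfl
          · exact Or.inr ((hξ n s j).2 (h s j hs)).symm
      have a2 : (if ∀ s ∈ T, xi G W b t (fun s : Pg G Y ε₁ υ => (s : ℕ)) n s = some i then
          (1 : ℝ) else 0) = ind (∀ s ∈ T, ((s : ℕ) : ℤ) ∣ G ((W * (n + t i) + b : ℕ) : ℤ)) := by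
        rw [ite_ind]
        apply ind_congr
        exact forall_congr' fun s => imp_congr_right fun _ => hξ n s i
      rw [a1, a2]
      unfold th VV
      rw [sum_mul]
      refine sum_congr rfl fun e _ => ?_
      have a3 : ∏ p ∈ e, (if ∃ i, (p : ℤ) ∣ F ((W * (n + t i) + b : ℕ) : ℤ) then (1 : ℝ) else 0) =
          ind (cE F W b t e n) := by
        unfold cE
        rw [← prodInd]
        exact prod_congr rfl fun p _ => ite_ind _
      rw [a3, mul_assoc]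
    have g2 : ∀ T : Finset (Pg G Y ε₁ υ), cL T * (∑ n ∈ N, th F W b t (PS W z) cU n *
        ((if Sub V (xi G W b t (fun s : Pg G Y ε₁ υ => (s : ℕ)) n) then 1 else 0) *
        (if ∀ s ∈ T, xi G W b t (fun s : Pg G Y ε₁ υ => (s : ℕ)) n s = some i then 1 else 0)) -
      (L * VV (PS W z) cU (fun p => (rhoT F W b t p : ℝ) / p)) *
        ((∏ s, rr (fun _ : Fin (2 ^ k) => 1 / qs G Y ε₁ υ s) (V s)) *
        (if ∀ s ∈ T, V s = none then ∏ s ∈ T, 1 / qs G Y ε₁ υ s else 0))) =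
        ∑ e ∈ (PS W z).powerset, cU e * (cL T * (∑ K ∈ N, ind (cE F W b t e K) *
        (ind (cV (fun s : Pg G Y ε₁ υ => (s : ℕ)) G W b t V K) *
        ind (∀ s ∈ T, ((s : ℕ) : ℤ) ∣ G ((W * (K + t i) + b : ℕ) : ℤ))) -
      L * (∏ p ∈ e, (rhoT F W b t p : ℝ) / p) *
        ((∏ s, rr (fun _ : Fin (2 ^ k) => 1 / qs G Y ε₁ υ s) (V s)) *
          (if ∀ s ∈ T, V s = none then ∏ s ∈ T, 1 / qs G Y ε₁ υ s else 0)))) := by
      intro T
      rw [sum_congr rfl fun n _ => g1 T n, sum_comm]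
      unfold VV
      rw [mul_sum, sum_mul, ← sum_sub_distrib, mul_sum]
      refine sum_congr rfl fun e _ => ?_
      rw [← mul_sum]
      ring
    rw [sum_congr rfl fun T _ => g2 T, sum_comm]
    refine sum_congr rfl fun e _ => ?_
    rw [hQe, ← mul_sum]
  have hgoal : |∑ e ∈ (PS W z).powerset, cU e * Qe e| ≤
      (Z : ℝ) ^ 2 * (Y : ℝ) ^ (2 * R) * B1 := by
    have hYR : 0 ≤ (Y : ℝ) ^ (2 * R) := Real.rpow_nonneg (by linarith) _
    have hC0 : 0 ≤ (Z : ℝ) * (Y : ℝ) ^ (2 * R) * B1 := by positivity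
    have b1 : ∀ e ∈ (PS W z).powerset, |cU e * Qe e| ≤
        if ∏ p ∈ e, p ≤ Z then (Z : ℝ) * (Y : ℝ) ^ (2 * R) * B1 else 0 := by
      intro e he
      rw [mem_powerset] at he
      by_cases h0 : cU e = 0
      · rw [h0, zero_mul, abs_zero]
        split_ifs
        · exact hC0
        · exact le_rfl
      · have h1 := hcZ e he h0
        rw [if_pos h1, abs_mul]
        calc |cU e| * |Qe e| ≤ 1 * |Qe e| := mul_le_mul_of_nonneg_right (hcU e) (abs_nonneg _)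
          _ = |Qe e| := one_mul _
          _ ≤ _ := hQ1 e he h1
    refine (abs_sum_le_sum_abs _ _).trans ((sum_le_sum b1).trans ?_)
    rw [← sum_filter, sum_const, nsmul_eq_mul]
    have b2 := Pool.Agent.TH423.SH.FLIP.card_le (PS W z) (fun p hp => (hPS p hp).1) Z
    have b3 : ((((PS W z).powerset.filter (fun e : Finset ℕ => ∏ p ∈ e, p ≤ Z)).card : ℕ) : ℝ) ≤
        Z := by exact_mod_cast b2
    calc _ ≤ (Z : ℝ) * ((Z : ℝ) * (Y : ℝ) ^ (2 * R) * B1) := mul_le_mul_of_nonneg_right b3 hC0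
      _ = _ := by ring
  rw [← hsplit] at hgoal
  exact hgoal

end Pool.Agent.H543.MQ
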